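import Mathlib
import Pool.Agent.H261R2.CM.D

/-!
# A finite sum of logarithms and the conjugate sum of arguments

Let `c_j` be points of the unit circle and `ε_j` real numbers. The mean of the absolute value of the
sum of the `ε_j log |1 - c_j z|` on the unit circle is at most the square root of the mean of the
square of the sum of the `ε_j arg (1 - c_j z)` (`saw_l2`).
-/

set_option autoImplicit false

namespace Pool.Agent.U72.NP

open MeasureTheory Filter Topology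
open Pool.Agent.H261R2.CM

noncomputable section

variable {ι : Type*} [Fintype ι]

/-- the logarithmic sum -/
def uu (ε : ι → ℝ) (c : ι → ℂ) (ρ t : ℝ) : ℝ := ∑ j, ε j * Real.log ‖1 - c j * (ρ * ez t)‖

/-- the conjugate sum -/
def ww (ε : ι → ℝ) (c : ι → ℂ) (ρ t : ℝ) : ℝ := ∑ j, ε j * (1 - c j * (ρ * ez t)).arg

/-- the analytic function -/
def gg (ε : ι → ℝ) (c : ι → ℂ) (z : ℂ) : ℂ := ∑ j, (ε j : ℂ) * Complex.log (1 - c j * z)

theorem gg_re (ε : ι → ℝ) (c : ι → ℂ) (ρ t : ℝ) : (gg ε c (ρ * ez t)).re = uu ε c ρ t := by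
  unfold gg uu
  rw [Complex.re_sum]
  refine Finset.sum_congr rfl fun j _ => ?_
  rw [Complex.re_ofReal_mul, Complex.log_re]

theorem gg_im (ε : ι → ℝ) (c : ι → ℂ) (ρ t : ℝ) : (gg ε c (ρ * ez t)).im = ww ε c ρ t := by
  unfold gg ww
  rw [Complex.im_sum]
  refine Finset.sum_congr rfl fun j _ => ?_
  rw [Complex.im_ofReal_mul, Complex.log_im]

theorem slit {c z : ℂ} (hc : ‖c‖ = 1) (hz : ‖z‖ < 1) : 1 - c * z ∈ Complex.slitPlane := by
  have h := Complex.mem_slitPlane_of_norm_lt_one (z := -(c * z)) (by rw [norm_neg, norm_mul, hc, one_mul]; exact hz)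
  rwa [← sub_eq_add_neg] at h

theorem gg_diff (ε : ι → ℝ) {c : ι → ℂ} (hc : ∀ j, ‖c j‖ = 1) {z : ℂ} (hz : ‖z‖ < 1) :
    DifferentiableAt ℂ (gg ε c) z := by
  unfold gg
  refine DifferentiableAt.fun_sum fun j _ => ?_
  refine DifferentiableAt.const_mul ?_ _
  refine DifferentiableAt.clog ?_ (slit (hc j) hz)
  fun_prop

theorem gg_zero (ε : ι → ℝ) (c : ι → ℂ) : gg ε c 0 = 0 := by
  unfold gg
  simp

theorem norm_scaled {ρ : ℝ} (h0 : 0 ≤ ρ) (t : ℝ) : ‖(ρ : ℂ) * ez t‖ = ρ := by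
  rw [norm_mul, D_norm_ez, mul_one, Complex.norm_real, Real.norm_of_nonneg h0]

theorem gg_cont (ε : ι → ℝ) {c : ι → ℂ} (hc : ∀ j, ‖c j‖ = 1) {ρ : ℝ} (h0 : 0 ≤ ρ) (h1 : ρ < 1) :
    Continuous fun t : ℝ => gg ε c (ρ * ez t) := by
  rw [continuous_iff_continuousAt]
  intro t
  have h2 : ‖(ρ : ℂ) * ez t‖ < 1 := by rw [norm_scaled h0]; exact h1
  have h3 : ContinuousAt (gg ε c) ((ρ : ℂ) * ez t) := (gg_diff ε hc h2).continuousAt
  exact ContinuousAt.comp (f := fun t : ℝ => (ρ : ℂ) * ez t) h3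
    (by have := D_continuous_ez; fun_prop)

theorem uu_cont (ε : ι → ℝ) {c : ι → ℂ} (hc : ∀ j, ‖c j‖ = 1) {ρ : ℝ} (h0 : 0 ≤ ρ) (h1 : ρ < 1) :
    Continuous (uu ε c ρ) := by
  have h := Complex.continuous_re.comp (gg_cont ε hc h0 h1)
  exact h.congr fun t => gg_re ε c ρ t

theorem ww_cont (ε : ι → ℝ) {c : ι → ℂ} (hc : ∀ j, ‖c j‖ = 1) {ρ : ℝ} (h0 : 0 ≤ ρ) (h1 : ρ < 1) :
    Continuous (ww ε c ρ) := by
  have h := Complex.continuous_im.comp (gg_cont ε hc h0 h1)
  exact h.congr fun t => gg_im ε c ρ t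

theorem int_sq (ε : ι → ℝ) {c : ι → ℂ} (hc : ∀ j, ‖c j‖ = 1) {ρ : ℝ} (h0 : 0 ≤ ρ) (h1 : ρ < 1) :
    ∫ t in (0:ℝ)..1, uu ε c ρ t ^ 2 = ∫ t in (0:ℝ)..1, ww ε c ρ t ^ 2 := by
  have hd : DiffContOnCl ℂ (fun z : ℂ => gg ε c (ρ * z) ^ 2) (Metric.ball 0 |(1:ℝ)|) := by
    apply DifferentiableOn.diffContOnCl
    intro z hz
    rw [abs_one, closure_ball (0:ℂ) one_ne_zero, mem_closedBall_zero_iff] at hz
    apply DifferentiableAt.differentiableWithinAt
    have h2 : ‖(ρ : ℂ) * z‖ < 1 := by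
      rw [norm_mul, Complex.norm_real, Real.norm_of_nonneg h0]
      nlinarith [norm_nonneg z]
    have h3 := gg_diff ε hc h2
    have h4 : DifferentiableAt ℂ (fun z : ℂ => gg ε c (ρ * z)) z :=
      DifferentiableAt.comp (f := fun z : ℂ => (ρ : ℂ) * z) z h3 (by fun_prop)
    exact h4.pow 2
  have h := hd.circleAverage
  rw [D_circleAverage] at h
  simp only [mul_zero, gg_zero] at h
  have h5 := congrArg Complex.re h
  rw [← Complex.reCLM_apply, ← ContinuousLinearMap.intervalIntegral_comp_comm] at h5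
  · simp only [Complex.reCLM_apply] at h5
    have h6 : ∀ t : ℝ, (gg ε c (ρ * ez t) ^ 2).re = uu ε c ρ t ^ 2 - ww ε c ρ t ^ 2 := by
      intro t
      rw [sq, Complex.mul_re, gg_re, gg_im]
      ring
    simp only [h6] at h5
    rw [intervalIntegral.integral_sub] at h5
    · simp at h5
      linarith
    · exact ((uu_cont ε hc h0 h1).pow 2).intervalIntegrable _ _
    · exact ((ww_cont ε hc h0 h1).pow 2).intervalIntegrable _ _
  · exact ((gg_cont ε hc h0 h1).pow 2).intervalIntegrable _ _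

theorem int_abs_sq (f : ℝ → ℝ) (hf : Continuous f) :
    (∫ t in (0:ℝ)..1, |f t|) ^ 2 ≤ ∫ t in (0:ℝ)..1, f t ^ 2 := by
  set m := ∫ t in (0:ℝ)..1, |f t| with hm
  have h : 0 ≤ ∫ t in (0:ℝ)..1, (|f t| - m) ^ 2 :=
    intervalIntegral.integral_nonneg zero_le_one fun t _ => sq_nonneg _
  have e : ∀ t, (|f t| - m) ^ 2 = f t ^ 2 - (2 * m * |f t| - m ^ 2) := by
    intro t
    rw [← sq_abs (f t)]
    ring
  simp only [e] at h
  rw [intervalIntegral.integral_sub ((by fun_prop : Continuous fun t => f t ^ 2).intervalIntegrable _ _)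
    ((by fun_prop : Continuous fun t => 2 * m * |f t| - m ^ 2).intervalIntegrable _ _),
    intervalIntegral.integral_sub
    ((by fun_prop : Continuous fun t => 2 * m * |f t|).intervalIntegrable _ _) (by simp),
    intervalIntegral.integral_const_mul, ← hm] at h
  simp at h
  nlinarith

/-- the exceptional points -/
theorem ae_ne_one (c : ι → ℂ) (hc : ∀ j, ‖c j‖ = 1) : ∀ᵐ t : ℝ, ∀ j, c j * ez t ≠ 1 := by
  rw [ae_all_iff]
  intro j
  have h1 : {t : ℝ | c j * ez t = 1}.Countable := by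
    by_cases hz : ∃ s : ℝ, c j * ez s = 1
    · obtain ⟨s, hs⟩ := hz
      refine (Set.countable_range fun n : ℤ => s + n).mono ?_
      intro t ht
      have hcj : c j ≠ 0 := by
        intro h
        have := hc j
        rw [h, norm_zero] at this
        exact zero_ne_one this
      have h2 : ez t = ez s := mul_left_cancel₀ hcj (ht.trans hs.symm)
      unfold ez at h2
      rw [Complex.exp_eq_exp_iff_exists_int] at h2
      obtain ⟨n, hn⟩ := h2
      refine ⟨n, ?_⟩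
      have hne : (2 * (Real.pi : ℂ) * Complex.I) ≠ 0 := Complex.two_pi_I_ne_zero
      have h3 : (t : ℂ) = s + n := by
        apply mul_left_cancel₀ hne
        rw [hn]
        ring
      show s + (n : ℝ) = t
      exact_mod_cast h3.symm
    · have : {t : ℝ | c j * ez t = 1} = ∅ := by
        ext t
        simp only [Set.mem_ofPred_eq, Set.mem_empty_iff_false, iff_false]
        exact fun h => hz ⟨t, h⟩
      rw [this]
      exact Set.countable_empty
  rw [ae_iff]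
  simpa using h1.measure_zero volume

theorem log_int (c : ℂ) :
    IntervalIntegrable (fun t : ℝ => Real.log ‖1 - c * ez t‖) volume 0 1 := by
  have h := Polynomial.intervalIntegrable_mahlerMeasure (1 - Polynomial.C c * Polynomial.X)
  have h2 := h.comp_mul_left (c := 2 * Real.pi)
  have hpi : (2 * Real.pi : ℝ) ≠ 0 := by positivity
  rw [zero_div, div_self hpi] at h2
  have h3 : (fun t : ℝ => Real.log ‖1 - c * ez t‖) =
      fun t => Real.log ‖(1 - Polynomial.C c * Polynomial.X : Polynomial ℂ).eval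
        (circleMap 0 1 (2 * Real.pi * t))‖ := by
    ext t
    rw [D_ez_eq]
    simp
  rw [h3]
  exact h2

theorem log_bound {w : ℂ} (hw : ‖w‖ = 1) (hw1 : w ≠ 1) {ρ : ℝ} (h0 : 0 ≤ ρ) (h1 : ρ ≤ 1) :
    |Real.log ‖1 - (ρ : ℂ) * w‖| ≤ |Real.log ‖1 - w‖| + Real.log 2 := by
  have hn : ‖(ρ : ℂ) * w‖ = ρ := by
    rw [norm_mul, hw, mul_one, Complex.norm_real, Real.norm_of_nonneg h0]
  have ha : ‖1 - (ρ : ℂ) * w‖ ≤ 2 := by
    calc ‖1 - (ρ : ℂ) * w‖ ≤ ‖(1:ℂ)‖ + ‖(ρ : ℂ) * w‖ := norm_sub_le _ _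
      _ ≤ 2 := by rw [hn, norm_one]; linarith
  have hb : 1 - ρ ≤ ‖1 - (ρ : ℂ) * w‖ := by
    have := norm_sub_norm_le (1:ℂ) ((ρ : ℂ) * w)
    rwa [hn, norm_one] at this
  have hc : ‖1 - w‖ ≤ 2 * ‖1 - (ρ : ℂ) * w‖ := by
    have e : 1 - w = (1 - (ρ : ℂ) * w) + ((ρ - 1 : ℝ) : ℂ) * w := by push_cast; ring
    calc ‖1 - w‖ ≤ ‖1 - (ρ : ℂ) * w‖ + ‖((ρ - 1 : ℝ) : ℂ) * w‖ := by
          conv_lhs => rw [e]
          exact norm_add_le _ _
      _ = ‖1 - (ρ : ℂ) * w‖ + (1 - ρ) := by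
          rw [norm_mul, hw, mul_one, Complex.norm_real, Real.norm_eq_abs, abs_sub_comm,
            abs_of_nonneg (by linarith)]
      _ ≤ _ := by linarith
  have hp : 0 < ‖1 - w‖ := norm_pos_iff.mpr (sub_ne_zero.mpr (Ne.symm hw1))
  have hq : 0 < ‖1 - (ρ : ℂ) * w‖ := by linarith
  have h2 : Real.log ‖1 - (ρ : ℂ) * w‖ ≤ Real.log 2 := Real.log_le_log hq ha
  have h3 : Real.log ‖1 - w‖ ≤ Real.log 2 + Real.log ‖1 - (ρ : ℂ) * w‖ := by
    rw [← Real.log_mul (by norm_num) hq.ne']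
    exact Real.log_le_log hp hc
  have h4 : 0 ≤ Real.log 2 := Real.log_nonneg (by norm_num)
  rw [abs_le]
  constructor
  · have := neg_abs_le (Real.log ‖1 - w‖)
    linarith
  · have := abs_nonneg (Real.log ‖1 - w‖)
    linarith

theorem norm_c_ez {c : ℂ} (hc : ‖c‖ = 1) (t : ℝ) : ‖c * ez t‖ = 1 := by
  rw [norm_mul, hc, one_mul, D_norm_ez]

theorem uu_bound (ε : ι → ℝ) {c : ι → ℂ} (hc : ∀ j, ‖c j‖ = 1) {ρ : ℝ} (h0 : 0 ≤ ρ)
    (h1 : ρ ≤ 1) {t : ℝ} (ht : ∀ j, c j * ez t ≠ 1) :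
    |uu ε c ρ t| ≤ ∑ j, |ε j| * (|Real.log ‖1 - c j * ez t‖| + Real.log 2) := by
  unfold uu
  refine (Finset.abs_sum_le_sum_abs _ _).trans (Finset.sum_le_sum fun j _ => ?_)
  rw [abs_mul]
  refine mul_le_mul_of_nonneg_left ?_ (abs_nonneg _)
  have e : c j * ((ρ : ℂ) * ez t) = (ρ : ℂ) * (c j * ez t) := by ring
  rw [e]
  exact log_bound (norm_c_ez (hc j) t) (ht j) h0 h1

theorem ww_bound (ε : ι → ℝ) (c : ι → ℂ) (ρ t : ℝ) : |ww ε c ρ t| ≤ ∑ j, |ε j| * Real.pi := by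
  unfold ww
  refine (Finset.abs_sum_le_sum_abs _ _).trans (Finset.sum_le_sum fun j _ => ?_)
  rw [abs_mul]
  exact mul_le_mul_of_nonneg_left (Complex.abs_arg_le_pi _) (abs_nonneg _)

/-- the radii -/
def rr (n : ℕ) : ℝ := 1 - 1 / ((n : ℝ) + 2)

theorem rr_nonneg (n : ℕ) : 0 ≤ rr n := by
  unfold rr
  have h : 1 / ((n : ℝ) + 2) ≤ 1 := by
    rw [div_le_one (by positivity)]
    have : (0:ℝ) ≤ n := Nat.cast_nonneg _
    linarith
  linarith

theorem rr_lt (n : ℕ) : rr n < 1 := by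
  unfold rr
  have h : 0 < 1 / ((n : ℝ) + 2) := by positivity
  linarith

theorem rr_tendsto : Tendsto rr atTop (𝓝 1) := by
  have h : Tendsto (fun n : ℕ => 1 / ((n : ℝ) + 2)) atTop (𝓝 0) := by
    have h1 := (tendsto_one_div_add_atTop_nhds_zero_nat (𝕜 := ℝ)).comp (tendsto_add_atTop_nat 1)
    refine h1.congr fun n => ?_
    simp only [Function.comp]
    push_cast
    ring_nf
  have h2 := (tendsto_const_nhds (x := (1:ℝ))).sub h
  rw [sub_zero] at h2
  exact h2

theorem uu_one (ε : ι → ℝ) (c : ι → ℂ) (t : ℝ) :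
    uu ε c 1 t = ∑ j, ε j * Real.log ‖1 - c j * ez t‖ := by
  unfold uu
  simp

theorem ww_one (ε : ι → ℝ) (c : ι → ℂ) (t : ℝ) :
    ww ε c 1 t = ∑ j, ε j * (1 - c j * ez t).arg := by
  unfold ww
  simp

theorem uu_tendsto (ε : ι → ℝ) {c : ι → ℂ} {t : ℝ}
    (ht : ∀ j, c j * ez t ≠ 1) : Tendsto (fun n => uu ε c (rr n) t) atTop (𝓝 (uu ε c 1 t)) := by
  unfold uu
  refine tendsto_finsetSum _ fun j _ => ?_
  refine Tendsto.const_mul _ ?_
  have h1 : ContinuousAt (fun ρ : ℝ => Real.log ‖1 - c j * ((ρ : ℂ) * ez t)‖) 1 := by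
    refine ContinuousAt.log (by fun_prop) ?_
    rw [Complex.ofReal_one, one_mul, norm_ne_zero_iff, sub_ne_zero]
    exact Ne.symm (ht j)
  exact h1.tendsto.comp rr_tendsto

theorem slit_one {w : ℂ} (hw : ‖w‖ = 1) (hw1 : w ≠ 1) : 1 - w ∈ Complex.slitPlane := by
  left
  have h1 : w.re < 1 := by
    have h2 : w.re ≤ 1 := (Complex.re_le_norm w).trans hw.le
    refine lt_of_le_of_ne h2 fun h3 => hw1 ?_
    have h4 : w.re ^ 2 + w.im ^ 2 = 1 := by
      have h5 := Complex.normSq_apply w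
      rw [Complex.normSq_eq_norm_sq, hw] at h5
      nlinarith
    rw [h3] at h4
    have h6 : w.im = 0 := by nlinarith
    exact Complex.ext h3 h6
  simp only [Complex.sub_re, Complex.one_re]
  linarith

theorem ww_tendsto (ε : ι → ℝ) {c : ι → ℂ} (hc : ∀ j, ‖c j‖ = 1) {t : ℝ}
    (ht : ∀ j, c j * ez t ≠ 1) : Tendsto (fun n => ww ε c (rr n) t) atTop (𝓝 (ww ε c 1 t)) := by
  unfold ww
  refine tendsto_finsetSum _ fun j _ => ?_
  refine Tendsto.const_mul _ ?_
  have h1 : ContinuousAt (fun ρ : ℝ => (1 - c j * ((ρ : ℂ) * ez t)).arg) 1 := by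
    have h2 : ContinuousAt Complex.arg (1 - c j * (((1:ℝ) : ℂ) * ez t)) := by
      apply Complex.continuousAt_arg
      rw [Complex.ofReal_one, one_mul]
      exact slit_one (norm_c_ez (hc j) t) (ht j)
    exact ContinuousAt.comp (f := fun ρ : ℝ => 1 - c j * ((ρ : ℂ) * ez t)) h2 (by fun_prop)
  exact h1.tendsto.comp rr_tendsto

/-- **The bound for the mean of the logarithmic sum.** -/
theorem saw_l2 (ε : ι → ℝ) {c : ι → ℂ} (hc : ∀ j, ‖c j‖ = 1) :
    (∫ t in (0:ℝ)..1, |∑ j, ε j * Real.log ‖1 - c j * ez t‖|) ^ 2 ≤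
      ∫ t in (0:ℝ)..1, (∑ j, ε j * (1 - c j * ez t).arg) ^ 2 := by
  have hae := ae_ne_one c hc
  have hcu : ∀ n, Continuous (uu ε c (rr n)) := fun n => uu_cont ε hc (rr_nonneg n) (rr_lt n)
  have hcw : ∀ n, Continuous (ww ε c (rr n)) := fun n => ww_cont ε hc (rr_nonneg n) (rr_lt n)
  have hbi : IntervalIntegrable
      (fun t => ∑ j, |ε j| * (|Real.log ‖1 - c j * ez t‖| + Real.log 2)) volume 0 1 := by
    have h1 : ∀ j ∈ (Finset.univ : Finset ι), IntervalIntegrable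
        (fun t => |ε j| * (|Real.log ‖1 - c j * ez t‖| + Real.log 2)) volume 0 1 := by
      intro j _
      have h2 : IntervalIntegrable (fun t => |Real.log ‖1 - c j * ez t‖|) volume 0 1 :=
        (log_int (c j)).abs
      have h3 : IntervalIntegrable (fun _ : ℝ => Real.log 2) volume 0 1 :=
        intervalIntegrable_const
      exact (h2.add h3).const_mul _
    have h4 := IntervalIntegrable.sum Finset.univ h1
    refine h4.congr_ae ?_
    refine Eventually.of_forall fun t => ?_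
    simp only [Finset.sum_apply]
  have hlim1 : Tendsto (fun n => ∫ t in (0:ℝ)..1, |uu ε c (rr n) t|) atTop
      (𝓝 (∫ t in (0:ℝ)..1, |uu ε c 1 t|)) := by
    refine intervalIntegral.tendsto_integral_filter_of_dominated_convergence
      (fun t => ∑ j, |ε j| * (|Real.log ‖1 - c j * ez t‖| + Real.log 2)) ?_ ?_ hbi ?_
    · exact Eventually.of_forall fun n => (hcu n).abs.aestronglyMeasurable
    · refine Eventually.of_forall fun n => ?_
      filter_upwards [hae] with t ht _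
      rw [Real.norm_eq_abs, abs_abs]
      exact uu_bound ε hc (rr_nonneg n) (rr_lt n).le ht
    · filter_upwards [hae] with t ht _
      exact (uu_tendsto ε ht).abs
  have hlim2 : Tendsto (fun n => ∫ t in (0:ℝ)..1, ww ε c (rr n) t ^ 2) atTop
      (𝓝 (∫ t in (0:ℝ)..1, ww ε c 1 t ^ 2)) := by
    refine intervalIntegral.tendsto_integral_filter_of_dominated_convergence
      (fun _ => (∑ j, |ε j| * Real.pi) ^ 2) ?_ ?_ (by simp) ?_
    · exact Eventually.of_forall fun n => ((hcw n).pow 2).aestronglyMeasurable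
    · refine Eventually.of_forall fun n => Eventually.of_forall fun t _ => ?_
      rw [Real.norm_eq_abs, abs_pow]
      exact pow_le_pow_left₀ (abs_nonneg _) (ww_bound ε c (rr n) t) 2
    · filter_upwards [hae] with t ht _
      exact (ww_tendsto ε hc ht).pow 2
  have h3 : (∫ t in (0:ℝ)..1, |uu ε c 1 t|) ^ 2 ≤ ∫ t in (0:ℝ)..1, ww ε c 1 t ^ 2 := by
    refine le_of_tendsto_of_tendsto' (hlim1.pow 2) hlim2 fun n => ?_
    rw [← int_sq ε hc (rr_nonneg n) (rr_lt n)]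
    exact int_abs_sq _ (hcu n)
  simp only [uu_one, ww_one] at h3
  exact h3

end

end Pool.Agent.U72.NP
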