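import Mathlib
import Pool.Agent.U72.NP.Saw

/-!
# The mean of a difference of logarithmic sums is bounded by the mean square discrepancy
-/

set_option autoImplicit false

namespace Pool.Agent.U72.NP

open MeasureTheory Filter Topology
open Pool.Agent.H261R2.CM

noncomputable section

theorem ez_add (s t : ℝ) : ez (s + t) = ez s * ez t := by
  unfold ez
  rw [← Complex.exp_add]
  congr 1
  push_cast
  ring

theorem ez_zero : ez 0 = 1 := by
  unfold ez
  simp

theorem ez_re (t : ℝ) : (ez t).re = Real.cos (2 * Real.pi * t) := by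
  have h : (2 * (Real.pi : ℂ) * Complex.I * (t : ℂ)) = ((2 * Real.pi * t : ℝ) : ℂ) * Complex.I := by
    push_cast
    ring
  unfold ez
  rw [h, Complex.exp_ofReal_mul_I_re]

theorem ez_im (t : ℝ) : (ez t).im = Real.sin (2 * Real.pi * t) := by
  have h : (2 * (Real.pi : ℂ) * Complex.I * (t : ℂ)) = ((2 * Real.pi * t : ℝ) : ℂ) * Complex.I := by
    push_cast
    ring
  unfold ez
  rw [h, Complex.exp_ofReal_mul_I_im]

theorem one_sub_ez_eq (x : ℝ) : 1 - ez x = ((2 * Real.sin (Real.pi * x) : ℝ) : ℂ) *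
    ((Real.sin (Real.pi * x) : ℂ) + ((- Real.cos (Real.pi * x) : ℝ) : ℂ) * Complex.I) := by
  have h2 : 2 * Real.pi * x = 2 * (Real.pi * x) := by ring
  have hR : (1 - ez x).re = 2 * Real.sin (Real.pi * x) ^ 2 := by
    rw [Complex.sub_re, ez_re, Complex.one_re, h2, Real.cos_two_mul]
    have := Real.sin_sq_add_cos_sq (Real.pi * x)
    nlinarith
  have hI : (1 - ez x).im = - (2 * Real.sin (Real.pi * x) * Real.cos (Real.pi * x)) := by
    rw [Complex.sub_im, ez_im, Complex.one_im, h2, Real.sin_two_mul]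
    ring
  generalize Real.sin (Real.pi * x) = s at *
  generalize Real.cos (Real.pi * x) = c at *
  apply Complex.ext
  · rw [hR]
    simp
    ring
  · rw [hI]
    simp

theorem arg_one_sub_pos {x : ℝ} (h0 : 0 < x) (h1 : x < 1) :
    (1 - ez x).arg = Real.pi * (x - 1 / 2) := by
  have hpi := Real.pi_pos
  have hs : 0 < Real.sin (Real.pi * x) :=
    Real.sin_pos_of_pos_of_lt_pi (by positivity) (by nlinarith)
  have h3 : Real.pi * (x - 1 / 2) = Real.pi * x - Real.pi / 2 := by ring
  have hc : Real.cos (Real.pi * (x - 1 / 2)) = Real.sin (Real.pi * x) := by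
    rw [h3, Real.cos_sub_pi_div_two]
  have hsn : Real.sin (Real.pi * (x - 1 / 2)) = - Real.cos (Real.pi * x) := by
    rw [h3, Real.sin_sub_pi_div_two]
  rw [one_sub_ez_eq, ← hc, ← hsn, Complex.ofReal_cos, Complex.ofReal_sin, hc]
  exact Complex.arg_mul_cos_add_sin_mul_I (by positivity) ⟨by nlinarith, by nlinarith⟩

theorem arg_one_sub_neg {x : ℝ} (h0 : -1 < x) (h1 : x < 0) :
    (1 - ez x).arg = Real.pi * (x - 1 / 2) + Real.pi := by
  have hpi := Real.pi_pos
  have hs : 0 < - Real.sin (Real.pi * x) := by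
    rw [← Real.sin_neg]
    exact Real.sin_pos_of_pos_of_lt_pi (by nlinarith) (by nlinarith)
  have h3 : Real.pi * (x - 1 / 2) + Real.pi = Real.pi * x + Real.pi / 2 := by ring
  have hc : Real.cos (Real.pi * (x - 1 / 2) + Real.pi) = - Real.sin (Real.pi * x) := by
    rw [h3, Real.cos_add_pi_div_two]
  have hsn : Real.sin (Real.pi * (x - 1 / 2) + Real.pi) = Real.cos (Real.pi * x) := by
    rw [h3, Real.sin_add_pi_div_two]
  have e : 1 - ez x = ((2 * (- Real.sin (Real.pi * x)) : ℝ) : ℂ) *
      (Complex.cos ((Real.pi * (x - 1 / 2) + Real.pi : ℝ) : ℂ) +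
        Complex.sin ((Real.pi * (x - 1 / 2) + Real.pi : ℝ) : ℂ) * Complex.I) := by
    rw [← Complex.ofReal_cos, ← Complex.ofReal_sin, hc, hsn, one_sub_ez_eq]
    push_cast
    ring
  rw [e]
  exact Complex.arg_mul_cos_add_sin_mul_I (by positivity) ⟨by nlinarith, by nlinarith⟩

/-- the number of entries larger than `t` -/
def cn (A : List ℝ) (t : ℝ) : ℝ := (A.map fun a => if t < a then (1:ℝ) else 0).sum

/-- the sum of arguments of a list of angles -/
theorem arg_sum (A : List ℝ) (hA : ∀ a ∈ A, a ∈ Set.Ico (0:ℝ) 1) {t : ℝ}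
    (ht : t ∈ Set.Ioo (0:ℝ) 1) (htA : t ∉ A) :
    (A.map fun a => (1 - ez (t - a)).arg).sum =
      Real.pi * (A.length * (t - 1 / 2) - A.sum + cn A t) := by
  induction A with
  | nil => simp [cn]
  | cons b A ih =>
    have hb := hA b (by simp)
    have hne : t ≠ b := fun h => htA (by simp [h])
    have ih' := ih (fun a ha => hA a (by simp [ha])) (fun h => htA (by simp [h]))
    unfold cn at ih' ⊢
    simp only [List.map_cons, List.sum_cons, List.length_cons]
    rw [ih']
    push_cast
    rcases lt_or_gt_of_ne hne with h | h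
    · rw [if_pos h, arg_one_sub_neg (by linarith [ht.1, hb.2]) (by linarith)]
      ring
    · rw [if_neg (not_lt.mpr h.le), arg_one_sub_pos (by linarith) (by linarith [ht.2, hb.1])]
      ring

theorem step_anti (a : ℝ) : Antitone (fun t : ℝ => if t < a then (1:ℝ) else 0) := by
  intro s t hst
  simp only
  split_ifs with h1 h2
  · exact le_rfl
  · exact absurd (lt_of_le_of_lt hst h1) h2
  · exact zero_le_one
  · exact le_rfl

theorem cn_anti (A : List ℝ) : Antitone (cn A) := by
  induction A with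
  | nil => intro s t _; simp [cn]
  | cons b A ih =>
    intro s t hst
    have h1 := ih hst
    have h2 := step_anti b hst
    unfold cn at h1 ⊢
    simp only [List.map_cons, List.sum_cons]
    simp only at h2
    linarith

theorem cn_int (A : List ℝ) : IntervalIntegrable (cn A) volume 0 1 :=
  (cn_anti A).intervalIntegrable

theorem cn_nonneg (A : List ℝ) (t : ℝ) : 0 ≤ cn A t := by
  induction A with
  | nil => simp [cn]
  | cons b A ih =>
    unfold cn at ih ⊢
    simp only [List.map_cons, List.sum_cons]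
    split_ifs <;> linarith

theorem cn_le (A : List ℝ) (t : ℝ) : cn A t ≤ A.length := by
  induction A with
  | nil => simp [cn]
  | cons b A ih =>
    unfold cn at ih ⊢
    simp only [List.map_cons, List.sum_cons, List.length_cons]
    push_cast
    split_ifs <;> linarith

theorem step_int (a : ℝ) : IntervalIntegrable (fun t : ℝ => if t < a then (1:ℝ) else 0) volume 0 1 :=
  (step_anti a).intervalIntegrable

theorem step_integral {a : ℝ} (ha : a ∈ Set.Ico (0:ℝ) 1) :
    ∫ t in (0:ℝ)..1, (if t < a then (1:ℝ) else 0) = a := by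
  have h := intervalIntegral.integral_indicator (μ := volume) (f := fun _ : ℝ => (1:ℝ))
    (a₁ := 0) (a₂ := a) (a₃ := 1) ⟨ha.1, ha.2.le⟩
  have e : ∫ t in (0:ℝ)..1, (if t < a then (1:ℝ) else 0) =
      ∫ t in (0:ℝ)..1, Set.indicator {x : ℝ | x ≤ a} (fun _ : ℝ => (1:ℝ)) t := by
    refine intervalIntegral.integral_congr_ae ?_
    have hne : ∀ᵐ t : ℝ, t ≠ a := by
      rw [ae_iff]
      simp
    filter_upwards [hne] with t ht _
    by_cases h1 : t < a
    · simp [Set.indicator, h1, h1.le]
    · have h2 : ¬ t ≤ a := fun h3 => h1 (lt_of_le_of_ne h3 ht)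
      simp [Set.indicator, h1, h2]
  rw [e, h]
  simp

theorem cn_integral (A : List ℝ) (hA : ∀ a ∈ A, a ∈ Set.Ico (0:ℝ) 1) :
    ∫ t in (0:ℝ)..1, cn A t = A.sum := by
  induction A with
  | nil => simp [cn]
  | cons b A ih =>
    have e : cn (b :: A) = fun t => (if t < b then (1:ℝ) else 0) + cn A t := by
      ext t
      simp [cn]
    rw [e, intervalIntegral.integral_add (step_int b) (cn_int A), step_integral (hA b (by simp)),
      ih (fun a ha => hA a (by simp [ha]))]
    simp

/-- the square of the difference is integrable -/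
theorem cnsq_int (A B : List ℝ) :
    IntervalIntegrable (fun t => (cn A t - cn B t) ^ 2) volume 0 1 := by
  have hm : AEStronglyMeasurable (fun t => (cn A t - cn B t) ^ 2) (volume.restrict (Set.uIoc 0 1)) :=
    (((cn_anti A).measurable.sub (cn_anti B).measurable).pow_const 2).aestronglyMeasurable
  have hc : IntervalIntegrable (fun _ : ℝ => ((A.length : ℝ) + B.length) ^ 2) volume 0 1 :=
    intervalIntegrable_const
  refine hc.mono_fun hm ?_
  refine Eventually.of_forall fun t => ?_
  simp only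
  rw [Real.norm_eq_abs, Real.norm_eq_abs, abs_pow, abs_pow]
  refine pow_le_pow_left₀ (abs_nonneg _) ?_ 2
  rw [abs_of_nonneg (by positivity : (0:ℝ) ≤ (A.length : ℝ) + B.length), abs_le]
  have h1 := cn_nonneg A t
  have h2 := cn_le A t
  have h3 := cn_nonneg B t
  have h4 := cn_le B t
  constructor <;> linarith

/-- **The bound by the mean square discrepancy.** -/
theorem saw_count (A B : List ℝ) (hA : ∀ a ∈ A, a ∈ Set.Ico (0:ℝ) 1)
    (hB : ∀ b ∈ B, b ∈ Set.Ico (0:ℝ) 1) (r : ℝ) (hr : 0 ≤ r)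
    (hlen : |(A.length : ℝ) - B.length| ≤ r) (b : ℝ)
    (h : ∫ t in (0:ℝ)..1, (cn A t - cn B t - b) ^ 2 ≤ r ^ 2) :
    ∫ t in (0:ℝ)..1, |(A.map fun a => Real.log ‖1 - ez (t - a)‖).sum -
      (B.map fun b => Real.log ‖1 - ez (t - b)‖).sum| ≤ 5 * r := by
  -- almost all points
  have hae : ∀ᵐ t : ℝ, t ∉ A ∧ t ∉ B := by
    have hf : ({t : ℝ | t ∈ A} ∪ {t : ℝ | t ∈ B}).Finite :=
      (List.finite_toSet A).union (List.finite_toSet B)
    have := hf.measure_zero volume
    rw [ae_iff]
    convert this using 2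
    ext t
    simp only [Set.mem_ofPred_eq, Set.mem_union]
    tauto
  -- the index type
  set ε : Fin A.length ⊕ Fin B.length → ℝ := Sum.elim (fun _ => 1) (fun _ => -1) with hε
  set c : Fin A.length ⊕ Fin B.length → ℂ :=
    Sum.elim (fun i => ez (-A[i.1])) (fun j => ez (-B[j.1])) with hc
  have hcn : ∀ j, ‖c j‖ = 1 := by
    rintro (i | j)
    · exact D_norm_ez _
    · exact D_norm_ez _
  have hF : ∀ (f : ℂ → ℝ) (t : ℝ), ∑ j, ε j * f (1 - c j * ez t) =
      (A.map fun a => f (1 - ez (t - a))).sum - (B.map fun b => f (1 - ez (t - b))).sum := by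
    intro f t
    rw [Fintype.sum_sum_type, ← Fin.sum_univ_fun_getElem, ← Fin.sum_univ_fun_getElem,
      sub_eq_add_neg, ← Finset.sum_neg_distrib]
    congr 1
    · refine Finset.sum_congr rfl fun i _ => ?_
      simp only [hε, hc, Sum.elim_inl, one_mul]
      rw [← ez_add]
      congr 3
      ring
    · refine Finset.sum_congr rfl fun i _ => ?_
      simp only [hε, hc, Sum.elim_inr, neg_mul, one_mul]
      rw [← ez_add]
      congr 4
      ring
  have key := saw_l2 ε hcn
  have e1 : ∀ t : ℝ, (∑ j, ε j * Real.log ‖1 - c j * ez t‖) =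
      (A.map fun a => Real.log ‖1 - ez (t - a)‖).sum -
        (B.map fun b => Real.log ‖1 - ez (t - b)‖).sum :=
    fun t => hF (fun z => Real.log ‖z‖) t
  have e2 : ∀ t : ℝ, (∑ j, ε j * (1 - c j * ez t).arg) =
      (A.map fun a => (1 - ez (t - a)).arg).sum - (B.map fun b => (1 - ez (t - b)).arg).sum :=
    fun t => hF (fun z => z.arg) t
  simp only [e1, e2] at key
  set d : ℝ := (A.length : ℝ) - B.length with hd
  set K : ℝ := A.sum - B.sum with hK
  have hpt : ∀ᵐ t : ℝ, t ∈ Set.uIoc (0:ℝ) 1 →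
      ((A.map fun a => (1 - ez (t - a)).arg).sum -
        (B.map fun b => (1 - ez (t - b)).arg).sum) ^ 2 =
      Real.pi ^ 2 * (d * (t - 1 / 2) + ((cn A t - cn B t) - K)) ^ 2 := by
    have hne1 : ∀ᵐ t : ℝ, t ≠ 1 := by
      rw [ae_iff]
      simp
    filter_upwards [hae, hne1] with t ht ht1 hmem
    rw [Set.uIoc_of_le zero_le_one] at hmem
    have ht01 : t ∈ Set.Ioo (0:ℝ) 1 := ⟨hmem.1, lt_of_le_of_ne hmem.2 ht1⟩
    rw [arg_sum A hA ht01 ht.1, arg_sum B hB ht01 ht.2, hd, hK]
    ring
  rw [intervalIntegral.integral_congr_ae hpt] at key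
  -- the integral of the square
  have hi1 : IntervalIntegrable (fun t : ℝ => cn A t - cn B t) volume 0 1 :=
    (cn_int A).sub (cn_int B)
  have hi2 := cnsq_int A B
  have hKi : ∫ t in (0:ℝ)..1, (cn A t - cn B t) = K := by
    rw [intervalIntegral.integral_sub (cn_int A) (cn_int B), cn_integral A hA, cn_integral B hB]
  have hq : IntervalIntegrable (fun t : ℝ => 2 * d ^ 2 * (t - 1 / 2) ^ 2) volume 0 1 :=
    (by fun_prop : Continuous fun t : ℝ => 2 * d ^ 2 * (t - 1 / 2) ^ 2).intervalIntegrable _ _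
  have hp : IntervalIntegrable (fun t : ℝ => 2 * ((cn A t - cn B t) ^ 2 -
      (2 * K * (cn A t - cn B t) - K ^ 2))) volume 0 1 :=
    (hi2.sub ((hi1.const_mul (2 * K)).sub intervalIntegrable_const)).const_mul 2
  have hbd : ∫ t in (0:ℝ)..1, Real.pi ^ 2 * (d * (t - 1 / 2) + ((cn A t - cn B t) - K)) ^ 2 ≤
      Real.pi ^ 2 * ∫ t in (0:ℝ)..1, (2 * d ^ 2 * (t - 1 / 2) ^ 2 +
        2 * ((cn A t - cn B t) ^ 2 - (2 * K * (cn A t - cn B t) - K ^ 2))) := by
    rw [intervalIntegral.integral_const_mul]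
    refine mul_le_mul_of_nonneg_left ?_ (by positivity)
    refine intervalIntegral.integral_mono_on zero_le_one ?_ (hq.add hp) fun t _ => ?_
    · have hx : IntervalIntegrable (fun t : ℝ => d ^ 2 * (t - 1 / 2) ^ 2 +
          2 * (d * (t - 1 / 2) * (cn A t - cn B t)) - 2 * (d * (t - 1 / 2)) * K +
          ((cn A t - cn B t) ^ 2 - (2 * K * (cn A t - cn B t) - K ^ 2))) volume 0 1 := by
        refine IntervalIntegrable.add (IntervalIntegrable.sub (IntervalIntegrable.add ?_ ?_) ?_) ?_
        · exact (by fun_prop : Continuous fun t : ℝ => d ^ 2 * (t - 1 / 2) ^ 2).intervalIntegrable _ _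
        · refine IntervalIntegrable.const_mul ?_ 2
          exact hi1.continuousOn_mul
            (by fun_prop : Continuous fun t : ℝ => d * (t - 1 / 2)).continuousOn
        · exact (by fun_prop : Continuous fun t : ℝ =>
            2 * (d * (t - 1 / 2)) * K).intervalIntegrable _ _
        · exact hi2.sub ((hi1.const_mul (2 * K)).sub intervalIntegrable_const)
      refine hx.congr_ae (Eventually.of_forall fun t => ?_)
      simp only
      ring
    · have := sq_nonneg (d * (t - 1 / 2) - ((cn A t - cn B t) - K))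
      nlinarith
  have hval : ∫ t in (0:ℝ)..1, (2 * d ^ 2 * (t - 1 / 2) ^ 2 +
        2 * ((cn A t - cn B t) ^ 2 - (2 * K * (cn A t - cn B t) - K ^ 2))) =
      d ^ 2 / 6 + 2 * ((∫ t in (0:ℝ)..1, (cn A t - cn B t) ^ 2) - K ^ 2) := by
    rw [intervalIntegral.integral_add hq hp, intervalIntegral.integral_const_mul,
      intervalIntegral.integral_const_mul,
      intervalIntegral.integral_sub hi2 ((hi1.const_mul (2 * K)).sub intervalIntegrable_const),
      intervalIntegral.integral_sub (hi1.const_mul (2 * K)) intervalIntegrable_const,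
      intervalIntegral.integral_const_mul, hKi]
    have h12 : ∫ t in (0:ℝ)..1, (t - 1 / 2) ^ 2 = 1 / 12 := by
      rw [intervalIntegral.integral_comp_sub_right (fun x => x ^ 2) (1 / 2), integral_pow]
      norm_num
    rw [h12]
    simp only [intervalIntegral.integral_const, sub_zero, one_smul]
    ring
  have hshift : (∫ t in (0:ℝ)..1, (cn A t - cn B t) ^ 2) - K ^ 2 ≤ r ^ 2 := by
    have e3 : ∫ t in (0:ℝ)..1, (cn A t - cn B t - b) ^ 2 =
        (∫ t in (0:ℝ)..1, (cn A t - cn B t) ^ 2) - (2 * b * K - b ^ 2) := by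
      have e4 : ∀ t : ℝ, (cn A t - cn B t - b) ^ 2 =
          (cn A t - cn B t) ^ 2 - (2 * b * (cn A t - cn B t) - b ^ 2) := fun t => by ring
      simp only [e4]
      rw [intervalIntegral.integral_sub hi2 ((hi1.const_mul (2 * b)).sub intervalIntegrable_const),
        intervalIntegral.integral_sub (hi1.const_mul (2 * b)) intervalIntegrable_const,
        intervalIntegral.integral_const_mul, hKi]
      simp only [intervalIntegral.integral_const, sub_zero, one_smul]
    rw [e3] at h
    nlinarith [sq_nonneg (K - b)]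
  have hd2 : d ^ 2 ≤ r ^ 2 := by
    rw [← sq_abs d]
    exact pow_le_pow_left₀ (abs_nonneg _) hlen 2
  have hfin : (∫ t in (0:ℝ)..1, |(A.map fun a => Real.log ‖1 - ez (t - a)‖).sum -
      (B.map fun b => Real.log ‖1 - ez (t - b)‖).sum|) ^ 2 ≤ (5 * r) ^ 2 := by
    refine key.trans (hbd.trans ?_)
    rw [hval]
    have hpi := Real.pi_lt_d2
    have hpi0 := Real.pi_pos
    have hpi2 : Real.pi ^ 2 ≤ 10 := by nlinarith
    have h5 : d ^ 2 / 6 + 2 * ((∫ t in (0:ℝ)..1, (cn A t - cn B t) ^ 2) - K ^ 2) ≤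
        13 / 6 * r ^ 2 := by
      linarith
    have h6 : 0 ≤ r ^ 2 := sq_nonneg r
    calc Real.pi ^ 2 * (d ^ 2 / 6 + 2 * ((∫ t in (0:ℝ)..1, (cn A t - cn B t) ^ 2) - K ^ 2))
        ≤ Real.pi ^ 2 * (13 / 6 * r ^ 2) := mul_le_mul_of_nonneg_left h5 (by positivity)
      _ ≤ 10 * (13 / 6 * r ^ 2) := mul_le_mul_of_nonneg_right hpi2 (by positivity)
      _ ≤ (5 * r) ^ 2 := by nlinarith
  exact le_of_sq_le_sq hfin (by positivity)

end

end Pool.Agent.U72.NP
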