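import Mathlib
import Pool.Agent.U72.NP.Count
import Pool.Agent.H261R2.CM.L2

/-!
# The height of a pair of polynomials is bounded by the measures and the discrepancy of the zeros
-/

set_option autoImplicit false

namespace Pool.Agent.U72.NP

open MeasureTheory Filter Topology Polynomial
open Pool.Agent.H261R2.CM

noncomputable section

/-- the argument of `z` in turns, in `[0, 1)` -/
def turn (z : ℂ) : ℝ := Int.fract (Complex.arg z / (2 * Real.pi))

theorem turn_mem (z : ℂ) : turn z ∈ Set.Ico (0:ℝ) 1 := ⟨Int.fract_nonneg _, Int.fract_lt_one _⟩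

/-- the number of zeros whose argument (in turns) is larger than `x` -/
def above (F : ℤ[X]) (x : ℝ) : ℕ := ((toC F).roots.filter (fun z => x < turn z)).card

theorem ez_int (n : ℤ) : ez n = 1 := by
  unfold ez
  rw [Complex.exp_eq_one_iff]
  refine ⟨n, ?_⟩
  push_cast
  ring

theorem ez_turn (z : ℂ) : (‖z‖ : ℂ) * ez (turn z) = z := by
  have h1 : ez (turn z) = ez (Complex.arg z / (2 * Real.pi)) := by
    have h2 : Complex.arg z / (2 * Real.pi) =
        turn z + ((⌊Complex.arg z / (2 * Real.pi)⌋ : ℤ) : ℝ) := by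
      unfold turn
      exact (Int.fract_add_floor _).symm
    conv_rhs => rw [h2]
    rw [ez_add, ez_int, mul_one]
  rw [h1]
  have h3 : ez (Complex.arg z / (2 * Real.pi)) = Complex.exp (Complex.arg z * Complex.I) := by
    unfold ez
    congr 1
    have hpi : (Real.pi : ℂ) ≠ 0 := by exact_mod_cast Real.pi_ne_zero
    push_cast
    field_simp
  rw [h3]
  exact Complex.norm_mul_exp_arg_mul_I z

theorem turn_ez {a : ℝ} (ha : a ∈ Set.Ico (0:ℝ) 1) : turn (ez a) = a := by
  have h1 := ez_turn (ez a)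
  rw [D_norm_ez, Complex.ofReal_one, one_mul] at h1
  have hb := turn_mem (ez a)
  generalize turn (ez a) = b at *
  unfold ez at h1
  rw [Complex.exp_eq_exp_iff_exists_int] at h1
  obtain ⟨n, hn⟩ := h1
  have hne : (2 * (Real.pi : ℂ) * Complex.I) ≠ 0 := Complex.two_pi_I_ne_zero
  have h3 : (b : ℂ) = a + n := by
    apply mul_left_cancel₀ hne
    rw [hn]
    ring
  have h4 : b = a + n := by exact_mod_cast h3
  have h5 : (n : ℝ) < 1 := by linarith [ha.1, hb.2]
  have h6 : (-1 : ℝ) < n := by linarith [ha.2, hb.1]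
  have h7 : n < 1 := by exact_mod_cast h5
  have h8 : -1 < n := by exact_mod_cast h6
  have h9 : n = 0 := by omega
  rw [h4, h9]
  simp

/-- the product of the norm and the turn -/
theorem norm_sub_eq {q : ℝ} (_hq : 0 ≤ q) (t a : ℝ) :
    ‖ez t - (q : ℂ) * ez a‖ = ‖1 - (q : ℂ) * ez (t - a)‖ := by
  have h1 : star (1 - (q : ℂ) * ez (t - a)) = 1 - (q : ℂ) * ez (a - t) := by
    have h2 : star (ez (t - a)) = ez (a - t) := by
      apply Complex.ext
      · simp only [Complex.star_def, Complex.conj_re, ez_re]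
        rw [show 2 * Real.pi * (a - t) = -(2 * Real.pi * (t - a)) by ring, Real.cos_neg]
      · simp only [Complex.star_def, Complex.conj_im, ez_im]
        rw [show 2 * Real.pi * (a - t) = -(2 * Real.pi * (t - a)) by ring, Real.sin_neg]
    rw [star_sub, star_one, star_mul', h2]
    simp
  rw [← norm_star (1 - (q : ℂ) * ez (t - a)), h1]
  have h3 : ez t - (q : ℂ) * ez a = ez t * (1 - (q : ℂ) * ez (a - t)) := by
    have h4 : ez a = ez t * ez (a - t) := by
      rw [← ez_add]
      congr 1
      ring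
    rw [h4]
    ring
  rw [h3, norm_mul, D_norm_ez, one_mul]

/-- the smaller one of the norm and its inverse -/
def qq (z : ℂ) : ℝ := min ‖z‖ ‖z‖⁻¹

theorem qq_pos {z : ℂ} (hz : z ≠ 0) : 0 < qq z := by
  have := norm_pos_iff.mpr hz
  exact lt_min this (inv_pos.mpr this)

theorem qq_le (z : ℂ) : qq z ≤ 1 := by
  unfold qq
  rcases le_total ‖z‖ 1 with h | h
  · exact (min_le_left _ _).trans h
  · exact (min_le_right _ _).trans (inv_le_one_of_one_le₀ h)

theorem log_qq {z : ℂ} (hz : z ≠ 0) : - Real.log (qq z) = 2 * Real.posLog ‖z‖ - Real.log ‖z‖ := by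
  have hp := norm_pos_iff.mpr hz
  unfold qq Real.posLog
  rcases le_total ‖z‖ 1 with h | h
  · have h1 : 1 ≤ ‖z‖⁻¹ := (one_le_inv₀ hp).mpr h
    rw [min_eq_left (h.trans h1), max_eq_left (Real.log_nonpos hp.le h)]
    ring
  · have h1 : ‖z‖⁻¹ ≤ 1 := inv_le_one_of_one_le₀ h
    rw [min_eq_right (h1.trans h), max_eq_right (Real.log_nonneg h), Real.log_inv]
    ring

/-- the logarithm of a linear factor -/
theorem log_factor {z : ℂ} (hz : z ≠ 0) (t : ℝ) (ht : ez t ≠ z) :
    Real.log ‖ez t - z‖ = Real.posLog ‖z‖ + Real.log ‖1 - (qq z : ℂ) * ez (t - turn z)‖ := by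
  have hp := norm_pos_iff.mpr hz
  have hne : ‖ez t - z‖ ≠ 0 := norm_ne_zero_iff.mpr (sub_ne_zero.mpr ht)
  rcases le_total ‖z‖ 1 with h | h
  · have h1 : 1 ≤ ‖z‖⁻¹ := (one_le_inv₀ hp).mpr h
    have h2 : qq z = ‖z‖ := min_eq_left (h.trans h1)
    have h3 : Real.posLog ‖z‖ = 0 := by
      rw [Real.posLog_eq_zero_iff, abs_of_pos hp]
      exact h
    rw [h3, zero_add, h2, ← norm_sub_eq hp.le, ez_turn]
  · have h1 : ‖z‖⁻¹ ≤ 1 := inv_le_one_of_one_le₀ h
    have h2 : qq z = ‖z‖⁻¹ := min_eq_right (h1.trans h)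
    have h3 : Real.posLog ‖z‖ = Real.log ‖z‖ := by
      unfold Real.posLog
      exact max_eq_right (Real.log_nonneg h)
    have h4 : ‖ez t - z‖ = ‖z‖ * ‖1 - ((‖z‖⁻¹ : ℝ) : ℂ) * ez (t - turn z)‖ := by
      have h5 : ‖ez t - z‖ = ‖ez (turn z) - ((‖z‖⁻¹ : ℝ) : ℂ) * ez t‖ * ‖z‖ := by
        have h6 : ez t - z = -((‖z‖ : ℂ) * (ez (turn z) - ((‖z‖⁻¹ : ℝ) : ℂ) * ez t)) := by
          have h7 : (‖z‖ : ℂ) ≠ 0 := by exact_mod_cast hp.ne'
          rw [mul_sub, ez_turn, ← mul_assoc]
          push_cast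
          rw [mul_inv_cancel₀ h7, one_mul]
          ring
        rw [h6, norm_neg, norm_mul, Complex.norm_real, norm_norm, mul_comm]
      rw [h5, norm_sub_eq (by positivity) (turn z) t, mul_comm]
      congr 1
      have h8 : star (1 - ((‖z‖⁻¹ : ℝ) : ℂ) * ez (turn z - t)) =
          1 - ((‖z‖⁻¹ : ℝ) : ℂ) * ez (t - turn z) := by
        have h2 : star (ez (turn z - t)) = ez (t - turn z) := by
          apply Complex.ext
          · simp only [Complex.star_def, Complex.conj_re, ez_re]
            rw [show 2 * Real.pi * (t - turn z) = -(2 * Real.pi * (turn z - t)) by ring,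
              Real.cos_neg]
          · simp only [Complex.star_def, Complex.conj_im, ez_im]
            rw [show 2 * Real.pi * (t - turn z) = -(2 * Real.pi * (turn z - t)) by ring,
              Real.sin_neg]
        rw [star_sub, star_one, star_mul', h2]
        simp
      rw [← h8, norm_star]
    have h5 : ‖1 - ((‖z‖⁻¹ : ℝ) : ℂ) * ez (t - turn z)‖ ≠ 0 := by
      intro h6
      rw [h4, h6, mul_zero] at hne
      exact hne rfl
    rw [h3, h2, h4, Real.log_mul hp.ne' h5]

/-- integrability for complex polynomials -/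
theorem lm_int (P : ℂ[X]) : IntervalIntegrable (fun t => Real.log ‖P.eval (ez t)‖) volume 0 1 := by
  have h := intervalIntegrable_mahlerMeasure P
  have h2 := h.comp_mul_left (c := 2 * Real.pi)
  have hpi : (2 * Real.pi : ℝ) ≠ 0 := by positivity
  rw [zero_div, div_self hpi] at h2
  have h3 : (fun t => Real.log ‖P.eval (ez t)‖) =
      fun t => Real.log ‖P.eval (circleMap 0 1 (2 * Real.pi * t))‖ := by
    ext t
    simp only [D_ez_eq]
  rw [h3]
  exact h2

theorem lin_eval {q : ℝ} (hq : 0 ≤ q) (t a : ℝ) :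
    Real.log ‖1 - (q : ℂ) * ez (t - a)‖ = Real.log ‖(X - C ((q : ℂ) * ez a)).eval (ez t)‖ := by
  rw [eval_sub, eval_X, eval_C, norm_sub_eq hq]

theorem lin_int {q : ℝ} (hq : 0 ≤ q) (a : ℝ) :
    IntervalIntegrable (fun t => Real.log ‖1 - (q : ℂ) * ez (t - a)‖) volume 0 1 := by
  simp only [lin_eval hq]
  exact lm_int _

theorem lin_integral {q : ℝ} (hq : 0 ≤ q) (hq1 : q ≤ 1) (a : ℝ) :
    ∫ t in (0:ℝ)..1, Real.log ‖1 - (q : ℂ) * ez (t - a)‖ = 0 := by
  simp only [lin_eval hq]
  have h3 := D_circleAverage (fun z => Real.log ‖(X - C ((q : ℂ) * ez a)).eval z‖)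
  refine h3.symm.trans ?_
  rw [← logMahlerMeasure_def, logMahlerMeasure_X_sub_C, norm_mul, D_norm_ez, mul_one,
    Complex.norm_real, Real.norm_of_nonneg hq, Real.posLog_eq_zero_iff, abs_of_nonneg hq]
  exact hq1

theorem lin_one (t a : ℝ) : ‖1 - ((1 : ℝ) : ℂ) * ez (t - a)‖ = ‖1 - ez (t - a)‖ := by
  rw [Complex.ofReal_one, one_mul]

/-- the cost of the radial projection of a zero to the unit circle -/
theorem proj_cost {q : ℝ} (hq : 0 < q) (hq1 : q ≤ 1) (a : ℝ) :
    ∫ t in (0:ℝ)..1, |Real.log ‖1 - (q : ℂ) * ez (t - a)‖ - Real.log ‖1 - ez (t - a)‖| ≤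
      - Real.log q := by
  have hlq : Real.log q ≤ 0 := Real.log_nonpos hq.le hq1
  have hi1 := lin_int hq.le a
  have hi2 : IntervalIntegrable (fun t => Real.log ‖1 - ez (t - a)‖) volume 0 1 := by
    have := lin_int zero_le_one a
    simpa only [lin_one] using this
  have hv1 := lin_integral hq.le hq1 a
  have hv2 : ∫ t in (0:ℝ)..1, Real.log ‖1 - ez (t - a)‖ = 0 := by
    have := lin_integral zero_le_one le_rfl a
    simpa only [lin_one] using this
  have hae : ∀ᵐ t : ℝ, ez (t - a) ≠ 1 := by
    have h := ae_ne_one (fun _ : Fin 1 => ez (-a)) (fun _ => D_norm_ez _)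
    filter_upwards [h] with t ht
    have := ht 0
    rw [← ez_add] at this
    rwa [show t - a = -a + t by ring]
  have hpt : ∀ᵐ t : ℝ, |Real.log ‖1 - (q : ℂ) * ez (t - a)‖ - Real.log ‖1 - ez (t - a)‖| ≤
      (Real.log ‖1 - (q : ℂ) * ez (t - a)‖ - Real.log ‖1 - ez (t - a)‖) - Real.log q := by
    filter_upwards [hae] with t ht
    have hn := D_norm_ez (t - a)
    generalize ez (t - a) = w at *
    have hp : 0 < ‖1 - w‖ := norm_pos_iff.mpr (sub_ne_zero.mpr (Ne.symm ht))
    have hw2 : w.re ^ 2 + w.im ^ 2 = 1 := by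
      have h5 := Complex.normSq_apply w
      rw [Complex.normSq_eq_norm_sq, hn] at h5
      nlinarith
    have h1 : q * ‖1 - w‖ ^ 2 ≤ ‖1 - (q : ℂ) * w‖ ^ 2 := by
      rw [← Complex.normSq_eq_norm_sq, ← Complex.normSq_eq_norm_sq, Complex.normSq_apply,
        Complex.normSq_apply]
      simp only [Complex.sub_re, Complex.one_re, Complex.sub_im, Complex.one_im,
        Complex.re_ofReal_mul, Complex.im_ofReal_mul]
      nlinarith [sq_nonneg (1 - q)]
    have h2 : 0 < ‖1 - (q : ℂ) * w‖ := by
      by_contra hcon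
      have h3 : ‖1 - (q : ℂ) * w‖ = 0 := le_antisymm (not_lt.mp hcon) (norm_nonneg _)
      rw [h3] at h1
      have : 0 < q * ‖1 - w‖ ^ 2 := by positivity
      linarith
    have h3 : Real.log q + 2 * Real.log ‖1 - w‖ ≤ 2 * Real.log ‖1 - (q : ℂ) * w‖ := by
      have h4 := Real.log_le_log (by positivity) h1
      rw [Real.log_mul hq.ne' (by positivity), Real.log_pow, Real.log_pow] at h4
      push_cast at h4
      exact h4
    rw [abs_le]
    constructor <;> linarith
  have h1 : ∫ t in (0:ℝ)..1, |Real.log ‖1 - (q : ℂ) * ez (t - a)‖ - Real.log ‖1 - ez (t - a)‖| ≤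
      ∫ t in (0:ℝ)..1, ((Real.log ‖1 - (q : ℂ) * ez (t - a)‖ - Real.log ‖1 - ez (t - a)‖) -
        Real.log q) :=
    intervalIntegral.integral_mono_ae zero_le_one (hi1.sub hi2).abs
      ((hi1.sub hi2).sub intervalIntegrable_const) hpt
  rw [intervalIntegral.integral_sub (hi1.sub hi2) intervalIntegrable_const,
    intervalIntegral.integral_sub hi1 hi2, hv1, hv2] at h1
  simpa using h1

/-! ### Sums over lists of zeros -/

/-- the logarithmic sum of a list of zeros -/
def UR (R : List ℂ) (t : ℝ) : ℝ :=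
  (R.map fun z => Real.log ‖1 - (qq z : ℂ) * ez (t - turn z)‖).sum

/-- the logarithmic sum of a list of angles -/
def UL (A : List ℝ) (t : ℝ) : ℝ := (A.map fun a => Real.log ‖1 - ez (t - a)‖).sum

theorem UR_cons (z : ℂ) (R : List ℂ) :
    UR (z :: R) = fun t => Real.log ‖1 - (qq z : ℂ) * ez (t - turn z)‖ + UR R t := by
  ext t
  simp [UR]

theorem UL_cons (a : ℝ) (A : List ℝ) :
    UL (a :: A) = fun t => Real.log ‖1 - ez (t - a)‖ + UL A t := by
  ext t
  simp [UL]

theorem qq_nonneg (z : ℂ) : 0 ≤ qq z := le_min (norm_nonneg _) (inv_nonneg.mpr (norm_nonneg _))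

theorem UR_int (R : List ℂ) : IntervalIntegrable (UR R) volume 0 1 := by
  induction R with
  | nil =>
    have h0 : UR [] = fun _ : ℝ => (0:ℝ) := by
      ext t
      simp [UR]
    rw [h0]
    exact intervalIntegrable_const
  | cons z R ih =>
    rw [UR_cons]
    exact (lin_int (qq_nonneg z) _).add ih

theorem lin_one_int (a : ℝ) :
    IntervalIntegrable (fun t => Real.log ‖1 - ez (t - a)‖) volume 0 1 := by
  have := lin_int zero_le_one a
  simpa only [lin_one] using this

theorem UL_int (A : List ℝ) : IntervalIntegrable (UL A) volume 0 1 := by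
  induction A with
  | nil =>
    have h0 : UL [] = fun _ : ℝ => (0:ℝ) := by
      ext t
      simp [UL]
    rw [h0]
    exact intervalIntegrable_const
  | cons b A ih =>
    rw [UL_cons]
    exact (lin_one_int b).add ih

theorem UR_integral (R : List ℂ) : ∫ t in (0:ℝ)..1, UR R t = 0 := by
  induction R with
  | nil => simp [UR]
  | cons z R ih =>
    rw [UR_cons, intervalIntegral.integral_add (lin_int (qq_nonneg z) _) (UR_int R), ih, add_zero,
      lin_integral (qq_nonneg z) (qq_le z)]

theorem UR_UL (R : List ℂ) (hR : ∀ z ∈ R, z ≠ 0) :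
    ∫ t in (0:ℝ)..1, |UR R t - UL (R.map turn) t| ≤
      (R.map fun z => 2 * Real.posLog ‖z‖ - Real.log ‖z‖).sum := by
  induction R with
  | nil => simp [UR, UL]
  | cons z R ih =>
    have ih' := ih (fun w hw => hR w (by simp [hw]))
    have hz := hR z (by simp)
    have hi1 : IntervalIntegrable (fun t => Real.log ‖1 - (qq z : ℂ) * ez (t - turn z)‖ -
        Real.log ‖1 - ez (t - turn z)‖) volume 0 1 :=
      (lin_int (qq_nonneg z) _).sub (lin_one_int _)
    have hi2 : IntervalIntegrable (fun t => UR R t - UL (R.map turn) t) volume 0 1 :=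
      (UR_int R).sub (UL_int _)
    rw [UR_cons, List.map_cons, UL_cons, List.map_cons, List.sum_cons]
    have h1 : ∫ t in (0:ℝ)..1, |(Real.log ‖1 - (qq z : ℂ) * ez (t - turn z)‖ + UR R t) -
        (Real.log ‖1 - ez (t - turn z)‖ + UL (R.map turn) t)| ≤
        ∫ t in (0:ℝ)..1, (|Real.log ‖1 - (qq z : ℂ) * ez (t - turn z)‖ -
          Real.log ‖1 - ez (t - turn z)‖| + |UR R t - UL (R.map turn) t|) := by
      refine intervalIntegral.integral_mono_on zero_le_one ?_ (hi1.abs.add hi2.abs) fun t _ => ?_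
      · exact (((lin_int (qq_nonneg z) _).add (UR_int R)).sub
          ((lin_one_int _).add (UL_int _))).abs
      · have h2 : (Real.log ‖1 - (qq z : ℂ) * ez (t - turn z)‖ + UR R t) -
            (Real.log ‖1 - ez (t - turn z)‖ + UL (R.map turn) t) =
            (Real.log ‖1 - (qq z : ℂ) * ez (t - turn z)‖ - Real.log ‖1 - ez (t - turn z)‖) +
            (UR R t - UL (R.map turn) t) := by ring
        rw [h2]
        exact abs_add_le _ _
    refine h1.trans ?_
    rw [intervalIntegral.integral_add hi1.abs hi2.abs]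
    have h3 := proj_cost (qq_pos hz) (qq_le z) (turn z)
    rw [log_qq hz] at h3
    linarith

/-! ### Polynomials -/

theorem log_eval {P : ℂ[X]} {w : ℂ} (hw : P.eval w ≠ 0) :
    Real.log ‖P.eval w‖ =
      Real.log ‖P.leadingCoeff‖ + (P.roots.toList.map (fun z => Real.log ‖w - z‖)).sum := by
  have hev := (IsAlgClosed.splits P).eval_eq_prod_roots w
  have hl : P.leadingCoeff ≠ 0 := by
    intro h0
    rw [hev, h0, zero_mul] at hw
    exact hw rfl
  have hp : (P.roots.map (w - ·)).prod ≠ 0 := by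
    intro h0
    rw [hev, h0, mul_zero] at hw
    exact hw rfl
  have h0 : (P.roots.toList.map (fun z => Real.log ‖w - z‖)).sum =
      (P.roots.map (fun z => Real.log ‖w - z‖)).sum := by
    conv_rhs => rw [← Multiset.coe_toList P.roots]
    rw [Multiset.map_coe, Multiset.sum_coe]
  rw [h0, hev, norm_mul, Real.log_mul (norm_ne_zero_iff.mpr hl) (norm_ne_zero_iff.mpr hp)]
  congr 1
  have h2 : ‖(P.roots.map (w - ·)).prod‖ = (P.roots.map (fun z => ‖w - z‖)).prod := by
    have h3 := map_multiset_prod (normHom : ℂ →*₀ ℝ) (P.roots.map (w - ·))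
    rw [Multiset.map_map] at h3
    exact h3
  rw [h2, Real.log_multiset_prod, Multiset.map_map]
  · rfl
  · intro x hx
    obtain ⟨z, hz, rfl⟩ := Multiset.mem_map.mp hx
    intro h0
    apply hp
    apply Multiset.prod_eq_zero
    rw [Multiset.mem_map]
    exact ⟨z, hz, norm_eq_zero.mp h0⟩

theorem log_mahler (P : ℂ[X]) : P.logMahlerMeasure =
    Real.log ‖P.leadingCoeff‖ + (P.roots.toList.map (fun z => Real.posLog ‖z‖)).sum := by
  rw [logMahlerMeasure_eq_log_leadingCoeff_add_sum_log_roots]
  congr 1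
  conv_lhs => rw [← Multiset.coe_toList P.roots]
  rw [Multiset.map_coe, Multiset.sum_coe]

theorem log_eval_UR {P : ℂ[X]} (h0 : P.eval 0 ≠ 0) {t : ℝ} (ht : P.eval (ez t) ≠ 0) :
    Real.log ‖P.eval (ez t)‖ = P.logMahlerMeasure + UR P.roots.toList t := by
  rw [log_eval ht, log_mahler, add_assoc]
  congr 1
  unfold UR
  rw [← List.sum_map_add]
  congr 1
  refine List.map_congr_left fun z hz => ?_
  rw [Multiset.mem_toList] at hz
  have hroot : P.eval z = 0 := (mem_roots'.mp hz).2
  refine log_factor ?_ t ?_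
  · rintro rfl
    exact h0 hroot
  · rintro h
    rw [h] at ht
    exact ht hroot

theorem sum_cost (F : ℤ[X]) (h0 : F.coeff 0 ≠ 0) :
    ((toC F).roots.toList.map fun z => 2 * Real.posLog ‖z‖ - Real.log ‖z‖).sum ≤
      2 * Real.log (m1 F) := by
  have hF : F ≠ 0 := by
    rintro rfl
    exact h0 (coeff_zero 0)
  have hev : (toC F).eval 0 = ((F.coeff 0 : ℤ) : ℂ) := by
    rw [← coeff_zero_eq_eval_zero, toC, coeff_map]
    rfl
  have hne : (toC F).eval 0 ≠ 0 := by
    rw [hev]
    exact_mod_cast h0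
  have h1 := log_eval hne
  have h2 := log_mahler (toC F)
  have h3 : ((toC F).roots.toList.map fun z => 2 * Real.posLog ‖z‖ - Real.log ‖z‖).sum =
      2 * ((toC F).roots.toList.map fun z => Real.posLog ‖z‖).sum -
        ((toC F).roots.toList.map fun z => Real.log ‖(0:ℂ) - z‖).sum := by
    generalize (toC F).roots.toList = R
    induction R with
    | nil => simp
    | cons z R ih =>
      simp only [List.map_cons, List.sum_cons]
      rw [ih, zero_sub, norm_neg]
      ring
  have hlead : (toC F).leadingCoeff = ((F.leadingCoeff : ℤ) : ℂ) := by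
    rw [toC, leadingCoeff_map_of_injective (RingHom.injective_int _)]
    rfl
  have h4 : 0 ≤ Real.log ‖(toC F).leadingCoeff‖ := by
    rw [hlead, Complex.norm_intCast]
    apply Real.log_nonneg
    have : (1:ℤ) ≤ |F.leadingCoeff| := Int.one_le_abs (leadingCoeff_ne_zero.mpr hF)
    exact_mod_cast this
  have h5 : 0 ≤ Real.log ‖(toC F).eval 0‖ := by
    rw [hev, Complex.norm_intCast]
    apply Real.log_nonneg
    have : (1:ℤ) ≤ |F.coeff 0| := Int.one_le_abs h0
    exact_mod_cast this
  rw [h3]
  unfold m1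
  rw [← logMahlerMeasure_eq_log_MahlerMeasure, h2]
  linarith

theorem cn_turn (F : ℤ[X]) (x : ℝ) : cn ((toC F).roots.toList.map turn) x = above F x := by
  unfold above
  have h1 : ∀ R : List ℂ, cn (R.map turn) x =
      ((R.filter (fun z => decide (x < turn z))).length : ℝ) := by
    intro R
    induction R with
    | nil => simp [cn]
    | cons z R ih =>
      unfold cn at ih ⊢
      rw [List.map_cons, List.map_cons, List.sum_cons, ih, List.filter_cons]
      by_cases h : x < turn z
      · simp [h]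
        ring
      · simp [h]
  rw [h1]
  conv_rhs => rw [← Multiset.coe_toList (toC F).roots]
  rw [Multiset.filter_coe, Multiset.coe_card]

theorem length_roots (F : ℤ[X]) :
    (((toC F).roots.toList.map turn).length : ℝ) = F.natDegree := by
  rw [List.length_map, Multiset.length_toList]
  have h := (IsAlgClosed.splits (toC F)).natDegree_eq_card_roots
  rw [← h, toC, natDegree_map_eq_of_injective (RingHom.injective_int _)]

theorem pair_height_core (F G : ℤ[X]) (hF : F.coeff 0 ≠ 0) (hG : G.coeff 0 ≠ 0) (r : ℝ)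
    (hr : 0 ≤ r)
    (c3 : ∫ t in (0:ℝ)..1, |UL ((toC F).roots.toList.map turn) t -
      UL ((toC G).roots.toList.map turn) t| ≤ 5 * r) :
    mx1 F G ≤ 3 * max (Real.log (m1 F)) (Real.log (m1 G)) + 3 * r := by
  have hF0 : F ≠ 0 := by
    rintro rfl
    exact hF (coeff_zero 0)
  have hG0 : G ≠ 0 := by
    rintro rfl
    exact hG (coeff_zero 0)
  have hevF : (toC F).eval 0 ≠ 0 := by
    rw [← coeff_zero_eq_eval_zero, toC, coeff_map]
    simpa using hF
  have hevG : (toC G).eval 0 ≠ 0 := by
    rw [← coeff_zero_eq_eval_zero, toC, coeff_map]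
    simpa using hG
  set R := (toC F).roots.toList with hR
  set S := (toC G).roots.toList with hS
  set M := max (Real.log (m1 F)) (Real.log (m1 G)) with hM
  have h7 : Real.log (m1 F) ≤ M := le_max_left _ _
  have h8 : Real.log (m1 G) ≤ M := le_max_right _ _
  have hiR := UR_int R
  have hiS := UR_int S
  have hiA := UL_int (R.map turn)
  have hiB := UL_int (S.map turn)
  have hpt : ∀ᵐ t : ℝ, Real.log (max ‖ev1 F t‖ ‖ev1 G t‖) ≤
      M + (1 / 2) * (UR R t + UR S t + (|UR R t - UL (R.map turn) t| +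
        |UL (R.map turn) t - UL (S.map turn) t| + |UR S t - UL (S.map turn) t|)) := by
    filter_upwards [D_ae_ne F hF0, D_ae_ne G hG0] with t h1 h2
    have h3 := log_eval_UR hevF (t := t) h1
    have h4 := log_eval_UR hevG (t := t) h2
    rw [logMahlerMeasure_eq_log_MahlerMeasure] at h3 h4
    change Real.log ‖ev1 F t‖ = Real.log (m1 F) + UR R t at h3
    change Real.log ‖ev1 G t‖ = Real.log (m1 G) + UR S t at h4
    have h5 : |UR R t - UR S t| ≤ |UR R t - UL (R.map turn) t| +
        |UL (R.map turn) t - UL (S.map turn) t| + |UR S t - UL (S.map turn) t| := by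
      have e : UR R t - UR S t = (UR R t - UL (R.map turn) t) +
        (UL (R.map turn) t - UL (S.map turn) t) - (UR S t - UL (S.map turn) t) := by ring
      rw [e]
      exact (abs_sub _ _).trans (add_le_add (abs_add_le _ _) le_rfl)
    have h9 := le_abs_self (UR R t - UR S t)
    have h10 := neg_abs_le (UR R t - UR S t)
    rcases le_total ‖ev1 F t‖ ‖ev1 G t‖ with h11 | h11
    · rw [max_eq_right h11]
      linarith
    · rw [max_eq_left h11]
      linarith
  have hi1 := (hiR.sub hiA).abs
  have hi2 := (hiA.sub hiB).abs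
  have hi3 := (hiS.sub hiB).abs
  have hiall : IntervalIntegrable (fun t => M + (1 / 2) * (UR R t + UR S t +
      (|UR R t - UL (R.map turn) t| + |UL (R.map turn) t - UL (S.map turn) t| +
        |UR S t - UL (S.map turn) t|))) volume 0 1 :=
    intervalIntegrable_const.add (((hiR.add hiS).add ((hi1.add hi2).add hi3)).const_mul _)
  have h1 : mx1 F G ≤ ∫ t in (0:ℝ)..1, (M + (1 / 2) * (UR R t + UR S t +
      (|UR R t - UL (R.map turn) t| + |UL (R.map turn) t - UL (S.map turn) t| +
        |UR S t - UL (S.map turn) t|))) :=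
    intervalIntegral.integral_mono_ae zero_le_one (mx1_intervalIntegrable F G hF0) hiall hpt
  rw [intervalIntegral.integral_add intervalIntegrable_const
      (((hiR.add hiS).add ((hi1.add hi2).add hi3)).const_mul _),
    intervalIntegral.integral_const_mul,
    intervalIntegral.integral_add (hiR.add hiS) ((hi1.add hi2).add hi3),
    intervalIntegral.integral_add hiR hiS, intervalIntegral.integral_add (hi1.add hi2) hi3,
    intervalIntegral.integral_add hi1 hi2, UR_integral, UR_integral] at h1
  have hne : ∀ (H : ℤ[X]), (toC H).eval 0 ≠ 0 → ∀ z ∈ (toC H).roots.toList, z ≠ 0 := by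
    rintro H hH z hz rfl
    rw [Multiset.mem_toList] at hz
    exact hH (mem_roots'.mp hz).2
  have c1 := (UR_UL R (hne F hevF)).trans (sum_cost F hF)
  have c2 := (UR_UL S (hne G hevG)).trans (sum_cost G hG)
  simp only [intervalIntegral.integral_const, sub_zero, one_smul] at h1
  linarith

/-- **The height of a pair.** -/
theorem pair_height (F G : ℤ[X]) (hF : F.coeff 0 ≠ 0) (hG : G.coeff 0 ≠ 0) (r : ℝ) (hr : 0 ≤ r)
    (hdeg : |(F.natDegree : ℝ) - G.natDegree| ≤ r) (b : ℝ)
    (h : ∫ x in (0:ℝ)..1, ((above F x : ℝ) - above G x - b) ^ 2 ≤ r ^ 2) :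
    mx1 F G ≤ 3 * max (Real.log (m1 F)) (Real.log (m1 G)) + 3 * r := by
  refine pair_height_core F G hF hG r hr ?_
  exact saw_count ((toC F).roots.toList.map turn) ((toC G).roots.toList.map turn)
    (fun a ha => by
      obtain ⟨z, _, rfl⟩ := List.mem_map.mp ha
      exact turn_mem z)
    (fun a ha => by
      obtain ⟨z, _, rfl⟩ := List.mem_map.mp ha
      exact turn_mem z) r hr
    (by rw [length_roots, length_roots]; exact hdeg) b
    (by
      simp only [cn_turn]
      exact h)

/-! ### Rotated base points -/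

/-- the number of zeros whose argument, measured from the point `β` (in turns), is larger than `x` -/
def aboveR (F : ℤ[X]) (β x : ℝ) : ℕ :=
  ((toC F).roots.filter (fun z => x < turn (ez (-β) * z))).card

theorem ez_turn_rot {z : ℂ} (hz : z ≠ 0) (β : ℝ) :
    ez (turn z) = ez β * ez (turn (ez (-β) * z)) := by
  have h1 := ez_turn z
  have h2 := ez_turn (ez (-β) * z)
  rw [norm_mul, D_norm_ez, one_mul] at h2
  have hn : (‖z‖ : ℂ) ≠ 0 := by
    rw [Complex.ofReal_ne_zero]
    exact norm_ne_zero_iff.mpr hz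
  apply mul_left_cancel₀ hn
  rw [h1, mul_left_comm, h2, ← mul_assoc, ← ez_add, add_neg_cancel, ez_zero, one_mul]

theorem norm_rot {z : ℂ} (hz : z ≠ 0) (β t : ℝ) :
    ‖1 - ez (t - turn z)‖ = ‖1 - ez ((t - β) - turn (ez (-β) * z))‖ := by
  have h1 := ez_turn_rot hz β
  generalize turn (ez (-β) * z) = b at *
  generalize turn z = a at *
  have h2 : ez (t - a) = ez ((t - β) - b) := by
    have h3 : ez (t - a) * ez a = ez ((t - β) - b) * ez a := by
      conv_rhs => rw [h1]
      rw [← ez_add, ← ez_add, ← ez_add]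
      congr 1
      ring
    have h4 : ez a ≠ 0 := by
      rw [← norm_ne_zero_iff, D_norm_ez]
      exact one_ne_zero
    exact mul_right_cancel₀ h4 h3
  rw [h2]

theorem UL_rot (R : List ℂ) (hR : ∀ z ∈ R, z ≠ 0) (β t : ℝ) :
    UL (R.map turn) t = UL (R.map (fun z => turn (ez (-β) * z))) (t - β) := by
  unfold UL
  rw [List.map_map, List.map_map]
  congr 1
  refine List.map_congr_left fun z hz => ?_
  simp only [Function.comp]
  rw [norm_rot (hR z hz) β t]

theorem UL_periodic (A : List ℝ) (t : ℝ) : UL A (t + 1) = UL A t := by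
  unfold UL
  congr 1
  refine List.map_congr_left fun a _ => ?_
  have h : ez (t + 1 - a) = ez (t - a) := by
    have h1 : t + 1 - a = (t - a) + ((1 : ℤ) : ℝ) := by push_cast; ring
    rw [h1, ez_add, ez_int, mul_one]
  rw [h]

theorem cn_turn_rot (F : ℤ[X]) (β x : ℝ) :
    cn ((toC F).roots.toList.map (fun z => turn (ez (-β) * z))) x = aboveR F β x := by
  unfold aboveR
  have h1 : ∀ R : List ℂ, cn (R.map (fun z => turn (ez (-β) * z))) x =
      ((R.filter (fun z => decide (x < turn (ez (-β) * z)))).length : ℝ) := by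
    intro R
    induction R with
    | nil => simp [cn]
    | cons z R ih =>
      unfold cn at ih ⊢
      rw [List.map_cons, List.map_cons, List.sum_cons, ih, List.filter_cons]
      by_cases h : x < turn (ez (-β) * z)
      · simp [h]
        ring
      · simp [h]
  rw [h1]
  conv_rhs => rw [← Multiset.coe_toList (toC F).roots]
  rw [Multiset.filter_coe, Multiset.coe_card]

theorem roots_ne_zero (H : ℤ[X]) (hH : H.coeff 0 ≠ 0) : ∀ z ∈ (toC H).roots.toList, z ≠ 0 := by
  rintro z hz rfl
  rw [Multiset.mem_toList] at hz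
  have h1 := (mem_roots'.mp hz).2
  rw [IsRoot, ← coeff_zero_eq_eval_zero, toC, coeff_map] at h1
  apply hH
  simpa using h1

/-- **The height of a pair, rotated base point.** -/
theorem pair_height_rot (F G : ℤ[X]) (hF : F.coeff 0 ≠ 0) (hG : G.coeff 0 ≠ 0) (r : ℝ)
    (hr : 0 ≤ r) (hdeg : |(F.natDegree : ℝ) - G.natDegree| ≤ r) (β b : ℝ)
    (h : ∫ x in (0:ℝ)..1, ((aboveR F β x : ℝ) - aboveR G β x - b) ^ 2 ≤ r ^ 2) :
    mx1 F G ≤ 3 * max (Real.log (m1 F)) (Real.log (m1 G)) + 3 * r := by
  refine pair_height_core F G hF hG r hr ?_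
  have h1 := saw_count ((toC F).roots.toList.map (fun z => turn (ez (-β) * z)))
    ((toC G).roots.toList.map (fun z => turn (ez (-β) * z)))
    (fun a ha => by
      obtain ⟨z, _, rfl⟩ := List.mem_map.mp ha
      exact turn_mem _)
    (fun a ha => by
      obtain ⟨z, _, rfl⟩ := List.mem_map.mp ha
      exact turn_mem _) r hr
    (by
      have h3 := length_roots F
      have h4 := length_roots G
      rw [List.length_map] at h3 h4 ⊢
      rw [List.length_map, h3, h4]
      exact hdeg) b
    (by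
      simp only [cn_turn_rot]
      exact h)
  set A := (toC F).roots.toList.map (fun z => turn (ez (-β) * z)) with hA
  set B := (toC G).roots.toList.map (fun z => turn (ez (-β) * z)) with hB
  change (∫ t in (0:ℝ)..1, |UL A t - UL B t|) ≤ 5 * r at h1
  have h2 : ∀ t : ℝ, |UL ((toC F).roots.toList.map turn) t - UL ((toC G).roots.toList.map turn) t| =
      |UL A (t - β) - UL B (t - β)| := by
    intro t
    rw [UL_rot _ (roots_ne_zero F hF) β t, UL_rot _ (roots_ne_zero G hG) β t]
  simp only [h2]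
  rw [intervalIntegral.integral_comp_sub_right (fun t => |UL A t - UL B t|) β]
  have hper : Function.Periodic (fun t => |UL A t - UL B t|) 1 := by
    intro t
    simp only [UL_periodic]
  have h3 := hper.intervalIntegral_add_eq (0 - β) 0
  rw [zero_add] at h3
  rw [show (1:ℝ) - β = 0 - β + 1 by ring, h3]
  exact h1

end

end Pool.Agent.U72.NP
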