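import Mathlib
import Pool.Agent.U72.NP.Height
import Pool.Agent.R328.QA

/-!
# Lower bounds for the Mahler measure from the discrepancy of the arguments of the zeros
-/

set_option autoImplicit false

namespace Pool.Agent.U72.NP

open MeasureTheory Filter Topology Polynomial
open Pool.Agent.H261R2.CM

noncomputable section

/-! ### Counting functions of products -/

theorem above_mul {F G : ℤ[X]} (h : F * G ≠ 0) (x : ℝ) :
    above (F * G) x = above F x + above G x := by
  unfold above
  have h1 : toC (F * G) = toC F * toC G := by unfold toC; exact Polynomial.map_mul _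
  have h2 : toC F * toC G ≠ 0 := by rw [← h1]; exact D_toC_ne _ h
  rw [h1, roots_mul h2, Multiset.filter_add, Multiset.card_add]

theorem above_one (x : ℝ) : above 1 x = 0 := by
  unfold above toC
  simp

theorem above_pow {F : ℤ[X]} (h : F ≠ 0) (t : ℕ) (x : ℝ) :
    above (F ^ t) x = t * above F x := by
  induction t with
  | zero => simp [above_one]
  | succ t ih =>
    rw [pow_succ, above_mul (mul_ne_zero (pow_ne_zero _ h) h), ih]
    ring

theorem turn_one : turn 1 = 0 := by
  unfold turn
  simp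

theorem above_X_sub_one {x : ℝ} (hx : 0 ≤ x) : above (X - 1) x = 0 := by
  unfold above
  have h1 : toC (X - 1) = X - C 1 := by
    unfold toC
    simp
  rw [h1, roots_X_sub_C, Multiset.card_eq_zero, Multiset.filter_eq_nil]
  intro a ha
  rw [Multiset.mem_singleton] at ha
  rw [ha, turn_one]
  exact not_lt.mpr hx

theorem X_sub_one_ne : (X - 1 : ℤ[X]) ≠ 0 := by
  have := X_sub_C_ne_zero (1 : ℤ)
  simpa using this

theorem above_le (F : ℤ[X]) (x : ℝ) : above F x ≤ F.natDegree := by
  unfold above
  refine (Multiset.card_le_card (Multiset.filter_le _ _)).trans ?_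
  refine (card_roots' _).trans ?_
  unfold toC
  exact natDegree_map_le

theorem m1_X_sub_one : m1 (X - 1) = 1 := by
  have h1 : toC (X - 1) = X - C 1 := by
    unfold toC
    simp
  unfold m1
  rw [h1, mahlerMeasure_X_sub_C]
  simp

theorem m1_one : m1 1 = 1 := by
  unfold m1 toC
  simp

theorem m1_pow (F : ℤ[X]) (t : ℕ) : m1 (F ^ t) = m1 F ^ t := by
  induction t with
  | zero => simp [m1_one]
  | succ t ih => rw [pow_succ, I1_m1_mul, ih, pow_succ]

theorem m1_X : m1 X = 1 := by
  unfold m1 toC
  rw [Polynomial.map_X]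
  have := mahlerMeasure_X_sub_C (0 : ℂ)
  simpa using this

/-- a divisor has smaller measure -/
theorem m1_le_of_dvd {F G : ℤ[X]} (hG : G ≠ 0) (h : F ∣ G) : m1 F ≤ m1 G := by
  obtain ⟨H, rfl⟩ := h
  have hF : F ≠ 0 := left_ne_zero_of_mul hG
  have hH : H ≠ 0 := right_ne_zero_of_mul hG
  rw [I1_m1_mul]
  have h1 := I1_one_le_m1 hF
  have h2 := I1_one_le_m1 hH
  nlinarith

theorem coeff_zero_ne {f : ℤ[X]} (hf : Irreducible f) (hM : 1 < m1 f) : f.coeff 0 ≠ 0 := by
  intro h0
  have h1 : X ∣ f := X_dvd_iff.mpr h0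
  obtain ⟨g, hg⟩ := h1
  rcases hf.isUnit_or_isUnit hg with h2 | h2
  · exact Polynomial.not_isUnit_X h2
  · have h3 : f ∣ X := by
      rw [hg]
      exact (h2.mul_right_dvd).mpr dvd_rfl
    have h4 := m1_le_of_dvd X_ne_zero h3
    rw [m1_X] at h4
    linarith

theorem avg_PM_pow (f G : ℤ[X]) (t : ℕ) :
    Real.circleAverage (Pool.Agent.R328.PM f G t) 0 1 = mx1 (f ^ t) G := by
  rw [D_circleAverage]
  unfold mx1 Pool.Agent.R328.PM ev1
  have h : toC (f ^ t) = toC f ^ t := by unfold toC; exact Polynomial.map_pow _ _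
  simp only [Pool.Agent.R328.aeval_eq_toC, h, eval_pow, norm_pow]

theorem mx1_one_le (f : ℤ[X]) (hf0 : f.coeff 0 ≠ 0) (hM : 1 < m1 f) :
    mx1 f 1 ≤ 3 * Real.log (m1 f) + 3 * f.natDegree := by
  have hlf0 : 0 ≤ Real.log (m1 f) := Real.log_nonneg hM.le
  have h1 : ∀ x ∈ Set.Icc (0:ℝ) 1, ((above f x : ℝ) - above 1 x) ^ 2 ≤
      (f.natDegree : ℝ) ^ 2 := by
    intro x _
    rw [above_one]
    have h2 : (above f x : ℝ) ≤ f.natDegree := by exact_mod_cast above_le f x
    simp only [CharP.cast_eq_zero, sub_zero]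
    exact pow_le_pow_left₀ (Nat.cast_nonneg _) h2 2
  have h3 : ∫ x in (0:ℝ)..1, ((above f x : ℝ) - above 1 x - 0) ^ 2 ≤ (f.natDegree : ℝ) ^ 2 := by
    simp only [sub_zero]
    calc ∫ x in (0:ℝ)..1, ((above f x : ℝ) - above 1 x) ^ 2
        ≤ ∫ _ in (0:ℝ)..1, (f.natDegree : ℝ) ^ 2 := by
          refine intervalIntegral.integral_mono_on zero_le_one ?_ intervalIntegrable_const h1
          have := cnsq_int ((toC f).roots.toList.map turn) ((toC 1).roots.toList.map turn)
          simpa only [cn_turn] using this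
      _ = (f.natDegree : ℝ) ^ 2 := by simp
  have hph := pair_height f 1 hf0 (by simp) f.natDegree (by positivity) (by simp) 0 h3
  rwa [m1_one, Real.log_one, max_eq_left hlf0] at hph

set_option maxHeartbeats 4000000 in
/-- **The rate with a general companion.** -/
theorem rate : ∃ c : ℝ, 0 < c ∧ ∀ (f G : ℤ[X]) (t : ℕ) (r b : ℝ), 0 < t → 0 ≤ r → Irreducible f →
    1 < m1 f → G.coeff 0 ≠ 0 → ¬ f ∣ G → (G.natDegree : ℝ) ≤ t * (f.natDegree + r) →
    ∫ x in (0:ℝ)..1, ((t : ℝ) * above f x - above G x - b) ^ 2 ≤ (r * t) ^ 2 →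
    c / (1 + r + Real.log (m1 G) / t) ^ 3 ≤ Real.log (m1 f) := by
  obtain ⟨c1, hc1, hmain⟩ := Pool.Agent.R328.pair_main
  have hlog2 : 0 < Real.log 2 := Real.log_pos (by norm_num)
  have hlog2' := Real.log_two_lt_d9
  set c := min (c1 / 1728) (Real.log 2) with hc
  have hc0 : 0 < c := lt_min (by positivity) hlog2
  refine ⟨c, hc0, ?_⟩
  intro f G t r b ht hr hf hM hG hdvd hdeg hD
  have ht0 : (0:ℝ) < t := by exact_mod_cast ht
  have ht1 : (1:ℝ) ≤ t := by exact_mod_cast ht
  have hG0 : G ≠ 0 := by
    rintro rfl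
    exact hG (coeff_zero 0)
  have hLG : 0 ≤ Real.log (m1 G) := Real.log_nonneg (I1_one_le_m1 hG0)
  set L := Real.log (m1 G) / t with hL
  have hL0 : 0 ≤ L := by positivity
  have hW1 : 1 ≤ 1 + r + L := by linarith
  by_cases hbig : 2 ≤ m1 f
  · have h1 : c ≤ Real.log 2 := min_le_right _ _
    have h2 : Real.log 2 ≤ Real.log (m1 f) := Real.log_le_log (by norm_num) hbig
    have h3 : c / (1 + r + L) ^ 3 ≤ c := div_le_self hc0.le (one_le_pow₀ hW1)
    linarith
  push Not at hbig
  have hlf : Real.log (m1 f) ≤ Real.log 2 := Real.log_le_log (by linarith) hbig.le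
  have hlf0 : 0 ≤ Real.log (m1 f) := Real.log_nonneg hM.le
  have hf0 : f.coeff 0 ≠ 0 := coeff_zero_ne hf hM
  have hMM : 1 < Pool.Agent.H388SL.MM f := hM
  -- it is enough to bound the base
  suffices hs : ∃ W : ℝ, 0 < W ∧ W ≤ 12 * (1 + r + L) ∧ c1 / W ^ 3 ≤ Real.log (m1 f) by
    obtain ⟨W, hW0, hW, hWf⟩ := hs
    refine le_trans ?_ hWf
    calc c / (1 + r + L) ^ 3 ≤ (c1 / 1728) / (1 + r + L) ^ 3 :=
          div_le_div_of_nonneg_right (min_le_left _ _) (by positivity)
      _ = c1 / (12 * (1 + r + L)) ^ 3 := by rw [mul_pow, div_div]; norm_num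
      _ ≤ c1 / W ^ 3 := by
        apply div_le_div_of_nonneg_left hc1.le (by positivity)
        exact pow_le_pow_left₀ hW0.le hW 3
  by_cases hcase : r < f.natDegree ∨ f.natDegree = 0
  · -- the companion with the degree adjusted
    set k := t * f.natDegree - G.natDegree with hk
    set G' := G * (X - 1) ^ k with hG'
    have hX0 : ((X - 1 : ℤ[X]) ^ k) ≠ 0 := pow_ne_zero _ X_sub_one_ne
    have hG'0 : G' ≠ 0 := mul_ne_zero hG0 hX0
    have hdX : ((X - 1 : ℤ[X]) ^ k).natDegree = k := by
      have h1 : (X - 1 : ℤ[X]).natDegree = 1 := by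
        have := natDegree_X_sub_C (1 : ℤ)
        simpa using this
      rw [natDegree_pow, h1, mul_one]
    have hdG' : G'.natDegree = G.natDegree + k := by
      rw [hG', natDegree_mul hG0 hX0, hdX]
    have hG'c : G'.coeff 0 ≠ 0 := by
      rw [hG', mul_coeff_zero]
      refine mul_ne_zero hG ?_
      rw [coeff_zero_eq_eval_zero, eval_pow]
      simp
    have hmG' : m1 G' = m1 G := by
      rw [hG', I1_m1_mul, m1_pow, m1_X_sub_one, one_pow, mul_one]
    have hdvd' : ¬ f ∣ G' := by
      intro hd
      have hp : Prime f := hf.prime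
      rcases hp.dvd_or_dvd hd with h1 | h1
      · exact hdvd h1
      · have h2 := m1_le_of_dvd X_sub_one_ne (hp.dvd_of_dvd_pow h1)
        rw [m1_X_sub_one] at h2
        linarith
    have hab : ∀ x ∈ Set.uIcc (0:ℝ) 1, ((above (f ^ t) x : ℝ) - above G' x - b) ^ 2 =
        ((t : ℝ) * above f x - above G x - b) ^ 2 := by
      intro x hx
      rw [Set.uIcc_of_le zero_le_one] at hx
      rw [hG', above_mul hG'0, above_pow hf.ne_zero, above_pow X_sub_one_ne,
        above_X_sub_one hx.1]
      push_cast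
      ring
    have hnat : (f ^ t).natDegree = t * f.natDegree := natDegree_pow _ _
    have hdeg2 : (G'.natDegree : ℝ) ≤ t * (f.natDegree + r) := by
      rw [hdG']
      rcases le_total (t * f.natDegree) G.natDegree with h1 | h1
      · have h2 : k = 0 := Nat.sub_eq_zero_of_le h1
        rw [h2, add_zero]
        exact hdeg
      · have h2 : G.natDegree + k = t * f.natDegree := Nat.add_sub_cancel' h1
        rw [h2]
        push_cast
        have : 0 ≤ t * r := by positivity
        linarith
    have hdeg3 : (t : ℝ) * f.natDegree ≤ G'.natDegree := by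
      rw [hdG']
      have : t * f.natDegree ≤ G.natDegree + k := by omega
      exact_mod_cast this
    have hdiff : |((f ^ t).natDegree : ℝ) - G'.natDegree| ≤ r * t := by
      rw [hnat]
      push_cast
      rw [abs_le]
      constructor <;> nlinarith
    have hft0 : (f ^ t).coeff 0 ≠ 0 := by
      rw [coeff_zero_eq_eval_zero, eval_pow, ← coeff_zero_eq_eval_zero]
      exact pow_ne_zero _ hf0
    have hph := pair_height (f ^ t) G' hft0 hG'c (r * t) (by positivity) hdiff b
      (by rw [intervalIntegral.integral_congr hab]; exact hD)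
    rw [hmG', m1_pow, Real.log_pow] at hph
    have hm := hmain f G' t ht hf hdvd' hMM
    rw [avg_PM_pow] at hm
    have hnn := Pool.Agent.R328.PM_nonneg hf.ne_zero hMM.le G' t
    rw [avg_PM_pow] at hnn
    refine ⟨_, ?_, ?_, hm⟩
    · have h1 : 0 ≤ (G'.natDegree : ℝ) / (t * f.natDegree) := by positivity
      have h2 : 0 ≤ mx1 (f ^ t) G' / t := by positivity
      positivity
    · have h1 : 1 + (G'.natDegree : ℝ) / (t * f.natDegree) ≤ 3 := by
        rcases hcase with h2 | h2
        · have hn0 : (0:ℝ) < f.natDegree := lt_of_le_of_lt hr h2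
          have h3 : (G'.natDegree : ℝ) / (t * f.natDegree) ≤ 2 := by
            rw [div_le_iff₀ (by positivity)]
            nlinarith
          linarith
        · rw [h2]
          simp
      have h2 : mx1 (f ^ t) G' / t ≤ 3 * (Real.log 2 + L) + 3 * r := by
        rw [div_le_iff₀ ht0]
        have h3 : max ((t : ℝ) * Real.log (m1 f)) (Real.log (m1 G)) ≤ (Real.log 2 + L) * t := by
          have h4 : Real.log (m1 G) = L * t := by
            rw [hL]
            field_simp
          apply max_le
          · nlinarith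
          · rw [h4]
            nlinarith
        nlinarith
      have h3 : 0 ≤ mx1 (f ^ t) G' / t := by positivity
      calc (1 + (G'.natDegree : ℝ) / (t * f.natDegree)) * (1 + mx1 (f ^ t) G' / t)
          ≤ 3 * (4 * (1 + r + L)) := by
            apply mul_le_mul h1 _ (by linarith) (by norm_num)
            linarith
        _ = 12 * (1 + r + L) := by ring
  · -- small degree
    push Not at hcase
    obtain ⟨hrn, hn0⟩ := hcase
    have hone : ¬ f ∣ 1 := fun h => hf.not_isUnit (isUnit_of_dvd_one h)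
    have hph := mx1_one_le f hf0 hM
    have hm := hmain f 1 1 one_pos hf hone hMM
    rw [avg_PM_pow, pow_one] at hm
    have hnn := Pool.Agent.R328.PM_nonneg hf.ne_zero hMM.le 1 1
    rw [avg_PM_pow, pow_one] at hnn
    refine ⟨_, ?_, ?_, hm⟩
    · have h2 : 0 ≤ mx1 f 1 / ((1:ℕ) : ℝ) := by positivity
      positivity
    · simp only [natDegree_one, CharP.cast_eq_zero, zero_div, add_zero, one_mul, Nat.cast_one,
        div_one]
      linarith

end

end Pool.Agent.U72.NP
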