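import Mathlib
import Pool.Agent.U72.NP.Rates

/-!
# The discrepancy from the uniform distribution
-/

set_option autoImplicit false

namespace Pool.Agent.U72.NP

open MeasureTheory Filter Topology Polynomial
open Pool.Agent.H261R2.CM

noncomputable section

/-! ### Roots of unity -/

theorem ez_pow (n : ℕ) (x : ℝ) : ez x ^ n = ez (n * x) := by
  unfold ez
  rw [← Complex.exp_nat_mul]
  congr 1
  push_cast
  ring

theorem roots_unity {n : ℕ} (hn : 0 < n) :
    (toC (X ^ n - 1)).roots = (Multiset.range n).map (fun k : ℕ => ez ((k : ℝ) / n)) := by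
  have h1 : toC (X ^ n - 1) = X ^ n - C 1 := by
    unfold toC
    simp
  have h2 : IsPrimitiveRoot (ez (1 / n)) n := by
    have := Complex.isPrimitiveRoot_exp n hn.ne'
    unfold ez
    convert this using 2
    push_cast
    ring
  rw [h1]
  change nthRoots n 1 = _
  rw [h2.nthRoots_eq (one_pow n)]
  refine Multiset.map_congr rfl fun k _ => ?_
  rw [mul_one, ez_pow]
  congr 1
  ring

theorem X_pow_sub_one_ne {n : ℕ} (hn : 0 < n) : (X ^ n - 1 : ℤ[X]) ≠ 0 := by
  have := (monic_X_pow_sub_C (1 : ℤ) hn.ne').ne_zero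
  simpa using this

theorem natDegree_unity {n : ℕ} : (X ^ n - 1 : ℤ[X]).natDegree = n := by
  have := natDegree_X_pow_sub_C (n := n) (r := (1 : ℤ))
  simpa using this

theorem m1_unity {n : ℕ} (hn : 0 < n) : m1 (X ^ n - 1) = 1 := by
  unfold m1
  rw [mahlerMeasure_eq_leadingCoeff_mul_prod_roots, roots_unity hn, Multiset.map_map]
  have h1 : (toC (X ^ n - 1)).leadingCoeff = 1 := by
    have h2 : toC (X ^ n - 1) = X ^ n - C 1 := by
      unfold toC
      simp
    rw [h2]
    exact leadingCoeff_X_pow_sub_C hn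
  have h3 : (Multiset.range n).map ((fun a : ℂ => max 1 ‖a‖) ∘ fun k : ℕ => ez ((k : ℝ) / n)) =
      (Multiset.range n).map fun _ => (1 : ℝ) := by
    refine Multiset.map_congr rfl fun k _ => ?_
    simp only [Function.comp, D_norm_ez, max_self]
  rw [h1, h3]
  simp

theorem coeff_unity {n : ℕ} (hn : 0 < n) : (X ^ n - 1 : ℤ[X]).coeff 0 ≠ 0 := by
  rw [coeff_zero_eq_eval_zero]
  simp [hn.ne']

theorem above_unity {n : ℕ} (hn : 0 < n) {x : ℝ} (hx : x ∈ Set.Icc (0:ℝ) 1) :
    |(above (X ^ n - 1) x : ℝ) - n * (1 - x)| ≤ 1 := by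
  have hn0 : (0:ℝ) < n := by exact_mod_cast hn
  have h1 : above (X ^ n - 1) x = ((Finset.range n).filter (fun k : ℕ => x < (k : ℝ) / n)).card := by
    unfold above
    rw [roots_unity hn, Multiset.filter_map, Multiset.card_map]
    change _ = (Multiset.filter (fun k : ℕ => x < (k : ℝ) / n) (Multiset.range n)).card
    congr 1
    refine Multiset.filter_congr fun k hk => ?_
    have hk' : k < n := by simpa using hk
    simp only [Function.comp]
    rw [turn_ez ⟨by positivity, by rw [div_lt_one hn0]; exact_mod_cast hk'⟩]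
  have hnx : 0 ≤ (n : ℝ) * x := mul_nonneg hn0.le hx.1
  set m := ⌊(n : ℝ) * x⌋₊ with hm
  have hm1 : (m : ℝ) ≤ n * x := Nat.floor_le hnx
  have hm2 : (n : ℝ) * x < m + 1 := Nat.lt_floor_add_one _
  have h2 : (Finset.range n).filter (fun k : ℕ => x < (k : ℝ) / n) = Finset.Ico (m + 1) n := by
    ext k
    simp only [Finset.mem_filter, Finset.mem_range, Finset.mem_Ico]
    rw [lt_div_iff₀ hn0, mul_comm x, ← Nat.floor_lt hnx]
    constructor
    · rintro ⟨a, b⟩
      exact ⟨b, a⟩
    · rintro ⟨a, b⟩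
      exact ⟨b, a⟩
  rw [h1, h2, Nat.card_Ico, abs_le]
  rcases Nat.lt_or_ge m n with h | h
  · have h3 : ((n - (m + 1) : ℕ) : ℝ) = n - (m + 1) := by
      rw [Nat.cast_sub (by omega)]
      push_cast
      ring
    rw [h3]
    constructor <;> nlinarith
  · have h3 : n - (m + 1) = 0 := by omega
    rw [h3]
    have h4 : (n : ℝ) ≤ m := by exact_mod_cast h
    have h5 : (n : ℝ) * x ≤ n := by nlinarith [hx.2]
    constructor
    · push_cast
      nlinarith
    · push_cast
      nlinarith

/-- the mean square discrepancy of the arguments of the zeros -/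
def disc2 (F : ℤ[X]) (b : ℝ) : ℝ :=
  ∫ x in (0:ℝ)..1, ((above F x : ℝ) - F.natDegree * (1 - x) - b) ^ 2

theorem above_int (F : ℤ[X]) : IntervalIntegrable (fun x => (above F x : ℝ)) volume 0 1 := by
  have h := cn_int ((toC F).roots.toList.map turn)
  have e : cn ((toC F).roots.toList.map turn) = fun x => (above F x : ℝ) := funext (cn_turn F)
  rwa [e] at h

theorem above_sq_int (F G : ℤ[X]) :
    IntervalIntegrable (fun x => ((above F x : ℝ) - above G x) ^ 2) volume 0 1 := by
  have := cnsq_int ((toC F).roots.toList.map turn) ((toC G).roots.toList.map turn)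
  simpa only [cn_turn] using this

theorem above_one_sq_int (F : ℤ[X]) : IntervalIntegrable (fun x => (above F x : ℝ) ^ 2) volume 0 1 := by
  have h := above_sq_int F 1
  have e : (fun x => ((above F x : ℝ) - above 1 x) ^ 2) = fun x => (above F x : ℝ) ^ 2 := by
    ext x
    rw [above_one]
    simp
  rwa [e] at h

theorem disc_int (F : ℤ[X]) (b : ℝ) :
    IntervalIntegrable (fun x => ((above F x : ℝ) - F.natDegree * (1 - x) - b) ^ 2) volume 0 1 := by
  have h1 : IntervalIntegrable (fun x => (above F x : ℝ) ^ 2 -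
      2 * (F.natDegree * (1 - x) + b) * (above F x : ℝ) + (F.natDegree * (1 - x) + b) ^ 2)
      volume 0 1 := by
    refine ((above_one_sq_int F).sub ?_).add ?_
    · exact (above_int F).continuousOn_mul
        (by fun_prop : Continuous fun x : ℝ => 2 * ((F.natDegree : ℝ) * (1 - x) + b)).continuousOn
    · exact (by fun_prop : Continuous fun x : ℝ =>
        ((F.natDegree : ℝ) * (1 - x) + b) ^ 2).intervalIntegrable _ _
  refine h1.congr_ae (Eventually.of_forall fun x => ?_)
  simp only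
  ring

theorem disc2_nonneg (F : ℤ[X]) (b : ℝ) : 0 ≤ disc2 F b :=
  intervalIntegral.integral_nonneg zero_le_one fun _ _ => sq_nonneg _

theorem disc_unity (F : ℤ[X]) (hn : 0 < F.natDegree) (b : ℝ) :
    ∫ x in (0:ℝ)..1, ((above F x : ℝ) - above (X ^ F.natDegree - 1) x - b) ^ 2 ≤
      (2 * (1 + Real.sqrt (disc2 F b))) ^ 2 := by
  have hi : IntervalIntegrable (fun x => ((above F x : ℝ) - above (X ^ F.natDegree - 1) x - b) ^ 2)
      volume 0 1 := by
    have h1 : IntervalIntegrable (fun x => ((above F x : ℝ) - above (X ^ F.natDegree - 1) x) ^ 2 -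
        2 * b * ((above F x : ℝ) - above (X ^ F.natDegree - 1) x) + b ^ 2) volume 0 1 :=
      ((above_sq_int _ _).sub (((above_int _).sub (above_int _)).const_mul _)).add
        intervalIntegrable_const
    refine h1.congr_ae (Eventually.of_forall fun x => ?_)
    simp only
    ring
  have h1 : ∫ x in (0:ℝ)..1, ((above F x : ℝ) - above (X ^ F.natDegree - 1) x - b) ^ 2 ≤
      ∫ x in (0:ℝ)..1, (2 * ((above F x : ℝ) - F.natDegree * (1 - x) - b) ^ 2 + 2) := by
    refine intervalIntegral.integral_mono_on zero_le_one hi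
      (((disc_int F b).const_mul 2).add intervalIntegrable_const) fun x hx => ?_
    have h2 := above_unity hn hx
    set a := (above F x : ℝ) - F.natDegree * (1 - x) - b with ha
    set d := (above (X ^ F.natDegree - 1) x : ℝ) - F.natDegree * (1 - x) with hd
    have e : (above F x : ℝ) - above (X ^ F.natDegree - 1) x - b = a - d := by
      rw [ha, hd]
      ring
    rw [e]
    have h3 : d ^ 2 ≤ 1 := by
      rw [← sq_abs]
      nlinarith [abs_nonneg d]
    nlinarith [sq_nonneg (a + d)]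
  refine h1.trans ?_
  rw [intervalIntegral.integral_add ((disc_int F b).const_mul 2) intervalIntegrable_const,
    intervalIntegral.integral_const_mul]
  simp only [intervalIntegral.integral_const, sub_zero, one_smul]
  change 2 * disc2 F b + 2 ≤ _
  have h4 := Real.sq_sqrt (disc2_nonneg F b)
  have h5 := Real.sqrt_nonneg (disc2 F b)
  nlinarith

/-- **The rate for the discrepancy from the uniform distribution.** -/
theorem uniform_rate : ∃ c : ℝ, 0 < c ∧ ∀ (f : ℤ[X]) (b : ℝ), Irreducible f → 1 < m1 f →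
    c / (1 + Real.sqrt (disc2 f b)) ^ 3 ≤ Real.log (m1 f) := by
  obtain ⟨c, hc, h⟩ := rate
  refine ⟨c / 27, by positivity, fun f b hf hM => ?_⟩
  have hs := Real.sqrt_nonneg (disc2 f b)
  have key : ∃ W : ℝ, 0 < W ∧ W ≤ 3 * (1 + Real.sqrt (disc2 f b)) ∧ c / W ^ 3 ≤ Real.log (m1 f) := by
    rcases Nat.eq_zero_or_pos f.natDegree with h0 | h0
    · have h1 : ∀ x, above f x = 0 := fun x => Nat.le_zero.mp (h0 ▸ above_le f x)
      have h2 := h f 1 1 0 0 one_pos le_rfl hf hM (by simp)
        (fun hd => hf.not_isUnit (isUnit_of_dvd_one hd)) (by simp) (by simp [h1, above_one])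
      rw [m1_one] at h2
      refine ⟨1, one_pos, by linarith, ?_⟩
      simpa using h2
    · have hG := coeff_unity h0
      have h2 := h f (X ^ f.natDegree - 1) 1 (2 * (1 + Real.sqrt (disc2 f b))) b one_pos (by positivity)
        hf hM hG ?_ ?_ ?_
      · rw [m1_unity h0] at h2
        refine ⟨1 + 2 * (1 + Real.sqrt (disc2 f b)), by positivity, by linarith, ?_⟩
        simpa using h2
      · intro hd
        have h3 := m1_le_of_dvd (X_pow_sub_one_ne h0) hd
        rw [m1_unity h0] at h3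
        linarith
      · rw [natDegree_unity]
        push_cast
        linarith
      · have h3 := disc_unity f h0 b
        simpa using h3
  obtain ⟨W, hW0, hW, hWf⟩ := key
  refine le_trans ?_ hWf
  calc c / 27 / (1 + Real.sqrt (disc2 f b)) ^ 3 = c / (3 * (1 + Real.sqrt (disc2 f b))) ^ 3 := by
        rw [mul_pow, div_div]; norm_num
    _ ≤ c / W ^ 3 := by
      apply div_le_div_of_nonneg_left hc.le (by positivity)
      exact pow_le_pow_left₀ hW0.le hW 3

/-! ### The gap for all polynomials -/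

theorem pair_height' (F G : ℤ[X]) (hF : F.coeff 0 ≠ 0) (hG : G.coeff 0 ≠ 0) (r : ℝ) (hr : 0 ≤ r)
    (hdeg : |(F.natDegree : ℝ) - G.natDegree| ≤ r) (b : ℝ)
    (h : ∫ x in (0:ℝ)..1, ((above F x : ℝ) - above G x - b) ^ 2 ≤ r ^ 2) (B : ℝ)
    (hFB : Real.log (m1 F) ≤ B) (hGB : Real.log (m1 G) ≤ B) :
    mx1 F G ≤ 3 * B + 3 * r := by
  have h1 := pair_height F G hF hG r hr hdeg b h
  have h2 := max_le hFB hGB
  linarith

/-- reduction to coprime pairs -/
theorem reduce (F G : ℤ[X]) (hF : F ≠ 0) (hG : G ≠ 0) : ∃ F' G' D : ℤ[X], F' ≠ 0 ∧ G' ≠ 0 ∧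
    D ≠ 0 ∧ IsRelPrime F' G' ∧ F = D * F' ∧ G = D * G' ∧ mx1 F' G' ≤ mx1 F G := by
  obtain ⟨F', G', D, hrel, hDF, hDG⟩ :=
    UniqueFactorizationMonoid.exists_reduced_factors F hF G
  have hD : D ≠ 0 := by
    rintro rfl
    exact hF (by rw [← hDF, zero_mul])
  have hF' : F' ≠ 0 := by
    rintro rfl
    exact hF (by rw [← hDF, mul_zero])
  have hG' : G' ≠ 0 := by
    rintro rfl
    exact hG (by rw [← hDG, mul_zero])
  refine ⟨F', G', D, hF', hG', hD, hrel, hDF.symm, hDG.symm, ?_⟩
  have h1 := mx1_mul D F' G' hD hF'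
  rw [hDF, hDG] at h1
  have h2 : 0 ≤ Real.log (m1 D) := Real.log_nonneg (I1_one_le_m1 hD)
  linarith

/-- **The gap for all polynomials with a companion.** -/
theorem gap (r L : ℝ) (hr : 0 ≤ r) : ∃ μ : ℝ, 1 < μ ∧ ∀ (F G : ℤ[X]) (b : ℝ), F.coeff 0 ≠ 0 →
    G.coeff 0 ≠ 0 → |(F.natDegree : ℝ) - G.natDegree| ≤ r →
    ∫ x in (0:ℝ)..1, ((above F x : ℝ) - above G x - b) ^ 2 ≤ r ^ 2 → m1 G ≤ L →
    μ ≤ m1 F ∨ ∃ D : ℤ[X], D ∣ F ∧ D ∣ G ∧ m1 D = m1 F := by
  set B := Real.log (max 2 L) with hB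
  obtain ⟨c, hc, hgap⟩ := gap_one (3 * B + 3 * r)
  refine ⟨min c 2, lt_min hc (by norm_num), fun F G b hF hG hdeg hD hL => ?_⟩
  have hF0 : F ≠ 0 := by
    rintro rfl
    exact hF (coeff_zero 0)
  have hG0 : G ≠ 0 := by
    rintro rfl
    exact hG (coeff_zero 0)
  rcases le_or_gt 2 (m1 F) with h2 | h2
  · left
    exact (min_le_right _ _).trans h2
  have h1F := I1_one_le_m1 hF0
  have h1G := I1_one_le_m1 hG0
  have hFB : Real.log (m1 F) ≤ B := Real.log_le_log (by linarith) (h2.le.trans (le_max_left _ _))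
  have hGB : Real.log (m1 G) ≤ B := Real.log_le_log (by linarith) (hL.trans (le_max_right _ _))
  have hph := pair_height' F G hF hG r hr hdeg b hD B hFB hGB
  obtain ⟨F', G', D, hF', hG', hD0, hrel, hDF, hDG, hle⟩ := reduce F G hF0 hG0
  have hmF : m1 F = m1 D * m1 F' := by rw [hDF, I1_m1_mul]
  rcases hgap F' G' hF' hG' hrel (hle.trans hph) with h3 | h3
  · right
    refine ⟨D, ⟨F', hDF⟩, ⟨G', hDG⟩, ?_⟩
    rw [hmF, h3, mul_one]
  · left
    have h4 := I1_one_le_m1 hD0
    refine (min_le_left _ _).trans ?_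
    rw [hmF]
    nlinarith

/-- **The gap for the discrepancy from the uniform distribution.** -/
theorem uniform_gap (r : ℝ) : ∃ μ : ℝ, 1 < μ ∧ ∀ (F : ℤ[X]) (b : ℝ), F.coeff 0 ≠ 0 →
    Real.sqrt (disc2 F b) ≤ r → m1 F = 1 ∨ μ ≤ m1 F := by
  rcases lt_or_ge r 0 with hr | hr
  · exact ⟨2, by norm_num, fun F b _ h => absurd ((Real.sqrt_nonneg _).trans h) (not_le.mpr hr)⟩
  obtain ⟨μ, hμ, h⟩ := gap (2 * (1 + r)) 1 (by positivity)
  refine ⟨min μ 2, lt_min hμ (by norm_num), fun F b hF hd => ?_⟩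
  have hF0 : F ≠ 0 := by
    rintro rfl
    exact hF (coeff_zero 0)
  rcases Nat.eq_zero_or_pos F.natDegree with h0 | h0
  · have h1 : ∀ x, above F x = 0 := fun x => Nat.le_zero.mp (h0 ▸ above_le F x)
    rcases h F 1 0 hF (by simp) (by rw [h0]; simp; positivity) (by simp [h1, above_one]; positivity)
      (by rw [m1_one]) with h2 | ⟨D, _, h2, h3⟩
    · right
      exact (min_le_left _ _).trans h2
    · left
      have h4 := m1_le_of_dvd one_ne_zero h2
      have h5 := I1_one_le_m1 hF0
      rw [m1_one] at h4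
      linarith
  · have hx : ∫ x in (0:ℝ)..1, ((above F x : ℝ) - above (X ^ F.natDegree - 1) x - b) ^ 2 ≤
        (2 * (1 + r)) ^ 2 := by
      refine (disc_unity F h0 b).trans ?_
      have := Real.sqrt_nonneg (disc2 F b)
      refine pow_le_pow_left₀ (by positivity) ?_ 2
      linarith
    rcases h F (X ^ F.natDegree - 1) b hF (coeff_unity h0) (by
      rw [natDegree_unity, sub_self, abs_zero]; positivity) hx (by rw [m1_unity h0]) with
      h2 | ⟨D, _, h2, h3⟩
    · right
      exact (min_le_left _ _).trans h2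
    · left
      have h4 := m1_le_of_dvd (X_pow_sub_one_ne h0) h2
      have h5 := I1_one_le_m1 hF0
      rw [m1_unity h0] at h4
      linarith

end

end Pool.Agent.U72.NP
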