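import Mathlib
import Pool.Agent.U72.NP.Uniform

/-!
# The mean of `log⁺ |P|` and the angular discrepancy, for complex polynomials
-/

set_option autoImplicit false

namespace Pool.Agent.U72.NP

open MeasureTheory Filter Topology Polynomial
open Pool.Agent.H261R2.CM

noncomputable section

/-- the number of zeros of a complex polynomial whose argument (in turns) is larger than `x` -/
def aboveC (P : ℂ[X]) (x : ℝ) : ℕ := (P.roots.filter (fun z => x < turn z)).card

theorem cn_turnC (P : ℂ[X]) (x : ℝ) : cn (P.roots.toList.map turn) x = aboveC P x := by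
  unfold aboveC
  have h1 : ∀ R : List ℂ, cn (R.map turn) x =
      ((R.filter (fun z => decide (x < turn z))).length : ℝ) := by
    intro R
    induction R with
    | nil => simp [cn]
    | cons z R ih =>
      unfold cn at ih ⊢
      rw [List.map_cons, List.map_cons, List.sum_cons, ih, List.filter_cons]
      by_cases h : x < turn z
      · simp [h]
        ring
      · simp [h]
  rw [h1]
  conv_rhs => rw [← Multiset.coe_toList P.roots]
  rw [Multiset.filter_coe, Multiset.coe_card]

/-- the mean square discrepancy of the arguments of the zeros -/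
def discC (P : ℂ[X]) (b : ℝ) : ℝ :=
  ∫ x in (0:ℝ)..1, ((aboveC P x : ℝ) - P.natDegree * (1 - x) - b) ^ 2

theorem discC_nonneg (P : ℂ[X]) (b : ℝ) : 0 ≤ discC P b :=
  intervalIntegral.integral_nonneg zero_le_one fun _ _ => sq_nonneg _

theorem aboveC_int (P : ℂ[X]) : IntervalIntegrable (fun x => (aboveC P x : ℝ)) volume 0 1 := by
  have h := cn_int (P.roots.toList.map turn)
  have e : cn (P.roots.toList.map turn) = fun x => (aboveC P x : ℝ) := funext (cn_turnC P)
  rwa [e] at h

theorem aboveC_sq_int (P : ℂ[X]) (G : ℤ[X]) :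
    IntervalIntegrable (fun x => ((aboveC P x : ℝ) - above G x) ^ 2) volume 0 1 := by
  have := cnsq_int (P.roots.toList.map turn) ((toC G).roots.toList.map turn)
  have e : (fun x => (cn (P.roots.toList.map turn) x - cn ((toC G).roots.toList.map turn) x) ^ 2) =
      fun x => ((aboveC P x : ℝ) - above G x) ^ 2 := by
    ext x
    rw [cn_turnC, cn_turn]
  rwa [e] at this

theorem aboveC_one_sq_int (P : ℂ[X]) :
    IntervalIntegrable (fun x => (aboveC P x : ℝ) ^ 2) volume 0 1 := by
  have h := aboveC_sq_int P 1
  have e : (fun x => ((aboveC P x : ℝ) - above 1 x) ^ 2) = fun x => (aboveC P x : ℝ) ^ 2 := by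
    ext x
    rw [above_one]
    simp
  rwa [e] at h

theorem discC_int (P : ℂ[X]) (b : ℝ) :
    IntervalIntegrable (fun x => ((aboveC P x : ℝ) - P.natDegree * (1 - x) - b) ^ 2) volume 0 1 := by
  have h1 : IntervalIntegrable (fun x => (aboveC P x : ℝ) ^ 2 -
      2 * (P.natDegree * (1 - x) + b) * (aboveC P x : ℝ) + (P.natDegree * (1 - x) + b) ^ 2)
      volume 0 1 := by
    refine ((aboveC_one_sq_int P).sub ?_).add ?_
    · exact (aboveC_int P).continuousOn_mul
        (by fun_prop : Continuous fun x : ℝ => 2 * ((P.natDegree : ℝ) * (1 - x) + b)).continuousOn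
    · exact (by fun_prop : Continuous fun x : ℝ =>
        ((P.natDegree : ℝ) * (1 - x) + b) ^ 2).intervalIntegrable _ _
  refine h1.congr_ae (Eventually.of_forall fun x => ?_)
  simp only
  ring

theorem discC_unity (P : ℂ[X]) (hn : 0 < P.natDegree) (b : ℝ) :
    ∫ x in (0:ℝ)..1, ((aboveC P x : ℝ) - above (X ^ P.natDegree - 1) x - b) ^ 2 ≤
      (2 * (1 + Real.sqrt (discC P b))) ^ 2 := by
  have hi : IntervalIntegrable (fun x => ((aboveC P x : ℝ) - above (X ^ P.natDegree - 1) x - b) ^ 2)
      volume 0 1 := by
    have h1 : IntervalIntegrable (fun x => ((aboveC P x : ℝ) - above (X ^ P.natDegree - 1) x) ^ 2 -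
        2 * b * ((aboveC P x : ℝ) - above (X ^ P.natDegree - 1) x) + b ^ 2) volume 0 1 :=
      ((aboveC_sq_int _ _).sub (((aboveC_int _).sub (above_int _)).const_mul _)).add
        intervalIntegrable_const
    refine h1.congr_ae (Eventually.of_forall fun x => ?_)
    simp only
    ring
  have h1 : ∫ x in (0:ℝ)..1, ((aboveC P x : ℝ) - above (X ^ P.natDegree - 1) x - b) ^ 2 ≤
      ∫ x in (0:ℝ)..1, (2 * ((aboveC P x : ℝ) - P.natDegree * (1 - x) - b) ^ 2 + 2) := by
    refine intervalIntegral.integral_mono_on zero_le_one hi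
      (((discC_int P b).const_mul 2).add intervalIntegrable_const) fun x hx => ?_
    have h2 := above_unity hn hx
    set a := (aboveC P x : ℝ) - P.natDegree * (1 - x) - b with ha
    set d := (above (X ^ P.natDegree - 1) x : ℝ) - P.natDegree * (1 - x) with hd
    have e : (aboveC P x : ℝ) - above (X ^ P.natDegree - 1) x - b = a - d := by
      rw [ha, hd]
      ring
    rw [e]
    have h3 : d ^ 2 ≤ 1 := by
      rw [← sq_abs]
      nlinarith [abs_nonneg d]
    nlinarith [sq_nonneg (a + d)]
  refine h1.trans ?_
  rw [intervalIntegral.integral_add ((discC_int P b).const_mul 2) intervalIntegrable_const,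
    intervalIntegral.integral_const_mul]
  simp only [intervalIntegral.integral_const, sub_zero, one_smul]
  change 2 * discC P b + 2 ≤ _
  have h4 := Real.sq_sqrt (discC_nonneg P b)
  have h5 := Real.sqrt_nonneg (discC P b)
  nlinarith

/-- the cost of the radial projection for monic complex polynomials -/
theorem sum_costC {P : ℂ[X]} (hP : P.Monic) (h0 : P.eval 0 ≠ 0) :
    (P.roots.toList.map fun z => 2 * Real.posLog ‖z‖ - Real.log ‖z‖).sum =
      2 * P.logMahlerMeasure - Real.log ‖P.eval 0‖ := by
  have h1 := log_eval h0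
  have h2 := log_mahler P
  have hl : P.leadingCoeff = 1 := hP
  rw [hl, norm_one, Real.log_one, zero_add] at h1 h2
  rw [h1, h2]
  generalize P.roots.toList = R
  induction R with
  | nil => simp
  | cons z R ih =>
    simp only [List.map_cons, List.sum_cons]
    rw [ih, zero_sub, norm_neg]
    ring

/-- the logarithm of `|x ^ n - 1|` in the mean -/
theorem UL_unity {n : ℕ} (hn : 0 < n) :
    ∫ t in (0:ℝ)..1, |UL ((toC (X ^ n - 1)).roots.toList.map turn) t| ≤ 2 * Real.log 2 := by
  set R := (toC (X ^ n - 1 : ℤ[X])).roots.toList with hR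
  have hnorm : ∀ z ∈ R, ‖z‖ = 1 := by
    intro z hz
    rw [hR, Multiset.mem_toList, roots_unity hn, Multiset.mem_map] at hz
    obtain ⟨k, _, rfl⟩ := hz
    exact D_norm_ez _
  have hUL : ∀ t, UL (R.map turn) t = UR R t := by
    intro t
    unfold UL UR
    rw [List.map_map]
    congr 1
    refine List.map_congr_left fun z hz => ?_
    have h1 : qq z = 1 := by
      unfold qq
      rw [hnorm z hz]
      simp
    simp only [Function.comp, h1, Complex.ofReal_one, one_mul]
  have h0 : (toC (X ^ n - 1 : ℤ[X])).eval 0 ≠ 0 := by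
    unfold toC
    simp [hn.ne']
  have hL : (toC (X ^ n - 1 : ℤ[X])).logMahlerMeasure = 0 := by
    rw [logMahlerMeasure_eq_log_MahlerMeasure]
    change Real.log (m1 (X ^ n - 1)) = 0
    rw [m1_unity hn, Real.log_one]
  have hpt : ∀ᵐ t : ℝ, |UL (R.map turn) t| ≤ 2 * Real.log 2 - UR R t := by
    filter_upwards [D_ae_ne (X ^ n - 1) (X_pow_sub_one_ne hn)] with t ht
    have h1 := log_eval_UR h0 (t := t) ht
    rw [hL, zero_add] at h1
    have h2 : ‖(toC (X ^ n - 1 : ℤ[X])).eval (ez t)‖ ≤ 2 := by
      have e : (toC (X ^ n - 1 : ℤ[X])).eval (ez t) = ez t ^ n - 1 := by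
        unfold toC
        simp
      rw [e]
      refine (norm_sub_le _ _).trans ?_
      rw [norm_pow, D_norm_ez, one_pow, norm_one]
      norm_num
    have h3 : UR R t ≤ Real.log 2 := by
      rw [← h1]
      exact Real.log_le_log (norm_pos_iff.mpr ht) h2
    rw [hUL, abs_le]
    have hlog2 := Real.log_pos (by norm_num : (1:ℝ) < 2)
    constructor <;> linarith
  have hi := (UL_int (R.map turn)).abs
  have h1 := intervalIntegral.integral_mono_ae zero_le_one hi
    (intervalIntegrable_const.sub (UR_int R)) hpt
  rw [intervalIntegral.integral_sub intervalIntegrable_const (UR_int R), UR_integral] at h1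
  simpa using h1

theorem ae_eval_ne {P : ℂ[X]} (hP : P ≠ 0) : ∀ᵐ t : ℝ, P.eval (ez t) ≠ 0 := by
  have h : ∀ᵐ t : ℝ, ∀ z ∈ P.roots.toFinset, ‖z‖ = 1 → ez t ≠ z := by
    rw [Finset.eventually_all]
    intro z _
    by_cases hz : ‖z‖ = 1
    · have h1 := ae_ne_one (fun _ : Fin 1 => z⁻¹) (fun _ => by rw [norm_inv, hz, inv_one])
      filter_upwards [h1] with t ht _ h2
      apply ht 0
      rw [h2]
      exact inv_mul_cancel₀ (by rintro rfl; simp at hz)
    · exact Eventually.of_forall fun t h1 => absurd h1 hz
  filter_upwards [h] with t ht h0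
  exact ht (ez t) (by rw [Multiset.mem_toFinset, mem_roots hP]; exact h0) (D_norm_ez t) rfl

/-- **The mean of `log⁺ |P|`.** -/
theorem mpc_le {P : ℂ[X]} (hP : P.Monic) (h0 : P.eval 0 ≠ 0) (b : ℝ) :
    Real.circleAverage (fun x : ℂ => Real.posLog ‖P.eval x‖) 0 1 ≤
      2 * P.logMahlerMeasure - (1 / 2) * Real.log ‖P.eval 0‖ + 5 * (1 + Real.sqrt (discC P b)) +
        Real.log 2 := by
  have hlog2 := Real.log_pos (by norm_num : (1:ℝ) < 2)
  rcases Nat.eq_zero_or_pos P.natDegree with hn | hn
  · have hP1 : P = 1 := hP.natDegree_eq_zero.mp hn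
    rw [hP1]
    have h5 := Real.sqrt_nonneg (discC 1 b)
    simp only [eval_one, norm_one, Real.posLog_one, Real.log_one, logMahlerMeasure_one]
    rw [Real.circleAverage_const]
    linarith
  set R := P.roots.toList with hR
  set S := (toC (X ^ P.natDegree - 1 : ℤ[X])).roots.toList with hS
  set L := P.logMahlerMeasure with hL
  have hL0 : 0 ≤ L := by
    have h2 := log_mahler P
    have hl : P.leadingCoeff = 1 := hP
    rw [hl, norm_one, Real.log_one, zero_add] at h2
    rw [hL, h2]
    exact List.sum_nonneg fun x hx => by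
      obtain ⟨z, _, rfl⟩ := List.mem_map.mp hx
      exact Real.posLog_nonneg
  have hiR := UR_int R
  have hiA := UL_int (R.map turn)
  have hiB := UL_int (S.map turn)
  have hi1 := (hiR.sub hiA).abs
  have hi2 := (hiA.sub hiB).abs
  have hi3 := hiB.abs
  have hpt : ∀ᵐ t : ℝ, Real.posLog ‖P.eval (ez t)‖ ≤
      L + (1 / 2) * (UR R t + (|UR R t - UL (R.map turn) t| +
        |UL (R.map turn) t - UL (S.map turn) t| + |UL (S.map turn) t|)) := by
    filter_upwards [ae_eval_ne hP.ne_zero] with t h1
    have h3 := log_eval_UR h0 (t := t) h1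
    have h5 : |UR R t| ≤ |UR R t - UL (R.map turn) t| +
        |UL (R.map turn) t - UL (S.map turn) t| + |UL (S.map turn) t| := by
      have e : UR R t = (UR R t - UL (R.map turn) t) +
        (UL (R.map turn) t - UL (S.map turn) t) + UL (S.map turn) t := by ring
      conv_lhs => rw [e]
      exact (abs_add_le _ _).trans (add_le_add (abs_add_le _ _) le_rfl)
    have h9 := le_abs_self (UR R t)
    have h10 := neg_abs_le (UR R t)
    unfold Real.posLog
    rw [h3]
    apply max_le
    · linarith
    · change L + UR R t ≤ _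
      linarith
  have hiall : IntervalIntegrable (fun t => L + (1 / 2) * (UR R t + (|UR R t - UL (R.map turn) t| +
        |UL (R.map turn) t - UL (S.map turn) t| + |UL (S.map turn) t|))) volume 0 1 :=
    intervalIntegrable_const.add ((hiR.add ((hi1.add hi2).add hi3)).const_mul _)
  have hilog : IntervalIntegrable (fun t => Real.posLog ‖P.eval (ez t)‖) volume 0 1 := by
    have h6 := lm_int P
    have h7 : IntervalIntegrable (fun t => (1 / 2) * (|Real.log ‖P.eval (ez t)‖| +
        Real.log ‖P.eval (ez t)‖)) volume 0 1 := (h6.abs.add h6).const_mul _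
    refine h7.congr_ae (Eventually.of_forall fun t => ?_)
    simp only [Real.posLog]
    rcases le_total 0 (Real.log ‖P.eval (ez t)‖) with h8 | h8
    · rw [abs_of_nonneg h8, max_eq_right h8]
      ring
    · rw [abs_of_nonpos h8, max_eq_left h8]
      ring
  rw [D_circleAverage]
  have h1 := intervalIntegral.integral_mono_ae zero_le_one hilog hiall hpt
  rw [intervalIntegral.integral_add intervalIntegrable_const
      ((hiR.add ((hi1.add hi2).add hi3)).const_mul _),
    intervalIntegral.integral_const_mul,
    intervalIntegral.integral_add hiR ((hi1.add hi2).add hi3),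
    intervalIntegral.integral_add (hi1.add hi2) hi3,
    intervalIntegral.integral_add hi1 hi2, UR_integral] at h1
  have c1 := (UR_UL R (by
    rintro z hz rfl
    rw [hR, Multiset.mem_toList] at hz
    exact h0 (mem_roots'.mp hz).2)).trans (sum_costC hP h0).le
  have hr : 0 ≤ 2 * (1 + Real.sqrt (discC P b)) := by positivity
  have hlenR : ((R.map turn).length : ℝ) = P.natDegree := by
    rw [List.length_map, hR, Multiset.length_toList]
    have h := (IsAlgClosed.splits P).natDegree_eq_card_roots
    rw [← h]
  have c2 := saw_count (R.map turn) (S.map turn)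
    (fun a ha => by
      obtain ⟨z, _, rfl⟩ := List.mem_map.mp ha
      exact turn_mem z)
    (fun a ha => by
      obtain ⟨z, _, rfl⟩ := List.mem_map.mp ha
      exact turn_mem z) (2 * (1 + Real.sqrt (discC P b))) hr
    (by
      rw [hlenR, hS, length_roots, natDegree_unity, sub_self, abs_zero]
      exact hr) b
    (by
      simp only [hR, hS, cn_turnC]
      exact discC_unity P hn b)
  have c3 := UL_unity hn
  simp only [intervalIntegral.integral_const, sub_zero, one_smul] at h1
  change _ ≤ 5 * (2 * (1 + Real.sqrt (discC P b))) at c2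
  change ∫ t in (0:ℝ)..1, |UL (R.map turn) t - UL (S.map turn) t| ≤
    5 * (2 * (1 + Real.sqrt (discC P b))) at c2
  change ∫ t in (0:ℝ)..1, |UL (S.map turn) t| ≤ 2 * Real.log 2 at c3
  linarith

end

end Pool.Agent.U72.NP
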