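import Mathlib
import Pool.Agent.U72.NP.Rel
import Pool.Agent.Helper781.CycHouse.Loxton
import Pool.Agent.Y947.RL2.All2
import Pool.Agent.Y947.RL2.Alg
import Pool.Agent.Y433.RL.Hgt
import Pool.Agent.Y858.RL.Rep
import Pool.Agent.Y235.RL.Cnj
import Pool.Agent.Y932.RL.Tow

/-!
# The relative Lehmer problem over `K(μ_∞)` and the angular discrepancy
-/

set_option autoImplicit false

namespace Pool.Agent.U72.NP

open Polynomial
open Pool.Agent.Y947.RL

noncomputable section

theorem t_alg : Pool.Agent.Y947.RL2.T_ALG :=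
  Pool.Agent.Y947.RL2.alg Pool.Agent.Y947.RL2.t_fin (Pool.Agent.Y433.RL.hgt_mean Pool.Agent.Y65.RL.tr)
    Pool.Agent.Y858.RL.rep Pool.Agent.Y235.RL.Cnj.cnj
    (fun K _ z hz => Pool.Agent.Y932.RL.Tow.tow K z hz)

/-- the constant terms: the mean of the logarithms is not negative -/
theorem mean_const {m : ℕ} (hm : 0 < m) {F : ℤ[X][X]}
    (h0 : ∀ ω : ℂ, IsPrimitiveRoot ω m → (sp ω F).eval 0 ≠ 0) :
    0 ≤ meanP m (fun ω => Real.log ‖(sp ω F).eval 0‖) := by
  unfold meanP
  refine div_nonneg ?_ (Nat.cast_nonneg _)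
  have e : ∀ ω : ℂ, (sp ω F).eval 0 = aeval ω (F.coeff 0) := by
    intro ω
    rw [← coeff_zero_eq_eval_zero]
    unfold sp
    rw [coeff_map]
    rfl
  have hne : ∀ ω ∈ primitiveRoots m ℂ, aeval ω (F.coeff 0) ≠ 0 := by
    intro ω hω
    rw [mem_primitiveRoots hm] at hω
    rw [← e]
    exact h0 ω hω
  obtain ⟨k, hk⟩ := Pool.Agent.Helper781.CycHouse.exists_prod_eq_int hm (F.coeff 0)
  have hk0 : k ≠ 0 := by
    rintro rfl
    rw [Int.cast_zero] at hk
    exact (Finset.prod_ne_zero_iff.mpr hne) hk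
  simp only [e]
  rw [← Real.log_prod (fun w hw => norm_ne_zero_iff.mpr (hne w hw)), ← norm_prod, hk,
    Complex.norm_intCast]
  apply Real.log_nonneg
  have : (1:ℤ) ≤ |k| := Int.one_le_abs hk0
  exact_mod_cast this

theorem meanP_mono {m : ℕ} (hm : 0 < m) {f g : ℂ → ℝ} (h : ∀ ω, IsPrimitiveRoot ω m → f ω ≤ g ω) :
    meanP m f ≤ meanP m g := by
  unfold meanP
  refine div_le_div_of_nonneg_right (Finset.sum_le_sum fun ω hω => h ω ?_) (Nat.cast_nonneg _)
  exact (mem_primitiveRoots hm).mp hω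

theorem meanP_const {m : ℕ} (hm : 0 < m) (a : ℝ) : meanP m (fun _ => a) = a := by
  unfold meanP
  rw [Finset.sum_const, Complex.card_primitiveRoots, nsmul_eq_mul, mul_comm, mul_div_assoc,
    div_self, mul_one]
  exact_mod_cast (Nat.totient_pos.mpr hm).ne'

theorem meanP_add {m : ℕ} (f g : ℂ → ℝ) :
    meanP m (fun ω => f ω + g ω) = meanP m f + meanP m g := by
  unfold meanP
  rw [Finset.sum_add_distrib, add_div]

theorem meanP_mul {m : ℕ} (a : ℝ) (f : ℂ → ℝ) :
    meanP m (fun ω => a * f ω) = a * meanP m f := by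
  unfold meanP
  rw [← Finset.mul_sum, mul_div_assoc]

/-- **The relative bound.** -/
theorem rel_rate : ∃ c : ℝ, 0 < c ∧ ∀ z : ℂ, IsIntegral ℤ z → z ≠ 0 →
    (∀ n : ℕ, 0 < n → z ^ n ≠ 1) →
      (∃ (m : ℕ) (ω₀ : QAb) (F : ℤ[X][X]), 0 < m ∧ IsPrimitiveRoot ω₀ m ∧ F.Monic ∧
        minpoly QAb z = sp ω₀ F) ∧
      ∀ (m : ℕ) (ω₀ : QAb) (F : ℤ[X][X]), 0 < m → IsPrimitiveRoot ω₀ m → F.Monic →
        minpoly QAb z = sp ω₀ F → ∀ b : ℂ → ℝ,
        ∀ (K : IntermediateField ℚ ℂ) [FiniteDimensional ℚ K],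
          c / Module.finrank ℚ K /
              (1 + meanP m (fun ω => Real.sqrt (discC (sp ω F) (b ω)))) ^ 6 ≤
            (minpoly (K ⊔ QAb : IntermediateField ℚ ℂ) z).natDegree * hgt z := by
  obtain ⟨c, hc, h⟩ := t_alg
  refine ⟨min 1 (c / 9 ^ 6), by positivity, ?_⟩
  intro z hz hz0 hroot
  obtain ⟨h1, h2⟩ := h z hz hz0 hroot
  refine ⟨?_, ?_⟩
  · obtain ⟨m, ω₀, F, hm, hω, hF, heq⟩ := h1
    exact ⟨m, ω₀, F, hm, hω, hF, heq.symm⟩
  intro m ω₀ F hm hω₀ hF heq b K _
  have h3 := h2 m ω₀ F hm hω₀ hF heq.symm K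
  have hyp := Pool.Agent.Y235.RL.Cnj.cnj z hz hz0 hroot m ω₀ F hm hω₀ hF heq.symm
  have hω : IsPrimitiveRoot (ω₀ : ℂ) m :=
    hω₀.map_of_injective (f := algebraMap QAb ℂ) (algebraMap QAb ℂ).injective
  have hzero : (sp (ω₀ : ℂ) F).eval z = 0 := by
    have h1 : sp (ω₀ : ℂ) F = (minpoly QAb z).map (algebraMap QAb ℂ) := by
      rw [heq, Pool.Agent.Y947.RL2.sp_map']
      rfl
    rw [h1, eval_map_algebraMap, minpoly.aeval]
  have hdeg : F.natDegree = (minpoly QAb z).natDegree := by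
    rw [heq]
    unfold sp
    rw [hF.natDegree_map]
  have hhgt := Pool.Agent.Y433.RL.hgt_mean Pool.Agent.Y65.RL.tr m F hyp ω₀ hω z hzero
  set D : ℝ := meanP m (fun ω => Real.sqrt (discC (sp ω F) (b ω))) with hD
  have hD0 : 0 ≤ D := by
    rw [hD]
    unfold meanP
    exact div_nonneg (Finset.sum_nonneg fun ω _ => Real.sqrt_nonneg _) (Nat.cast_nonneg _)
  set M : ℝ := meanP m (fun ω => mpc (sp ω F)) with hM
  have hM0 : 0 ≤ M := by
    rw [hM]
    unfold meanP
    apply div_nonneg _ (Nat.cast_nonneg _)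
    apply Finset.sum_nonneg
    intro ω _
    unfold mpc
    exact Real.circleAverage_nonneg_of_nonneg fun _ _ => Real.posLog_nonneg
  have hK : (0:ℝ) < Module.finrank ℚ K := by exact_mod_cast Module.finrank_pos
  set T : ℝ := (minpoly (K ⊔ QAb : IntermediateField ℚ ℂ) z).natDegree * hgt z with hT
  have hlog2 := Real.log_two_lt_d9
  have hMle : M ≤ 2 * (F.natDegree * hgt z) + 5 * (1 + D) + Real.log 2 := by
    have h4 : M ≤ meanP m (fun ω => (2 * Real.log (sp ω F).mahlerMeasure +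
        (-(1 / 2)) * Real.log ‖(sp ω F).eval 0‖) + ((5 * Real.sqrt (discC (sp ω F) (b ω))) +
          (5 + Real.log 2))) := by
      refine meanP_mono hm fun ω hω' => ?_
      have hmon : (sp ω F).Monic := by
        unfold sp
        exact hF.map _
      have h5 := mpc_le hmon (hyp.h0 ω hω') (b ω)
      rw [logMahlerMeasure_eq_log_MahlerMeasure] at h5
      unfold mpc
      linarith
    rw [meanP_add, meanP_add, meanP_add, meanP_mul, meanP_mul, meanP_mul, meanP_const hm, hhgt] at h4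
    have h6 := mean_const hm hyp.h0
    rw [← hD] at h4
    linarith
  by_cases hcase : (F.natDegree : ℝ) * hgt z < 1
  · have h7 : 1 + M ≤ 9 * (1 + D) := by linarith
    have h8 : c / 9 ^ 6 / Module.finrank ℚ K / (1 + D) ^ 6 ≤ T := by
      refine le_trans ?_ h3
      have e : c / 9 ^ 6 / Module.finrank ℚ K / (1 + D) ^ 6 =
          c / Module.finrank ℚ K / (9 * (1 + D)) ^ 6 := by
        rw [mul_pow]
        field_simp
      rw [e]
      exact div_le_div_of_nonneg_left (by positivity) (by positivity)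
        (pow_le_pow_left₀ (by positivity) h7 6)
    refine le_trans ?_ h8
    gcongr
    exact min_le_right _ _
  · push Not at hcase
    have hzalg : IsAlgebraic ℚ z := (hz.tower_top (A := ℚ)).isAlgebraic
    have h4 : ((minpoly QAb z).natDegree : ℝ) ≤
        Module.finrank ℚ K * (minpoly (K ⊔ QAb : IntermediateField ℚ ℂ) z).natDegree := by
      exact_mod_cast Pool.Agent.Y932.RL.Tow.tow K z hzalg
    have hh : 0 ≤ hgt z := by
      by_contra hneg
      push Not at hneg
      have : (F.natDegree : ℝ) * hgt z ≤ 0 :=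
        mul_nonpos_of_nonneg_of_nonpos (Nat.cast_nonneg _) hneg.le
      linarith
    have h5 : 1 ≤ Module.finrank ℚ K * T := by
      calc (1:ℝ) ≤ F.natDegree * hgt z := hcase
        _ = (minpoly QAb z).natDegree * hgt z := by rw [hdeg]
        _ ≤ (Module.finrank ℚ K * (minpoly (K ⊔ QAb : IntermediateField ℚ ℂ) z).natDegree) *
            hgt z := mul_le_mul_of_nonneg_right h4 hh
        _ = Module.finrank ℚ K * T := by rw [hT]; ring
    have h6 : min 1 (c / 9 ^ 6) / (Module.finrank ℚ K : ℝ) / (1 + D) ^ 6 ≤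
        1 / (Module.finrank ℚ K : ℝ) := by
      have h7 : min 1 (c / 9 ^ 6) / (Module.finrank ℚ K : ℝ) ≤ 1 / (Module.finrank ℚ K : ℝ) := by
        gcongr
        exact min_le_left _ _
      have h8 : (1:ℝ) ≤ (1 + D) ^ 6 := one_le_pow₀ (by linarith)
      refine le_trans (div_le_self (by positivity) h8) h7
    refine h6.trans ?_
    rw [div_le_iff₀ hK]
    linarith

end

end Pool.Agent.U72.NP
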