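import Mathlib
import Pool.Agent.U72.NP.Count

/-!
# Zeros on arcs of the unit circle
-/

set_option autoImplicit false

namespace Pool.Agent.U72.NP

open MeasureTheory Filter Topology Polynomial
open Pool.Agent.H261R2.CM

noncomputable section

/-- the open arc from `ez t` to `1` -/
def arc (t : ℝ) : Set ℂ := ez '' Set.Ioo t 1

open Classical in
/-- the number of roots (with multiplicity) in the open arc from `ez t` to `1` -/
def arcN (P : ℂ[X]) (t : ℝ) : ℕ := P.roots.countP (fun z => z ∈ arc t)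

theorem ez_inj {a b : ℝ} (ha : a ∈ Set.Ico (0:ℝ) 1) (hb : b ∈ Set.Ico (0:ℝ) 1)
    (h : ez a = ez b) : a = b := by
  unfold ez at h
  rw [Complex.exp_eq_exp_iff_exists_int] at h
  obtain ⟨n, hn⟩ := h
  have hne : (2 * (Real.pi : ℂ) * Complex.I) ≠ 0 := Complex.two_pi_I_ne_zero
  have h3 : (a : ℂ) = b + n := by
    apply mul_left_cancel₀ hne
    rw [hn]
    ring
  have h4 : a = b + n := by exact_mod_cast h3
  have h5 : (n : ℝ) < 1 := by linarith [ha.2, hb.1]
  have h6 : (-1 : ℝ) < n := by linarith [ha.1, hb.2]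
  have h7 : n < 1 := by exact_mod_cast h5
  have h8 : -1 < n := by exact_mod_cast h6
  have h9 : n = 0 := by omega
  rw [h4, h9]
  simp

theorem arc_mono {s t : ℝ} (h : s ≤ t) : arc t ⊆ arc s :=
  Set.image_mono (Set.Ioo_subset_Ioo_left h)

theorem ez_mem_arc {a t : ℝ} (ha : a ∈ Set.Ioo (0:ℝ) 1) (ht : 0 ≤ t) : ez a ∈ arc t ↔ t < a := by
  constructor
  · rintro ⟨b, hb, hab⟩
    have : b = a := ez_inj ⟨ht.trans hb.1.le, hb.2⟩ ⟨ha.1.le, ha.2⟩ hab
    rw [← this]
    exact hb.1
  · intro h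
    exact ⟨a, ⟨h, ha.2⟩, rfl⟩

/-- splitting a multiset of points -/
theorem exists_split (R : Multiset ℂ) : ∃ (A : List ℝ) (E : List ℂ),
    (∀ a ∈ A, a ∈ Set.Ioo (0:ℝ) 1) ∧ (∀ z ∈ E, z ∉ arc 0) ∧
    R = ((A.map ez : List ℂ) : Multiset ℂ) + (E : Multiset ℂ) := by
  induction R using Multiset.induction_on with
  | empty => exact ⟨[], [], by simp, by simp, by simp⟩
  | cons z R ih =>
    obtain ⟨A, E, h1, h2, h3⟩ := ih
    by_cases hz : z ∈ arc 0
    · obtain ⟨a, ha, rfl⟩ := hz
      refine ⟨a :: A, E, ?_, h2, ?_⟩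
      · intro b hb
        rcases List.mem_cons.mp hb with rfl | hb
        · exact ha
        · exact h1 b hb
      · rw [h3, List.map_cons, ← Multiset.cons_coe, Multiset.cons_add]
    · refine ⟨A, z :: E, h1, ?_, ?_⟩
      · intro w hw
        rcases List.mem_cons.mp hw with rfl | hw
        · exact hz
        · exact h2 w hw
      · rw [h3, ← Multiset.cons_coe, Multiset.add_cons]

end

end Pool.Agent.U72.NP
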