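import Mathlib
import Pool.Agent.U72.NP.Arc
import Pool.Agent.W242.IM.Form

/-!
# Positive eigenvalues along the pencil and roots on the unit circle
-/

set_option autoImplicit false

namespace Pool.Agent.U72.NP

open MeasureTheory Filter Topology Polynomial Matrix Finset
open Pool.Agent.H261R2.CM Pool.Agent.W242.IM

noncomputable section

variable {ι κ : Type*} [Fintype ι] [Fintype κ]

open Classical in
/-- the number of positive entries -/
def np (l : ι → ℝ) : ℕ := (univ.filter fun j => 0 < l j).card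

/-- a space on which the form is positive has dimension at most the number of positive
eigenvalues -/
theorem np_of_form {Q : (ι → ℂ) → ℝ} {l : ι → ℝ} (h : SD Q l) {E : Type*}
    [AddCommGroup E] [Module ℂ E] [FiniteDimensional ℂ E] (L : E →ₗ[ℂ] (ι → ℂ))
    (hL : ∀ e, e ≠ 0 → 0 < Q (L e)) : Module.finrank ℂ E ≤ np l := by
  classical
  obtain ⟨V, hV1, hV2⟩ := h
  by_contra hcon
  push Not at hcon
  set T : E →ₗ[ℂ] ({j // 0 < l j} → ℂ) :=
    (LinearMap.funLeft ℂ ℂ (fun j : {j // 0 < l j} => (j : ι))) ∘ₗ (V : (ι → ℂ) →ₗ[ℂ] (ι → ℂ)) ∘ₗ L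
    with hT
  have hcard : Module.finrank ℂ ({j // 0 < l j} → ℂ) = np l := by
    rw [Module.finrank_fintype_fun_eq_card, Fintype.card_subtype]
    unfold np
    congr
  have hker := LinearMap.ker_ne_bot_of_finrank_lt (f := T) (by rw [hcard]; exact hcon)
  obtain ⟨e, he, he0⟩ := (Submodule.ne_bot_iff _).mp hker
  rw [LinearMap.mem_ker] at he
  have h2 := hL e he0
  have hz : ∀ j, 0 < l j → V (L e) j = 0 := fun j hj => congrFun he ⟨j, hj⟩
  rw [hV2] at h2
  have h3 : ∑ j, l j * ‖V (L e) j‖ ^ 2 ≤ 0 := by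
    refine Finset.sum_nonpos fun j _ => ?_
    by_cases hj : 0 < l j
    · rw [hz j hj]
      simp
    · push Not at hj
      exact mul_nonpos_of_nonpos_of_nonneg hj (by positivity)
  linarith

/-- comparison of the numbers of positive eigenvalues of two forms with a common restriction -/
theorem np_restrict {QA : (ι → ℂ) → ℝ} {lA : ι → ℝ} (hA : SD QA lA) {QB : (κ → ℂ) → ℝ}
    {lB : κ → ℝ} (hB : SD QB lB) {E : Type*} [AddCommGroup E]
    [Module ℂ E] [FiniteDimensional ℂ E] (LA : E →ₗ[ℂ] (ι → ℂ)) (LB : E →ₗ[ℂ] (κ → ℂ))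
    (hinj : Function.Injective LB) (hQ : ∀ e, QA (LA e) = QB (LB e)) :
    np lB + Module.finrank ℂ E ≤ np lA + Fintype.card κ := by
  classical
  obtain ⟨V, hV1, hV2⟩ := hB
  set T : E →ₗ[ℂ] ({j // ¬ 0 < lB j} → ℂ) :=
    (LinearMap.funLeft ℂ ℂ (fun j : {j // ¬ 0 < lB j} => (j : κ))) ∘ₗ
      (V : (κ → ℂ) →ₗ[ℂ] (κ → ℂ)) ∘ₗ LB with hT
  have hcard : Module.finrank ℂ ({j // ¬ 0 < lB j} → ℂ) + np lB = Fintype.card κ := by
    rw [Module.finrank_fintype_fun_eq_card, Fintype.card_subtype]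
    unfold np
    have := Finset.card_filter_add_card_filter_not (s := (univ : Finset κ)) (fun j => 0 < lB j)
    rw [Finset.card_univ] at this
    rw [add_comm]
    convert this using 2
  have h1 := LinearMap.finrank_range_add_finrank_ker T
  have h2 : Module.finrank ℂ (LinearMap.range T) ≤ Module.finrank ℂ ({j // ¬ 0 < lB j} → ℂ) :=
    Submodule.finrank_le _
  have h3 : Module.finrank ℂ (LinearMap.ker T) ≤ np lA := by
    refine np_of_form hA (LA ∘ₗ (LinearMap.ker T).subtype) ?_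
    intro e he
    have h0 : (e : E) ∈ LinearMap.ker T := e.2
    rw [LinearMap.mem_ker] at h0
    have hz : ∀ j, ¬ 0 < lB j → V (LB e) j = 0 := fun j hj => congrFun h0 ⟨j, hj⟩
    have hne : LB (e : E) ≠ 0 := by
      intro h4
      apply he
      apply Subtype.ext
      apply hinj
      rw [h4]
      simp
    show 0 < QA (LA (e : E))
    rw [hQ, hV2]
    have h5 : V (LB e) ≠ 0 := by
      intro h6
      exact hne ((LinearEquiv.map_eq_zero_iff V).mp h6)
    obtain ⟨j, hj⟩ : ∃ j, V (LB e) j ≠ 0 := by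
      by_contra hcon
      push Not at hcon
      exact h5 (funext hcon)
    have hjp : 0 < lB j := by
      by_contra hc
      exact hj (hz j hc)
    refine Finset.sum_pos' (fun i _ => ?_) ⟨j, mem_univ j, ?_⟩
    · by_cases hi : 0 < lB i
      · positivity
      · rw [hz i hi]
        simp
    · have : 0 < ‖V (LB e) j‖ := norm_pos_iff.mpr hj
      positivity
  omega

/-- a positive lower bound for the positive entries -/
theorem exists_gap (l : ι → ℝ) : ∃ δ > 0, ∀ j, 0 < l j → δ ≤ l j := by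
  classical
  by_cases h : (univ.filter fun j => 0 < l j).Nonempty
  · obtain ⟨j0, hj0, hmin⟩ := Finset.exists_min_image _ l h
    refine ⟨l j0, (Finset.mem_filter.mp hj0).2, fun j hj => hmin j ?_⟩
    simp [hj]
  · refine ⟨1, one_pos, fun j hj => ?_⟩
    exact absurd ⟨j, by simp [hj]⟩ h

/-- lower semicontinuity of the number of positive eigenvalues -/
theorem np_lsc {Q : ℝ → (ι → ℂ) → ℝ} {l : ℝ → ι → ℝ} (hSD : ∀ t, SD (Q t) (l t)) (t0 : ℝ)
    (hcont : ∀ ε > 0, ∀ᶠ t in 𝓝 t0, ∀ x, |Q t x - Q t0 x| ≤ ε * nsq x) :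
    ∀ᶠ t in 𝓝 t0, np (l t0) ≤ np (l t) := by
  classical
  obtain ⟨δ, hδ, hgap⟩ := exists_gap (l t0)
  filter_upwards [hcont (δ / 2) (by positivity)] with t ht
  obtain ⟨V, hV1, hV2⟩ := hSD t0
  set G : ({j // 0 < l t0 j} → ℂ) →ₗ[ℂ] (ι → ℂ) :=
    (V.symm : (ι → ℂ) →ₗ[ℂ] (ι → ℂ)) ∘ₗ (Function.ExtendByZero.linearMap ℂ
      (fun j : {j // 0 < l t0 j} => (j : ι))) with hG
  have hinj : Function.Injective (fun j : {j // 0 < l t0 j} => (j : ι)) := Subtype.val_injective
  have hVG : ∀ g j (hj : 0 < l t0 j), V (G g) j = g ⟨j, hj⟩ := by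
    intro g j hj
    rw [hG]
    simp only [LinearMap.comp_apply, LinearEquiv.coe_coe, LinearEquiv.apply_symm_apply]
    exact hinj.extend_apply g (0 : ι → ℂ) ⟨j, hj⟩
  have hVG0 : ∀ g j, ¬ 0 < l t0 j → V (G g) j = 0 := by
    intro g j hj
    rw [hG]
    simp only [LinearMap.comp_apply, LinearEquiv.coe_coe, LinearEquiv.apply_symm_apply]
    exact Function.extend_apply' (f := fun j : {j // 0 < l t0 j} => (j : ι)) g (0 : ι → ℂ) j
      (by rintro ⟨a, ha⟩; exact hj (ha ▸ a.2))
  have hcard : Module.finrank ℂ ({j // 0 < l t0 j} → ℂ) = np (l t0) := by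
    rw [Module.finrank_fintype_fun_eq_card, Fintype.card_subtype]
    unfold np
    congr
  rw [← hcard]
  refine np_of_form (hSD t) G fun g hg => ?_
  obtain ⟨⟨j, hj⟩, hj0⟩ : ∃ j, g j ≠ 0 := by
    by_contra hcon
    push Not at hcon
    exact hg (funext hcon)
  have h4 : G g ≠ 0 := by
    intro h0
    apply hj0
    rw [← hVG g j hj, h0, map_zero]
    rfl
  have h5 : δ * nsq (G g) ≤ Q t0 (G g) := by
    rw [hV2, ← hV1 (G g)]
    unfold nsq
    rw [Finset.mul_sum]
    refine Finset.sum_le_sum fun i _ => ?_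
    by_cases hi : 0 < l t0 i
    · exact mul_le_mul_of_nonneg_right (hgap i hi) (by positivity)
    · rw [hVG0 g i hi]
      simp
  have h6 := nsq_pos h4
  have h7 := (abs_le.mp (ht (G g))).1
  nlinarith

/-! ### The Hermitian pencil -/

variable [DecidableEq ι]

/-- the Hermitian pencil -/
def Hm (V : Matrix ι ι ℂ) (t : ℝ) : Matrix ι ι ℂ := ez (t / 2) • V + ez (-(t / 2)) • Vᴴ

theorem star_ez (t : ℝ) : star (ez t) = ez (-t) := by
  apply Complex.ext
  · rw [ez_re]
    simp only [Complex.star_def, Complex.conj_re]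
    rw [ez_re, show 2 * Real.pi * -t = -(2 * Real.pi * t) by ring, Real.cos_neg]
  · rw [ez_im]
    simp only [Complex.star_def, Complex.conj_im]
    rw [ez_im, show 2 * Real.pi * -t = -(2 * Real.pi * t) by ring, Real.sin_neg]

omit [Fintype ι] [DecidableEq ι] in
theorem Hm_herm (V : Matrix ι ι ℂ) (t : ℝ) : (Hm V t).IsHermitian := by
  unfold Hm Matrix.IsHermitian
  rw [conjTranspose_add, conjTranspose_smul, conjTranspose_smul, conjTranspose_conjTranspose,
    star_ez, star_ez, neg_neg, add_comm]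

/-- the eigenvalues of the Hermitian pencil -/
def el (V : Matrix ι ι ℂ) (t : ℝ) : ι → ℝ := (Hm_herm V t).eigenvalues

theorem el_sd (V : Matrix ι ι ℂ) (t : ℝ) : SD (qf (Hm V t)) (el V t) :=
  sd_of_hermitian (Hm_herm V t)

/-- the value of the sesquilinear form -/
def vf (V : Matrix ι ι ℂ) (x : ι → ℂ) : ℂ := star x ⬝ᵥ (V *ᵥ x)

omit [DecidableEq ι] in
theorem vf_conj (V : Matrix ι ι ℂ) (x : ι → ℂ) : vf Vᴴ x = star (vf V x) := by
  unfold vf
  rw [star_dotProduct, star_mulVec, conjTranspose_conjTranspose, dotProduct_mulVec]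

omit [DecidableEq ι] in
theorem qf_Hm (V : Matrix ι ι ℂ) (t : ℝ) (x : ι → ℂ) :
    qf (Hm V t) x = 2 * (ez (t / 2) * vf V x).re := by
  unfold qf Hm
  have h1 : star x ⬝ᵥ ((ez (t / 2) • V + ez (-(t / 2)) • Vᴴ) *ᵥ x) =
      ez (t / 2) * vf V x + star (ez (t / 2) * vf V x) := by
    rw [add_mulVec, smul_mulVec, smul_mulVec, dotProduct_add, dotProduct_smul, dotProduct_smul,
      star_mul', star_ez, ← vf_conj]
    rfl
  rw [h1, Complex.add_re]
  simp only [Complex.star_def, Complex.conj_re]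
  ring

omit [DecidableEq ι] in
theorem vf_le (V : Matrix ι ι ℂ) (x : ι → ℂ) :
    ‖vf V x‖ ≤ (∑ i, ∑ j, ‖V i j‖) * nsq x := by
  have h1 : ∀ i, ‖x i‖ ^ 2 ≤ nsq x := fun i =>
    Finset.single_le_sum (f := fun i => ‖x i‖ ^ 2) (fun _ _ => by positivity) (mem_univ i)
  unfold vf dotProduct mulVec dotProduct
  rw [Finset.sum_mul]
  refine (norm_sum_le _ _).trans (Finset.sum_le_sum fun i _ => ?_)
  rw [Finset.mul_sum, Finset.sum_mul]
  refine (norm_sum_le _ _).trans (Finset.sum_le_sum fun j _ => ?_)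
  rw [norm_mul, norm_mul, Pi.star_apply, norm_star]
  have h2 : ‖x i‖ * ‖x j‖ ≤ nsq x := by
    have := h1 i
    have := h1 j
    nlinarith [sq_nonneg (‖x i‖ - ‖x j‖)]
  calc ‖x i‖ * (‖V i j‖ * ‖x j‖) = ‖V i j‖ * (‖x i‖ * ‖x j‖) := by ring
    _ ≤ ‖V i j‖ * nsq x := mul_le_mul_of_nonneg_left h2 (norm_nonneg _)

omit [DecidableEq ι] in
theorem qf_cont (V : Matrix ι ι ℂ) (t0 : ℝ) :
    ∀ ε > 0, ∀ᶠ t in 𝓝 t0, ∀ x, |qf (Hm V t) x - qf (Hm V t0) x| ≤ ε * nsq x := by
  intro ε hε
  set K := ∑ i, ∑ j, ‖V i j‖ with hK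
  have hK0 : 0 ≤ K := Finset.sum_nonneg fun _ _ => Finset.sum_nonneg fun _ _ => norm_nonneg _
  have hc : Continuous fun t : ℝ => 2 * (‖ez (t / 2) - ez (t0 / 2)‖ * K) := by
    have := D_continuous_ez
    fun_prop
  have h0 : 2 * (‖ez (t0 / 2) - ez (t0 / 2)‖ * K) < ε := by simp [hε]
  filter_upwards [hc.continuousAt.eventually (gt_mem_nhds h0)] with t ht x
  rw [qf_Hm, qf_Hm, ← mul_sub, ← Complex.sub_re, ← sub_mul, abs_mul, abs_of_pos two_pos]
  have h1 := Complex.abs_re_le_norm ((ez (t / 2) - ez (t0 / 2)) * vf V x)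
  rw [norm_mul] at h1
  have h2 := vf_le V x
  have h3 := nsq_nonneg x
  calc 2 * |((ez (t / 2) - ez (t0 / 2)) * vf V x).re|
      ≤ 2 * (‖ez (t / 2) - ez (t0 / 2)‖ * (K * nsq x)) := by
        refine mul_le_mul_of_nonneg_left (h1.trans ?_) two_pos.le
        exact mul_le_mul_of_nonneg_left h2 (norm_nonneg _)
    _ = (2 * (‖ez (t / 2) - ez (t0 / 2)‖ * K)) * nsq x := by ring
    _ ≤ ε * nsq x := mul_le_mul_of_nonneg_right ht.le h3

theorem np_el_lsc (V : Matrix ι ι ℂ) (t0 : ℝ) : ∀ᶠ t in 𝓝 t0, np (el V t0) ≤ np (el V t) :=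
  np_lsc (el_sd V) t0 (qf_cont V t0)

theorem nn_el_lsc (V : Matrix ι ι ℂ) (t0 : ℝ) :
    ∀ᶠ t in 𝓝 t0, np (fun j => - el V t0 j) ≤ np (fun j => - el V t j) := by
  refine np_lsc (l := fun t j => - el V t j) (fun t => (el_sd V t).neg) t0 fun ε hε => ?_
  filter_upwards [qf_cont V t0 ε hε] with t ht x
  have h1 := ht x
  rw [abs_sub_comm] at h1
  have e : -qf (Hm V t) x - -qf (Hm V t0) x = qf (Hm V t0) x - qf (Hm V t) x := by ring
  rw [e]
  exact h1

open Classical in
/-- the number of zero entries -/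
def nz (l : ι → ℝ) : ℕ := (univ.filter fun j => l j = 0).card

omit [DecidableEq ι] in
theorem np_nn_nz (l : ι → ℝ) : np l + np (fun j => - l j) + nz l = Fintype.card ι := by
  classical
  unfold np nz
  rw [Finset.card_filter, Finset.card_filter, Finset.card_filter, ← Finset.sum_add_distrib,
    ← Finset.sum_add_distrib, ← Finset.card_univ, Finset.card_eq_sum_ones]
  refine Finset.sum_congr rfl fun j _ => ?_
  rcases lt_trichotomy (l j) 0 with h | h | h
  · simp [h, h.ne, h.le]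
  · simp [h]
  · simp [h, h.ne', h.le]

/-! ### The characteristic polynomial of the pencil -/

/-- the determinant of the pencil `X V + Vᴴ` -/
def pen (V : Matrix ι ι ℂ) : ℂ[X] := ((X : ℂ[X]) • V.map C + Vᴴ.map C).det

theorem pen_natDegree (V : Matrix ι ι ℂ) : (pen V).natDegree ≤ Fintype.card ι :=
  Polynomial.natDegree_det_X_add_C_le V Vᴴ

theorem nz_le (V : Matrix ι ι ℂ) (hP : pen V ≠ 0) (t0 : ℝ) :
    nz (el V t0) ≤ (pen V).roots.count (ez t0) := by
  classical
  set hA := Hm_herm V t0 with hAdef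
  have hU2 : (hA.eigenvectorUnitary : Matrix ι ι ℂ) * star (hA.eigenvectorUnitary : Matrix ι ι ℂ) = 1 :=
    Unitary.coe_mul_star_self _
  have hU1 : star (hA.eigenvectorUnitary : Matrix ι ι ℂ) * (hA.eigenvectorUnitary : Matrix ι ι ℂ) = 1 :=
    Unitary.coe_star_mul_self _
  have hsp : Hm V t0 = (hA.eigenvectorUnitary : Matrix ι ι ℂ) *
      diagonal (fun j => ((hA.eigenvalues j : ℝ) : ℂ)) *
      star (hA.eigenvectorUnitary : Matrix ι ι ℂ) := by
    have := hA.spectral_theorem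
    rw [Unitary.conjStarAlgAut_apply] at this
    exact this
  set U : Matrix ι ι ℂ := (hA.eigenvectorUnitary : Matrix ι ι ℂ) with hU
  have hHU : Hm V t0 * U = U * diagonal (fun j => ((hA.eigenvalues j : ℝ) : ℂ)) := by
    conv_lhs => rw [hsp]
    rw [Matrix.mul_assoc, hU1, Matrix.mul_one]
  have hdet : U.det ≠ 0 := by
    intro h0
    have h1 := congrArg Matrix.det hU2
    rw [det_mul, h0, zero_mul, det_one] at h1
    exact zero_ne_one h1
  set z0 := ez t0 with hz0
  set N : Matrix ι ι ℂ[X] := ((X : ℂ[X]) • V.map C + Vᴴ.map C) * U.map C with hN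
  have hNe : ∀ i j, (N i j).eval z0 = ez (t0 / 2) * (U i j * ((hA.eigenvalues j : ℝ) : ℂ)) := by
    intro i j
    have h1 : (N i j).eval z0 = ((z0 • V + Vᴴ) * U) i j := by
      rw [hN, Matrix.mul_apply, Matrix.mul_apply, eval_finsetSum]
      refine Finset.sum_congr rfl fun k _ => ?_
      simp only [Matrix.add_apply, Matrix.smul_apply, Matrix.map_apply, smul_eq_mul, eval_mul,
        eval_add, eval_X, eval_C]
    have h2 : z0 • V + Vᴴ = ez (t0 / 2) • Hm V t0 := by
      unfold Hm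
      rw [smul_add, smul_smul, smul_smul, ← ez_add, ← ez_add, add_halves, add_neg_cancel, ez_zero,
        one_smul]
    rw [h1, h2, Matrix.smul_mul, hHU, Matrix.smul_apply, Matrix.mul_diagonal, smul_eq_mul]
  have hdvd : ∀ i j, hA.eigenvalues j = 0 → (X - C z0) ∣ N i j := by
    intro i j hj
    rw [dvd_iff_isRoot, IsRoot, hNe, hj]
    simp
  set N' : Matrix ι ι ℂ[X] := fun i j =>
    if h : hA.eigenvalues j = 0 then Classical.choose (hdvd i j h) else N i j with hN'
  set d : ι → ℂ[X] := fun j => if hA.eigenvalues j = 0 then X - C z0 else 1 with hd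
  have hfac : N = N' * diagonal d := by
    ext1 i j
    rw [Matrix.mul_diagonal]
    by_cases h : hA.eigenvalues j = 0
    · simp only [hN', hd, h, dif_pos, if_true]
      rw [mul_comm]
      exact Classical.choose_spec (hdvd i j h)
    · simp only [hN', hd, h, dif_neg, if_false, not_false_eq_true, mul_one]
  have hdetN : N.det = N'.det * (X - C z0) ^ nz (el V t0) := by
    rw [hfac, det_mul, det_diagonal]
    congr 1
    rw [hd, Finset.prod_ite, Finset.prod_const, Finset.prod_const_one, mul_one]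
    unfold nz el
    congr
  have hdetN2 : N.det = pen V * C U.det := by
    rw [hN, det_mul]
    congr 1
    exact (RingHom.map_det C U).symm
  have h3 : (X - C z0) ^ nz (el V t0) ∣ pen V * C U.det := by
    rw [← hdetN2, hdetN]
    exact dvd_mul_left _ _
  have hunit : IsUnit (C U.det) := isUnit_C.mpr (isUnit_iff_ne_zero.mpr hdet)
  rw [hunit.dvd_mul_right] at h3
  rw [count_roots]
  exact (le_rootMultiplicity_iff hP).mpr h3

end

end Pool.Agent.U72.NP
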