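import Mathlib
import Pool.Agent.U72.NP.Inertia

/-!
# The number of roots on an arc and the number of positive eigenvalues
-/

set_option autoImplicit false

namespace Pool.Agent.U72.NP

open MeasureTheory Filter Topology Polynomial Matrix Finset
open Pool.Agent.H261R2.CM Pool.Agent.W242.IM

noncomputable section

/-! ### Counting on lists -/

theorem arcN_eq {P : ℂ[X]} {A : List ℝ} {E : List ℂ}
    (hA : ∀ a ∈ A, a ∈ Set.Ioo (0:ℝ) 1) (hE : ∀ z ∈ E, z ∉ arc 0)
    (h : P.roots = ((A.map ez : List ℂ) : Multiset ℂ) + (E : Multiset ℂ)) {t : ℝ} (ht : 0 ≤ t) :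
    arcN P t = A.countP (fun a => decide (t < a)) := by
  classical
  unfold arcN
  rw [h, Multiset.countP_add, Multiset.coe_countP, Multiset.coe_countP]
  have h1 : E.countP (fun z => decide (z ∈ arc t)) = 0 := by
    rw [List.countP_eq_zero]
    intro z hz
    simp only [decide_eq_true_eq]
    exact fun hmem => hE z hz (arc_mono ht hmem)
  have h2 : ∀ B : List ℝ, (∀ a ∈ B, a ∈ Set.Ioo (0:ℝ) 1) →
      (B.map ez).countP (fun z => decide (z ∈ arc t)) = B.countP (fun a => decide (t < a)) := by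
    intro B
    induction B with
    | nil => intro _; simp
    | cons b B ih =>
      intro hB
      have ih' := ih (fun a ha => hB a (by simp [ha]))
      rw [List.map_cons, List.countP_cons, List.countP_cons, ih']
      congr 1
      have h3 := ez_mem_arc (hB b (by simp)) ht
      by_cases h4 : t < b
      · simp [h3, h4]
      · simp [h3, h4]
  have h3 := h2 A hA
  rw [h3, h1, add_zero]

theorem count_ez {P : ℂ[X]} {A : List ℝ} {E : List ℂ}
    (hA : ∀ a ∈ A, a ∈ Set.Ioo (0:ℝ) 1) (hE : ∀ z ∈ E, z ∉ arc 0)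
    (h : P.roots = ((A.map ez : List ℂ) : Multiset ℂ) + (E : Multiset ℂ)) {t : ℝ}
    (ht : t ∈ Set.Ioo (0:ℝ) 1) : P.roots.count (ez t) = A.count t := by
  classical
  rw [h, Multiset.count_add, Multiset.coe_count, Multiset.coe_count]
  have h1 : E.count (ez t) = 0 := by
    rw [List.count_eq_zero]
    exact fun hmem => hE _ hmem ⟨t, ht, rfl⟩
  have h2 : ∀ B : List ℝ, (∀ a ∈ B, a ∈ Set.Ioo (0:ℝ) 1) →
      (B.map ez).count (ez t) = B.count t := by
    intro B
    induction B with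
    | nil => intro _; simp
    | cons b B ih =>
      intro hB
      have ih' := ih (fun a ha => hB a (by simp [ha]))
      have hb := hB b (by simp)
      rw [List.map_cons, List.count_cons, List.count_cons, ih']
      congr 1
      by_cases h4 : b = t
      · simp [h4]
      · have h5 : ¬ ez b = ez t := fun h6 =>
          h4 (ez_inj ⟨hb.1.le, hb.2⟩ ⟨ht.1.le, ht.2⟩ h6)
        simp [h4, h5]
  rw [h1, add_zero, h2 A hA]

theorem cnt_left (A : List ℝ) (t0 : ℝ) : ∀ᶠ t in 𝓝[<] t0,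
    A.countP (fun a => decide (t < a)) = A.countP (fun a => decide (t0 < a)) + A.count t0 := by
  induction A with
  | nil => simp
  | cons b A ih =>
    have h1 : ∀ᶠ t in 𝓝[<] t0, (t < b ↔ t0 ≤ b) := by
      rcases le_or_gt t0 b with h | h
      · filter_upwards [self_mem_nhdsWithin] with t ht
        exact ⟨fun _ => h, fun _ => lt_of_lt_of_le ht h⟩
      · filter_upwards [mem_nhdsWithin_of_mem_nhds (Ioi_mem_nhds h)] with t ht
        exact ⟨fun h2 => absurd h2 (not_lt.mpr (le_of_lt ht)), fun h2 => absurd h2 (not_le.mpr h)⟩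
    filter_upwards [ih, h1] with t h2 h3
    rw [List.countP_cons, List.countP_cons, List.count_cons, h2]
    rcases lt_trichotomy t0 b with h | h | h
    · have h4 : t < b := h3.mpr h.le
      simp [h, h4, h.ne']
      omega
    · subst h
      have h4 : t < t0 := h3.mpr le_rfl
      simp [h4]
      omega
    · have h4 : ¬ t < b := fun h5 => absurd (h3.mp h5) (not_le.mpr h)
      have h5 : ¬ t0 < b := not_lt.mpr h.le
      simp [h4, h5, h.ne]

theorem cnt_right (A : List ℝ) (t0 : ℝ) : ∀ᶠ t in 𝓝[>] t0,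
    A.countP (fun a => decide (t < a)) = A.countP (fun a => decide (t0 < a)) := by
  induction A with
  | nil => simp
  | cons b A ih =>
    have h1 : ∀ᶠ t in 𝓝[>] t0, (t < b ↔ t0 < b) := by
      rcases lt_or_ge t0 b with h | h
      · filter_upwards [mem_nhdsWithin_of_mem_nhds (Iio_mem_nhds h)] with t ht
        exact ⟨fun _ => h, fun _ => ht⟩
      · filter_upwards [self_mem_nhdsWithin] with t ht
        exact ⟨fun h2 => absurd (lt_trans (show t0 < t from ht) h2) (not_lt.mpr h),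
          fun h2 => absurd h2 (not_lt.mpr h)⟩
    filter_upwards [ih, h1] with t h2 h3
    rw [List.countP_cons, List.countP_cons, h2]
    by_cases h : t0 < b
    · have h4 : t < b := h3.mpr h
      simp [h, h4]
    · have h4 : ¬ t < b := fun h5 => h (h3.mp h5)
      simp [h, h4]

/-! ### Local monotonicity implies monotonicity -/

theorem mono_of_local (f : ℝ → ℤ)
    (hl : ∀ t ∈ Set.Ioo (0:ℝ) 1, ∀ᶠ s in 𝓝[<] t, f s ≤ f t)
    (hr : ∀ t ∈ Set.Ioo (0:ℝ) 1, ∀ᶠ s in 𝓝[>] t, f t ≤ f s) {a b : ℝ}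
    (ha : 0 < a) (hab : a ≤ b) (hb : b < 1) : f a ≤ f b := by
  set S : Set ℝ := {t | t ∈ Set.Icc a b ∧ ∀ s ∈ Set.Icc a t, f a ≤ f s} with hS
  have haS : a ∈ S := by
    refine ⟨⟨le_rfl, hab⟩, fun s hs => ?_⟩
    rw [le_antisymm hs.2 hs.1]
  have hbdd : BddAbove S := ⟨b, fun t ht => ht.1.2⟩
  set c := sSup S with hc
  have hac : a ≤ c := le_csSup hbdd haS
  have hcb : c ≤ b := csSup_le ⟨a, haS⟩ fun t ht => ht.1.2
  have hc01 : c ∈ Set.Ioo (0:ℝ) 1 := ⟨ha.trans_le hac, hcb.trans_lt hb⟩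
  have hlt : ∀ s, a ≤ s → s < c → f a ≤ f s := by
    intro s has hsc
    obtain ⟨t, ht, hst⟩ := exists_lt_of_lt_csSup ⟨a, haS⟩ hsc
    exact ht.2 s ⟨has, hst.le⟩
  have hfc : f a ≤ f c := by
    rcases eq_or_lt_of_le hac with h | h
    · rw [← h]
    · have h1 : ∀ᶠ s in 𝓝[<] c, s ∈ Set.Ioo a c := Ioo_mem_nhdsLT h
      obtain ⟨s, hs1, hs2⟩ := ((hl c hc01).and h1).exists
      exact (hlt s hs2.1.le hs2.2).trans hs1
  rcases eq_or_lt_of_le hcb with h | h
  · rw [← h]
    exact hfc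
  · exfalso
    obtain ⟨u, hu, hu2⟩ := (mem_nhdsGT_iff_exists_Ioo_subset' h).mp (hr c hc01)
    have hu' : c < u := hu
    set d := min ((c + u) / 2) b with hd
    have hcd : c < d := lt_min (by linarith) h
    have hdS : d ∈ S := by
      refine ⟨⟨hac.trans hcd.le, min_le_right _ _⟩, fun s hs => ?_⟩
      rcases lt_trichotomy s c with h3 | h3 | h3
      · exact hlt s hs.1 h3
      · rw [h3]
        exact hfc
      · have h4 : s < u := by
          have := hs.2.trans (min_le_left _ _)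
          linarith
        exact hfc.trans (hu2 ⟨h3, h4⟩)
    exact absurd (le_csSup hbdd hdS) (not_le.mpr hcd)

/-! ### The main comparison -/

variable {ι : Type*} [Fintype ι] [DecidableEq ι]

/-- the form `x ↦ Re (xᴴ V x)` is positive on a subspace of codimension at most `κ` -/
def NearPos (V : Matrix ι ι ℂ) (κ : ℕ) : Prop :=
  ∃ W : Submodule ℂ (ι → ℂ), Fintype.card ι ≤ Module.finrank ℂ W + κ ∧
    ∀ x ∈ W, x ≠ 0 → 0 < (star x ⬝ᵥ (V *ᵥ x)).re

theorem ez_half_one : ez (1 / 2) = -1 := by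
  have h : (2 * (Real.pi : ℂ) * Complex.I * ((1 / 2 : ℝ) : ℂ)) = Real.pi * Complex.I := by
    push_cast
    ring
  unfold ez
  rw [h, Complex.exp_pi_mul_I]

theorem np_zero {V : Matrix ι ι ℂ} {κ : ℕ} (h : NearPos V κ) :
    Fintype.card ι ≤ np (el V 0) + κ := by
  obtain ⟨W, hW, hpos⟩ := h
  have h1 : Module.finrank ℂ W ≤ np (el V 0) := by
    refine np_of_form (el_sd V 0) W.subtype fun e he => ?_
    rw [qf_Hm, zero_div, ez_zero, one_mul]
    have := hpos (e : ι → ℂ) e.2 (fun h0 => he (Subtype.ext h0))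
    exact mul_pos two_pos this
  omega

theorem nn_one {V : Matrix ι ι ℂ} {κ : ℕ} (h : NearPos V κ) :
    Fintype.card ι ≤ np (fun j => - el V 1 j) + κ := by
  obtain ⟨W, hW, hpos⟩ := h
  have h1 : Module.finrank ℂ W ≤ np (fun j => - el V 1 j) := by
    refine np_of_form (el_sd V 1).neg W.subtype fun e he => ?_
    rw [qf_Hm, ez_half_one]
    have := hpos (e : ι → ℂ) e.2 (fun h0 => he (Subtype.ext h0))
    change 0 < - (2 * (-1 * vf V (e : ι → ℂ)).re)
    rw [neg_one_mul, Complex.neg_re]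
    change 0 < (vf V (e : ι → ℂ)).re at this
    linarith
  omega

/-- **Roots on arcs and positive eigenvalues.** -/
theorem arc_inertia {V : Matrix ι ι ℂ} {κ : ℕ} (h : NearPos V κ) (hP : pen V ≠ 0) :
    (pen V).roots.card ≤ arcN (pen V) 0 + 2 * κ ∧
    ∀ t ∈ Set.Ioo (0:ℝ) 1, |(arcN (pen V) t : ℝ) - np (el V t)| ≤ κ := by
  classical
  obtain ⟨A, E, hA, hE, hR⟩ := exists_split (pen V).roots
  set f : ℝ → ℤ := fun t => (np (el V t) : ℤ) - (A.countP (fun a => decide (t < a)) : ℕ) with hf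
  have hcardR : A.countP (fun a => decide ((0:ℝ) < a)) ≤ Fintype.card ι := by
    rw [← arcN_eq hA hE hR le_rfl]
    unfold arcN
    exact (Multiset.countP_le_card _ _).trans ((card_roots' _).trans (pen_natDegree V))
  have hl : ∀ t ∈ Set.Ioo (0:ℝ) 1, ∀ᶠ s in 𝓝[<] t, f s ≤ f t := by
    intro t ht
    filter_upwards [cnt_left A t, mem_nhdsWithin_of_mem_nhds (nn_el_lsc V t)] with s h1 h2
    have h3 := np_nn_nz (el V t)
    have h4 := np_nn_nz (el V s)
    have h5 := nz_le V hP t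
    rw [count_ez hA hE hR ht] at h5
    rw [hf]
    simp only
    rw [h1]
    push_cast
    omega
  have hr : ∀ t ∈ Set.Ioo (0:ℝ) 1, ∀ᶠ s in 𝓝[>] t, f t ≤ f s := by
    intro t ht
    filter_upwards [cnt_right A t, mem_nhdsWithin_of_mem_nhds (np_el_lsc V t)] with s h1 h2
    rw [hf]
    simp only
    rw [h1]
    omega
  -- near zero
  have h0 : ∀ᶠ s in 𝓝[>] (0:ℝ), (Fintype.card ι : ℤ) - κ -
      (A.countP (fun a => decide ((0:ℝ) < a)) : ℕ) ≤ f s := by
    filter_upwards [cnt_right A 0, mem_nhdsWithin_of_mem_nhds (np_el_lsc V 0)] with s h1 h2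
    have h3 := np_zero h
    rw [hf]
    simp only
    rw [h1]
    omega
  -- near one
  have h1 : ∀ᶠ s in 𝓝[<] (1:ℝ), f s ≤ κ := by
    filter_upwards [mem_nhdsWithin_of_mem_nhds (nn_el_lsc V 1)] with s h2
    have h3 := nn_one h
    have h4 := np_nn_nz (el V s)
    rw [hf]
    simp only
    omega
  have hlow : ∀ t ∈ Set.Ioo (0:ℝ) 1, (Fintype.card ι : ℤ) - κ -
      (A.countP (fun a => decide ((0:ℝ) < a)) : ℕ) ≤ f t := by
    intro t ht
    have h2 : ∀ᶠ s in 𝓝[>] (0:ℝ), s ∈ Set.Ioo 0 t := Ioo_mem_nhdsGT ht.1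
    obtain ⟨s, hs1, hs2⟩ := (h0.and h2).exists
    exact hs1.trans (mono_of_local f hl hr hs2.1 hs2.2.le ht.2)
  have hup : ∀ t ∈ Set.Ioo (0:ℝ) 1, f t ≤ κ := by
    intro t ht
    have h2 : ∀ᶠ s in 𝓝[<] (1:ℝ), s ∈ Set.Ioo t 1 := Ioo_mem_nhdsLT ht.2
    obtain ⟨s, hs1, hs2⟩ := (h1.and h2).exists
    exact (mono_of_local f hl hr ht.1 hs2.1.le hs2.2).trans hs1
  constructor
  · have h2 := hlow (1 / 2) (by norm_num)
    have h3 := hup (1 / 2) (by norm_num)
    have h4 := arcN_eq hA hE hR (le_refl (0:ℝ))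
    have h5 : (pen V).roots.card ≤ Fintype.card ι := (card_roots' _).trans (pen_natDegree V)
    omega
  · intro t ht
    have h2 := hlow t ht
    have h3 := hup t ht
    rw [arcN_eq hA hE hR ht.1.le]
    rw [abs_le]
    rw [hf] at h2 h3
    simp only at h2 h3
    have h4 : -(κ : ℤ) ≤ (np (el V t) : ℤ) - (A.countP (fun a => decide (t < a)) : ℕ) := by omega
    have h5 : -(κ : ℝ) ≤ (np (el V t) : ℝ) - (A.countP (fun a => decide (t < a)) : ℕ) := by
      exact_mod_cast h4
    have h6 : (np (el V t) : ℝ) - (A.countP (fun a => decide (t < a)) : ℕ) ≤ κ := by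
      exact_mod_cast h3
    constructor <;> linarith

end

end Pool.Agent.U72.NP
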