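import Mathlib
import Pool.Agent.U72.NP.Mono
import Pool.Agent.U72.NP.Height

/-!
# Pairs of isometries of a nearly definite Hermitian form that differ by a matrix of small rank
-/

set_option autoImplicit false

namespace Pool.Agent.U72.NP

open MeasureTheory Filter Topology Polynomial Matrix
open Pool.Agent.H261R2.CM Pool.Agent.W242.IM

noncomputable section

variable {ι : Type*} [Fintype ι] [DecidableEq ι]

/-- the Seifert form of an isometry `A` of the form `S` -/
def sf (S A : Matrix ι ι ℂ) : Matrix ι ι ℂ := S * (1 - A)⁻¹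

theorem sf_mul {S A : Matrix ι ι ℂ} (h1 : IsUnit (1 - A).det) : sf S A * (1 - A) = S := by
  unfold sf
  rw [Matrix.mul_assoc, nonsing_inv_mul _ h1, Matrix.mul_one]

theorem sf_conj {S A : Matrix ι ι ℂ} (hS : Sᴴ = S) (hA : Aᴴ * S * A = S)
    (h1 : IsUnit (1 - A).det) : (sf S A)ᴴ = S - sf S A := by
  have hV := sf_mul (S := S) h1
  set V := sf S A with hVdef
  have h2 : (1 - Aᴴ) * Vᴴ = S := by
    have := congrArg Matrix.conjTranspose hV
    rw [conjTranspose_mul, conjTranspose_sub, conjTranspose_one, hS] at this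
    exact this
  have h3 : (1 - Aᴴ) * (S - V) * (1 - A) = S * (1 - A) := by
    rw [Matrix.mul_assoc, Matrix.sub_mul S V, hV]
    have e : S * (1 - A) - S = -(S * A) := by
      rw [Matrix.mul_sub, Matrix.mul_one]
      abel
    rw [e, Matrix.mul_neg, Matrix.sub_mul, Matrix.one_mul, ← Matrix.mul_assoc, hA, Matrix.mul_sub,
      Matrix.mul_one]
    abel
  have h4 : (1 - Aᴴ) * (S - V) = S := by
    have h5 := congrArg (fun M => M * (1 - A)⁻¹) h3
    rw [Matrix.mul_assoc, mul_nonsing_inv _ h1, Matrix.mul_one, Matrix.mul_assoc,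
      mul_nonsing_inv _ h1, Matrix.mul_one] at h5
    exact h5
  have hu : IsUnit (1 - Aᴴ).det := by
    have : (1 - Aᴴ) = (1 - A)ᴴ := by rw [conjTranspose_sub, conjTranspose_one]
    rw [this, det_conjTranspose]
    exact h1.star
  have h6 := congrArg (fun M => (1 - Aᴴ)⁻¹ * M) (h2.trans h4.symm)
  rw [← Matrix.mul_assoc, ← Matrix.mul_assoc, nonsing_inv_mul _ hu, Matrix.one_mul,
    Matrix.one_mul] at h6
  exact h6

theorem sf_conj' {S A : Matrix ι ι ℂ} (hS : Sᴴ = S) (hA : Aᴴ * S * A = S)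
    (h1 : IsUnit (1 - A).det) : (sf S A)ᴴ = -(sf S A * A) := by
  rw [sf_conj hS hA h1]
  conv_lhs => rw [← sf_mul (S := S) h1]
  have : sf (sf S A * (1 - A)) A = sf S A := by rw [sf_mul h1]
  rw [this, Matrix.mul_sub, Matrix.mul_one]
  abel

theorem pen_sf {S A : Matrix ι ι ℂ} (hS : Sᴴ = S) (hA : Aᴴ * S * A = S)
    (h1 : IsUnit (1 - A).det) : pen (sf S A) = C (sf S A).det * A.charpoly := by
  unfold pen
  rw [sf_conj' hS hA h1]
  set V := sf S A with hV
  have h2 : (X : ℂ[X]) • V.map C + (-(V * A)).map C = V.map C * charmatrix A := by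
    ext1 i j
    simp only [Matrix.add_apply, Matrix.smul_apply, Matrix.map_apply, Matrix.neg_apply,
      smul_eq_mul, Matrix.mul_apply, charmatrix_apply]
    simp only [mul_sub, Finset.sum_sub_distrib, Matrix.diagonal_apply, mul_ite, mul_zero,
      Finset.sum_ite_eq', Finset.mem_univ, if_true]
    rw [map_neg, map_sum]
    simp only [map_mul]
    ring
  rw [h2, det_mul]
  congr 1
  exact (RingHom.map_det C V).symm

theorem sf_det {S A : Matrix ι ι ℂ} (hdet : IsUnit S.det) (h1 : IsUnit (1 - A).det) :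
    (sf S A).det ≠ 0 := by
  have h2 := congrArg Matrix.det (sf_mul (S := S) h1)
  rw [det_mul] at h2
  intro h0
  rw [h0, zero_mul] at h2
  exact hdet.ne_zero h2.symm

theorem pen_sf_ne {S A : Matrix ι ι ℂ} (hS : Sᴴ = S) (hdet : IsUnit S.det) (hA : Aᴴ * S * A = S)
    (h1 : IsUnit (1 - A).det) : pen (sf S A) ≠ 0 := by
  rw [pen_sf hS hA h1]
  exact mul_ne_zero (C_ne_zero.mpr (sf_det hdet h1)) (charpoly_monic A).ne_zero

theorem pen_sf_roots {S A : Matrix ι ι ℂ} (hS : Sᴴ = S) (hdet : IsUnit S.det)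
    (hA : Aᴴ * S * A = S) (h1 : IsUnit (1 - A).det) :
    (pen (sf S A)).roots = A.charpoly.roots := by
  rw [pen_sf hS hA h1, roots_C_mul _ (sf_det hdet h1)]

theorem sf_nearPos {S A : Matrix ι ι ℂ} {κ : ℕ} (hS : Sᴴ = S) (hA : Aᴴ * S * A = S)
    (h1 : IsUnit (1 - A).det) (h : NearPos S κ) : NearPos (sf S A) κ := by
  obtain ⟨W, hW, hpos⟩ := h
  refine ⟨W, hW, fun x hx hx0 => ?_⟩
  have h2 := hpos x hx hx0
  have h3 : S = sf S A + (sf S A)ᴴ := by
    rw [sf_conj hS hA h1]
    abel
  rw [h3, add_mulVec, dotProduct_add, Complex.add_re] at h2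
  have h4 : star x ⬝ᵥ ((sf S A)ᴴ *ᵥ x) = star (star x ⬝ᵥ (sf S A *ᵥ x)) := vf_conj (sf S A) x
  rw [h4] at h2
  simp only [Complex.star_def, Complex.conj_re] at h2
  linarith

/-- the difference of the Seifert forms has small rank -/
theorem sf_sub_rank {S A B : Matrix ι ι ℂ} (h1 : IsUnit (1 - A).det) (h2 : IsUnit (1 - B).det) :
    (sf S A - sf S B).rank ≤ (A - B).rank := by
  have e : sf S A - sf S B = (S * (1 - A)⁻¹) * ((A - B) * (1 - B)⁻¹) := by
    have h3 : (A - B) = (1 - B) - (1 - A) := by abel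
    unfold sf
    rw [h3, Matrix.sub_mul, mul_nonsing_inv _ h2, Matrix.mul_sub, Matrix.mul_one, ← Matrix.mul_assoc,
      Matrix.mul_assoc S, nonsing_inv_mul _ h1, Matrix.mul_one]
  rw [e]
  exact (rank_mul_le_right _ _).trans (rank_mul_le_left _ _)

/-- comparison of the numbers of positive eigenvalues -/
theorem np_rank (V V' : Matrix ι ι ℂ) (t : ℝ) :
    np (el V t) ≤ np (el V' t) + (V - V').rank := by
  have h1 := np_restrict (el_sd V' t) (el_sd V t) (LinearMap.ker (mulVecLin (V - V'))).subtype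
    (LinearMap.ker (mulVecLin (V - V'))).subtype Subtype.val_injective ?_
  · have h2 := LinearMap.finrank_range_add_finrank_ker (mulVecLin (V - V'))
    rw [Module.finrank_fintype_fun_eq_card] at h2
    have h3 : (V - V').rank = Module.finrank ℂ (LinearMap.range (mulVecLin (V - V'))) := rfl
    omega
  · intro e
    have h0 : (V - V') *ᵥ (e : ι → ℂ) = 0 := by
      have := e.2
      rw [LinearMap.mem_ker] at this
      exact this
    rw [sub_mulVec, sub_eq_zero] at h0
    rw [qf_Hm, qf_Hm]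
    congr 3
    unfold vf
    show star (e : ι → ℂ) ⬝ᵥ (V' *ᵥ (e : ι → ℂ)) = star (e : ι → ℂ) ⬝ᵥ (V *ᵥ (e : ι → ℂ))
    rw [h0]

/-! ### Rotations -/

omit [DecidableEq ι] in
theorem rot_iso {S A : Matrix ι ι ℂ} (hA : Aᴴ * S * A = S) (β : ℝ) :
    (ez (-β) • A)ᴴ * S * (ez (-β) • A) = S := by
  rw [conjTranspose_smul, star_ez, neg_neg, Matrix.smul_mul, Matrix.smul_mul, Matrix.mul_smul, hA,
    smul_smul, ← ez_add, add_neg_cancel, ez_zero, one_smul]

theorem rot_charpoly (A : Matrix ι ι ℂ) (β : ℝ) :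
    A.charpoly.comp (C (ez β) * X + C 0) =
      C (ez β ^ Fintype.card ι) * (ez (-β) • A).charpoly := by
  apply Polynomial.funext
  intro w
  rw [eval_comp, eval_mul, eval_C, eval_charpoly, eval_charpoly]
  have h2 : (eval w (C (ez β) * X + C 0)) = ez β * w := by simp
  rw [h2, ← det_smul]
  congr 1
  rw [smul_sub, smul_smul, ← ez_add, add_neg_cancel, ez_zero, one_smul]
  congr 1
  ext i j
  simp only [scalar_apply, Matrix.smul_apply, smul_eq_mul, diagonal_apply, mul_ite, mul_zero]

theorem ez_ne_zero (t : ℝ) : ez t ≠ 0 := by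
  rw [← norm_ne_zero_iff, D_norm_ez]
  exact one_ne_zero

theorem rot_roots (A : Matrix ι ι ℂ) (β : ℝ) :
    (ez (-β) • A).charpoly.roots.map (fun z => ez β * z) = A.charpoly.roots := by
  have h1 := map_roots_comp_C_mul_X_add_C A.charpoly (ez β) 0 (isUnit_iff_ne_zero.mpr (ez_ne_zero β))
  rw [rot_charpoly, roots_C_mul _ (pow_ne_zero _ (ez_ne_zero β))] at h1
  simpa using h1

theorem rot_det {A : Matrix ι ι ℂ} {β : ℝ} (h : A.charpoly.eval (ez β) ≠ 0) :
    IsUnit (1 - ez (-β) • A).det := by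
  rw [isUnit_iff_ne_zero]
  intro h0
  apply h
  rw [eval_charpoly]
  have e : scalar ι (ez β) - A = ez β • (1 - ez (-β) • A) := by
    rw [smul_sub, smul_smul, ← ez_add, add_neg_cancel, ez_zero, one_smul]
    congr 1
    ext i j
    simp only [scalar_apply, Matrix.smul_apply, smul_eq_mul, diagonal_apply, one_apply, mul_ite,
      mul_zero, mul_one]
  rw [e, det_smul, h0, mul_zero]

/-! ### Counting -/

theorem countP_le_add {α : Type*} (R : Multiset α) (p q r : α → Prop) [DecidablePred p]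
    [DecidablePred q] [DecidablePred r] (h : ∀ a ∈ R, p a → q a ∨ r a) :
    R.countP p ≤ R.countP q + R.countP r := by
  induction R using Multiset.induction_on with
  | empty => simp
  | cons a R ih =>
    have ih' := ih (fun b hb => h b (Multiset.mem_cons_of_mem hb))
    have ha := h a (Multiset.mem_cons_self a R)
    rw [Multiset.countP_cons, Multiset.countP_cons, Multiset.countP_cons]
    split_ifs with h1 h2 h3 <;> first | omega | (exfalso; tauto)

/-- comparison of the two counting functions -/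
theorem turn_arc (P : ℂ[X]) {x : ℝ} (hx : 0 ≤ x) :
    |((P.roots.filter (fun z => x < turn z)).card : ℝ) - arcN P x| ≤
      P.roots.card - arcN P 0 := by
  classical
  have h1 : arcN P x ≤ (P.roots.filter (fun z => x < turn z)).card := by
    rw [← Multiset.countP_eq_card_filter]
    unfold arcN
    have := countP_le_add P.roots (fun z => z ∈ arc x) (fun z => x < turn z) (fun _ => False) ?_
    · simpa using this
    · rintro z _ ⟨a, ha, rfl⟩
      left
      rw [turn_ez ⟨hx.trans ha.1.le, ha.2⟩]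
      exact ha.1
  have h2 : (P.roots.filter (fun z => x < turn z)).card ≤
      arcN P x + P.roots.countP (fun z => ¬ z ∈ arc 0) := by
    rw [← Multiset.countP_eq_card_filter]
    unfold arcN
    refine countP_le_add P.roots _ _ _ fun z _ hz => ?_
    by_cases h0 : z ∈ arc 0
    · left
      obtain ⟨a, ha, rfl⟩ := h0
      rw [turn_ez ⟨ha.1.le, ha.2⟩] at hz
      exact ⟨a, ⟨hz, ha.2⟩, rfl⟩
    · right
      exact h0
  have h3 : P.roots.card = arcN P 0 + P.roots.countP (fun z => ¬ z ∈ arc 0) := by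
    unfold arcN
    rw [Multiset.card_eq_countP_add_countP (fun z => z ∈ arc 0)]
  have h4 : (arcN P x : ℝ) ≤ ((P.roots.filter (fun z => x < turn z)).card : ℝ) := by
    exact_mod_cast h1
  have h5 : ((P.roots.filter (fun z => x < turn z)).card : ℝ) ≤
      arcN P x + (P.roots.countP (fun z => ¬ z ∈ arc 0) : ℝ) := by exact_mod_cast h2
  have h6 : (P.roots.card : ℝ) = arcN P 0 + (P.roots.countP (fun z => ¬ z ∈ arc 0) : ℝ) := by
    exact_mod_cast h3
  rw [h6, abs_le]
  constructor <;> linarith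

/-- the zeros above `x` and the positive eigenvalues -/
theorem above_np {V : Matrix ι ι ℂ} {κ : ℕ} (h : NearPos V κ) (hP : pen V ≠ 0) {x : ℝ}
    (hx : x ∈ Set.Ioo (0:ℝ) 1) :
    |(((pen V).roots.filter (fun z => x < turn z)).card : ℝ) - np (el V x)| ≤ 3 * κ := by
  obtain ⟨h1, h2⟩ := arc_inertia h hP
  have h3 := turn_arc (pen V) hx.1.le
  have h4 := h2 x hx
  have h5 : ((pen V).roots.card : ℝ) ≤ arcN (pen V) 0 + 2 * κ := by exact_mod_cast h1
  have e : (((pen V).roots.filter (fun z => x < turn z)).card : ℝ) - np (el V x) =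
      ((((pen V).roots.filter (fun z => x < turn z)).card : ℝ) - arcN (pen V) x) +
      ((arcN (pen V) x : ℝ) - np (el V x)) := by ring
  rw [e]
  exact (abs_add_le _ _).trans (by linarith)

theorem aboveR_eq {F : ℤ[X]} {A : Matrix ι ι ℂ} (hF : toC F = A.charpoly) (β x : ℝ) :
    aboveR F β x = ((ez (-β) • A).charpoly.roots.filter (fun z => x < turn z)).card := by
  unfold aboveR
  rw [hF, ← rot_roots A β, Multiset.filter_map, Multiset.card_map]
  congr 1
  refine Multiset.filter_congr fun z _ => ?_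
  simp only [Function.comp]
  rw [← mul_assoc, ← ez_add, neg_add_cancel, ez_zero, one_mul]

theorem aboveR_np {S A : Matrix ι ι ℂ} {κ : ℕ} (hS : Sᴴ = S) (hdet : IsUnit S.det)
    (hA : Aᴴ * S * A = S) (h : NearPos S κ) {F : ℤ[X]} (hF : toC F = A.charpoly) {β : ℝ}
    (hβ : A.charpoly.eval (ez β) ≠ 0) {x : ℝ} (hx : x ∈ Set.Ioo (0:ℝ) 1) :
    |(aboveR F β x : ℝ) - np (el (sf S (ez (-β) • A)) x)| ≤ 3 * κ := by
  have h1 := rot_det hβ
  have h2 := rot_iso hA β
  rw [aboveR_eq hF, ← pen_sf_roots hS hdet h2 h1]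
  exact above_np (sf_nearPos hS h2 h1 h) (pen_sf_ne hS hdet h2 h1) hx

theorem aboveR_sq_int (F G : ℤ[X]) (β : ℝ) :
    IntervalIntegrable (fun x => ((aboveR F β x : ℝ) - aboveR G β x) ^ 2) volume 0 1 := by
  have := cnsq_int ((toC F).roots.toList.map (fun z => turn (ez (-β) * z)))
    ((toC G).roots.toList.map (fun z => turn (ez (-β) * z)))
  simpa only [cn_turn_rot] using this

theorem iso_coeff {S A : Matrix ι ι ℂ} (hdet : IsUnit S.det) (hA : Aᴴ * S * A = S) {F : ℤ[X]}
    (hF : toC F = A.charpoly) : F.coeff 0 ≠ 0 := by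
  intro h0
  have h1 : A.charpoly.eval 0 = 0 := by
    rw [← hF, ← coeff_zero_eq_eval_zero, toC, coeff_map, h0]
    simp
  rw [eval_charpoly] at h1
  have h2 : (scalar ι (0:ℂ) - A).det = (-A).det := by
    congr 1
    ext i j
    simp
  rw [h2, det_neg] at h1
  have h3 : A.det = 0 := by
    rcases mul_eq_zero.mp h1 with h4 | h4
    · exact absurd h4 (pow_ne_zero _ (by norm_num))
    · exact h4
  have h4 := congrArg Matrix.det hA
  rw [det_mul, h3, mul_zero] at h4
  exact hdet.ne_zero h4.symm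

/-- **The height of a pair of isometries.** -/
theorem iso_pair {S A B : Matrix ι ι ℂ} {κ s : ℕ} (hS : Sᴴ = S) (hdet : IsUnit S.det)
    (hA : Aᴴ * S * A = S) (hB : Bᴴ * S * B = S) (h : NearPos S κ) (hrank : (A - B).rank ≤ s)
    {F G : ℤ[X]} (hF : toC F = A.charpoly) (hG : toC G = B.charpoly) :
    mx1 F G ≤ 3 * max (Real.log (m1 F)) (Real.log (m1 G)) + 18 * (κ + s) := by
  have hF0 := iso_coeff hdet hA hF
  have hG0 := iso_coeff hdet hB hG
  have hFn : F ≠ 0 := by
    rintro rfl
    exact hF0 (coeff_zero 0)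
  have hGn : G ≠ 0 := by
    rintro rfl
    exact hG0 (coeff_zero 0)
  obtain ⟨β, hβF, hβG⟩ : ∃ β : ℝ, ev1 F β ≠ 0 ∧ ev1 G β ≠ 0 := by
    have h1 := (D_ae_ne F hFn).and (D_ae_ne G hGn)
    exact h1.exists
  unfold ev1 at hβF hβG
  rw [hF] at hβF
  rw [hG] at hβG
  have hdF : F.natDegree = Fintype.card ι := by
    rw [← charpoly_natDegree_eq_dim A, ← hF, toC,
      natDegree_map_eq_of_injective (RingHom.injective_int _)]
  have hdG : G.natDegree = Fintype.card ι := by
    rw [← charpoly_natDegree_eq_dim B, ← hG, toC,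
      natDegree_map_eq_of_injective (RingHom.injective_int _)]
  have h1A := rot_det hβF
  have h1B := rot_det hβG
  set V := sf S (ez (-β) • A) with hV
  set V' := sf S (ez (-β) • B) with hV'
  have hr1 : (V - V').rank ≤ s := by
    refine (sf_sub_rank h1A h1B).trans ?_
    rw [← smul_sub]
    refine le_trans ?_ hrank
    have e : ez (-β) • (A - B) = (ez (-β) • (1 : Matrix ι ι ℂ)) * (A - B) := by
      rw [Matrix.smul_mul, Matrix.one_mul]
    rw [e]
    exact rank_mul_le_right _ _
  have hr2 : (V' - V).rank ≤ s := by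
    have e : V' - V = (-1 : Matrix ι ι ℂ) * (V - V') := by
      rw [neg_one_mul]
      abel
    rw [e]
    exact (rank_mul_le_right _ _).trans hr1
  have hpt : ∀ x ∈ Set.Ioo (0:ℝ) 1, ((aboveR F β x : ℝ) - aboveR G β x) ^ 2 ≤
      (6 * (κ + s) : ℝ) ^ 2 := by
    intro x hx
    have h1 := aboveR_np hS hdet hA h hF hβF hx
    have h2 := aboveR_np hS hdet hB h hG hβG hx
    have h3 : (np (el V x) : ℝ) ≤ np (el V' x) + s := by
      have := (np_rank V V' x).trans (Nat.add_le_add_left hr1 _)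
      exact_mod_cast this
    have h4 : (np (el V' x) : ℝ) ≤ np (el V x) + s := by
      have := (np_rank V' V x).trans (Nat.add_le_add_left hr2 _)
      exact_mod_cast this
    rw [abs_le] at h1 h2
    have hs0 : (0:ℝ) ≤ s := Nat.cast_nonneg _
    have hk0 : (0:ℝ) ≤ κ := Nat.cast_nonneg _
    rw [← sq_abs]
    refine pow_le_pow_left₀ (abs_nonneg _) ?_ 2
    rw [abs_le]
    constructor <;> linarith [h1.1, h1.2, h2.1, h2.2]
  have hph := pair_height_rot F G hF0 hG0 (6 * (κ + s)) (by positivity)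
    (by rw [hdF, hdG, sub_self, abs_zero]; positivity) β 0 (by
      simp only [sub_zero]
      calc ∫ x in (0:ℝ)..1, ((aboveR F β x : ℝ) - aboveR G β x) ^ 2
          ≤ ∫ _ in (0:ℝ)..1, (6 * (κ + s) : ℝ) ^ 2 :=
            intervalIntegral.integral_mono_on_of_le_Ioo zero_le_one (aboveR_sq_int F G β)
              intervalIntegrable_const hpt
        _ = (6 * (κ + s) : ℝ) ^ 2 := by simp)
  linarith

end

end Pool.Agent.U72.NP
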