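import Mathlib
import Pool.Agent.U72.NP.Iso
import Pool.Agent.U72.NP.Uniform

/-!
# Lehmer type bounds for pairs of isometries
-/

set_option autoImplicit false

namespace Pool.Agent.U72.NP

open MeasureTheory Filter Topology Polynomial Matrix
open Pool.Agent.H261R2.CM Pool.Agent.W242.IM

noncomputable section

/-- a rate for pairs of polynomials of the same degree -/
theorem pair_rate : ∃ c : ℝ, 0 < c ∧ ∀ (f G : ℤ[X]) (K : ℝ), 0 ≤ K → Irreducible f → ¬ f ∣ G →
    1 < m1 f → G.natDegree ≤ f.natDegree →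
    mx1 f G ≤ 3 * max (Real.log (m1 f)) (Real.log (m1 G)) + K →
    c / (1 + K + Real.log (m1 G)) ^ 3 ≤ Real.log (m1 f) := by
  obtain ⟨c1, hc1, hmain⟩ := Pool.Agent.R328.pair_main
  have hlog2 : 0 < Real.log 2 := Real.log_pos (by norm_num)
  have hlog2' := Real.log_two_lt_d9
  set c := min (c1 / 512) (Real.log 2) with hc
  have hc0 : 0 < c := lt_min (by positivity) hlog2
  refine ⟨c, hc0, ?_⟩
  intro f G K hK hf hdvd hM hdeg hph
  have hG0 : G ≠ 0 := by
    rintro rfl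
    exact hdvd (dvd_zero f)
  have hLG : 0 ≤ Real.log (m1 G) := Real.log_nonneg (I1_one_le_m1 hG0)
  have hW1 : 1 ≤ 1 + K + Real.log (m1 G) := by linarith
  by_cases hbig : 2 ≤ m1 f
  · have h1 : c ≤ Real.log 2 := min_le_right _ _
    have h2 : Real.log 2 ≤ Real.log (m1 f) := Real.log_le_log (by norm_num) hbig
    have h3 : c / (1 + K + Real.log (m1 G)) ^ 3 ≤ c := div_le_self hc0.le (one_le_pow₀ hW1)
    linarith
  push Not at hbig
  have hlf : Real.log (m1 f) ≤ Real.log 2 := Real.log_le_log (by linarith) hbig.le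
  have hMM : 1 < Pool.Agent.H388SL.MM f := hM
  have hm := hmain f G 1 one_pos hf hdvd hMM
  rw [avg_PM_pow, pow_one] at hm
  have hnn := Pool.Agent.R328.PM_nonneg hf.ne_zero hMM.le G 1
  rw [avg_PM_pow, pow_one] at hnn
  refine le_trans ?_ hm
  have h1 : (G.natDegree : ℝ) / (((1:ℕ) : ℝ) * f.natDegree) ≤ 1 := by
    rw [Nat.cast_one, one_mul]
    apply div_le_one_of_le₀ _ (Nat.cast_nonneg _)
    exact_mod_cast hdeg
  have h2 : (0:ℝ) ≤ (G.natDegree : ℝ) / (((1:ℕ) : ℝ) * f.natDegree) := by positivity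
  have h3 : mx1 f G / ((1:ℕ) : ℝ) ≤ 3 * Real.log 2 + 3 * Real.log (m1 G) + K := by
    rw [Nat.cast_one, div_one]
    have h4 : max (Real.log (m1 f)) (Real.log (m1 G)) ≤ Real.log 2 + Real.log (m1 G) :=
      max_le (by linarith) (by linarith)
    linarith
  have h5 : 0 ≤ mx1 f G / ((1:ℕ) : ℝ) := by positivity
  have h6 : (1 + (G.natDegree : ℝ) / (((1:ℕ) : ℝ) * f.natDegree)) * (1 + mx1 f G / ((1:ℕ) : ℝ)) ≤
      8 * (1 + K + Real.log (m1 G)) := by
    calc _ ≤ 2 * (4 * (1 + K + Real.log (m1 G))) := by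
          apply mul_le_mul (by linarith) _ (by linarith) (by norm_num)
          linarith
      _ = _ := by ring
  have h7 : 0 < (1 + (G.natDegree : ℝ) / (((1:ℕ) : ℝ) * f.natDegree)) *
      (1 + mx1 f G / ((1:ℕ) : ℝ)) := by positivity
  calc c / (1 + K + Real.log (m1 G)) ^ 3 ≤ (c1 / 512) / (1 + K + Real.log (m1 G)) ^ 3 :=
        div_le_div_of_nonneg_right (min_le_left _ _) (by positivity)
    _ = c1 / (8 * (1 + K + Real.log (m1 G))) ^ 3 := by rw [mul_pow, div_div]; norm_num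
    _ ≤ _ := by
      apply div_le_div_of_nonneg_left hc1.le (by positivity)
      exact pow_le_pow_left₀ h7.le h6 3

/-- the gap for pairs of bounded height -/
theorem gap_height (K L : ℝ) : ∃ μ : ℝ, 1 < μ ∧ ∀ F G : ℤ[X], F ≠ 0 → G ≠ 0 →
    mx1 F G ≤ 3 * max (Real.log (m1 F)) (Real.log (m1 G)) + K → m1 G ≤ L →
    μ ≤ m1 F ∨ ∃ D : ℤ[X], D ∣ F ∧ D ∣ G ∧ m1 D = m1 F := by
  set B := Real.log (max 2 L) with hB
  obtain ⟨c, hc, hgap⟩ := gap_one (3 * B + K)
  refine ⟨min c 2, lt_min hc (by norm_num), fun F G hF0 hG0 hph hL => ?_⟩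
  rcases le_or_gt 2 (m1 F) with h2 | h2
  · left
    exact (min_le_right _ _).trans h2
  have h1F := I1_one_le_m1 hF0
  have h1G := I1_one_le_m1 hG0
  have hFB : Real.log (m1 F) ≤ B := Real.log_le_log (by linarith) (h2.le.trans (le_max_left _ _))
  have hGB : Real.log (m1 G) ≤ B := Real.log_le_log (by linarith) (hL.trans (le_max_right _ _))
  have hmax := max_le hFB hGB
  obtain ⟨F', G', D, hF', hG', hD0, hrel, hDF, hDG, hle⟩ := reduce F G hF0 hG0
  have hmF : m1 F = m1 D * m1 F' := by rw [hDF, I1_m1_mul]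
  rcases hgap F' G' hF' hG' hrel (hle.trans (by linarith)) with h3 | h3
  · right
    refine ⟨D, ⟨F', hDF⟩, ⟨G', hDG⟩, ?_⟩
    rw [hmF, h3, mul_one]
  · left
    have h4 := I1_one_le_m1 hD0
    refine (min_le_left _ _).trans ?_
    rw [hmF]
    nlinarith

end

end Pool.Agent.U72.NP
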