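import Mathlib
import Pool.Agent.U72.NP.IsoRate

/-!
# Isometries of Lorentzian forms: the Mahler measure and the displacement
-/

set_option autoImplicit false

namespace Pool.Agent.U72.NP

open Polynomial Matrix
open Pool.Agent.H261R2.CM

noncomputable section

/-! ### Isotropic generalized eigenspaces -/

section herm
set_option linter.unusedSectionVars false
variable {ι : Type} [Fintype ι] [DecidableEq ι]

/-- sesquilinear form -/
def hf (S : Matrix ι ι ℂ) (z w : ι → ℂ) : ℂ := star z ⬝ᵥ (S *ᵥ w)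

theorem hf_add_left (S : Matrix ι ι ℂ) (z z' w : ι → ℂ) : hf S (z + z') w = hf S z w + hf S z' w := by
  simp [hf, add_dotProduct]

theorem hf_add_right (S : Matrix ι ι ℂ) (z w w' : ι → ℂ) : hf S z (w + w') = hf S z w + hf S z w' := by
  simp [hf, mulVec_add, dotProduct_add]

theorem hf_smul_left (S : Matrix ι ι ℂ) (c : ℂ) (z w : ι → ℂ) :
    hf S (c • z) w = star c * hf S z w := by
  simp [hf, smul_dotProduct]

theorem hf_smul_right (S : Matrix ι ι ℂ) (c : ℂ) (z w : ι → ℂ) :
    hf S z (c • w) = c * hf S z w := by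
  simp [hf, mulVec_smul, dotProduct_smul]

theorem hf_zero_left (S : Matrix ι ι ℂ) (w : ι → ℂ) : hf S 0 w = 0 := by
  simp [hf]

theorem hf_zero_right (S : Matrix ι ι ℂ) (w : ι → ℂ) : hf S w 0 = 0 := by
  simp [hf]

theorem hf_iso {S B : Matrix ι ι ℂ} (hB : Bᴴ * S * B = S) (z w : ι → ℂ) :
    hf S (B *ᵥ z) (B *ᵥ w) = hf S z w := by
  unfold hf
  rw [star_mulVec, ← dotProduct_mulVec, mulVec_mulVec, mulVec_mulVec, hB]

theorem gen_iso {S B : Matrix ι ι ℂ} (hB : Bᴴ * S * B = S) {μ ν : ℂ} (h : star μ * ν ≠ 1) :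
    ∀ m k l : ℕ, k + l ≤ m → ∀ z w : ι → ℂ,
      ((Matrix.toLin' B - μ • (1 : Module.End ℂ (ι → ℂ))) ^ k) z = 0 →
      ((Matrix.toLin' B - ν • (1 : Module.End ℂ (ι → ℂ))) ^ l) w = 0 → hf S z w = 0 := by
  intro m
  induction m with
  | zero =>
    intro k l hkl z w hz _
    have hk : k = 0 := by omega
    subst hk
    have hz0 : z = 0 := by simpa using hz
    rw [hz0, hf_zero_left]
  | succ m ih =>
    intro k l hkl z w hz hw
    rcases k with _ | k
    · have hz0 : z = 0 := by simpa using hz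
      rw [hz0, hf_zero_left]
    rcases l with _ | l
    · have hw0 : w = 0 := by simpa using hw
      rw [hw0, hf_zero_right]
    set z' := (Matrix.toLin' B - μ • (1 : Module.End ℂ (ι → ℂ))) z with hz'
    set w' := (Matrix.toLin' B - ν • (1 : Module.End ℂ (ι → ℂ))) w with hw'
    have hz1 : ((Matrix.toLin' B - μ • (1 : Module.End ℂ (ι → ℂ))) ^ k) z' = 0 := by
      rw [pow_succ] at hz
      exact hz
    have hw1 : ((Matrix.toLin' B - ν • (1 : Module.End ℂ (ι → ℂ))) ^ l) w' = 0 := by
      rw [pow_succ] at hw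
      exact hw
    have hBz : B *ᵥ z = μ • z + z' := by
      rw [hz']
      simp [Matrix.toLin'_apply]
    have hBw : B *ᵥ w = ν • w + w' := by
      rw [hw']
      simp [Matrix.toLin'_apply]
    have h1 : hf S z w' = 0 := ih (k + 1) l (by omega) z w' hz hw1
    have h2 : hf S z' w = 0 := ih k (l + 1) (by omega) z' w hz1 hw
    have h3 : hf S z' w' = 0 := ih k l (by omega) z' w' hz1 hw1
    have h4 := hf_iso hB z w
    rw [hBz, hBw, hf_add_left, hf_add_right, hf_add_right, hf_smul_left, hf_smul_right,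
      hf_smul_left, hf_smul_right, h1, h2, h3] at h4
    have h5 : (star μ * ν - 1) * hf S z w = 0 := by linear_combination h4
    rcases mul_eq_zero.mp h5 with h6 | h6
    · exact absurd (sub_eq_zero.mp h6) h
    · exact h6

theorem norm_conj_mul_ne {a b : ℂ} (ha : 1 < ‖a‖) (hb : 1 < ‖b‖) : star a * b ≠ 1 := by
  intro h
  have h1 : ‖star a * b‖ = 1 := by rw [h]; simp
  rw [norm_mul, norm_star] at h1
  nlinarith

/-- two expanding eigenvalues give an isotropic plane -/
theorem iso_plane {S B : Matrix ι ι ℂ} (hB : Bᴴ * S * B = S)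
    (h2 : 2 ≤ (B.charpoly.roots.filter (fun z => 1 < ‖z‖)).card) :
    ∃ w1 w2 : ι → ℂ, LinearIndependent ℂ ![w1, w2] ∧ hf S w1 w1 = 0 ∧ hf S w1 w2 = 0 ∧
      hf S w2 w1 = 0 ∧ hf S w2 w2 = 0 := by
  classical
  set R := B.charpoly.roots.filter (fun z => 1 < ‖z‖) with hR
  obtain ⟨a, R', hR'⟩ : ∃ a R', R = a ::ₘ R' := by
    obtain ⟨a, ha⟩ := Multiset.card_pos_iff_exists_mem.mp (by omega : 0 < R.card)
    exact ⟨a, Multiset.exists_cons_of_mem ha⟩
  obtain ⟨b, R'', hR''⟩ : ∃ b R'', R' = b ::ₘ R'' := by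
    have h3 : 0 < R'.card := by
      rw [hR', Multiset.card_cons] at h2
      omega
    obtain ⟨b, hb⟩ := Multiset.card_pos_iff_exists_mem.mp h3
    exact ⟨b, Multiset.exists_cons_of_mem hb⟩
  have haR : a ∈ R := by rw [hR']; simp
  have hbR : b ∈ R := by rw [hR', hR'']; simp
  have ha1 : 1 < ‖a‖ := (Multiset.mem_filter.mp haR).2
  have hb1 : 1 < ‖b‖ := (Multiset.mem_filter.mp hbR).2
  set φ : Module.End ℂ (ι → ℂ) := Matrix.toLin' B with hφ
  have hchar : φ.charpoly = B.charpoly := by
    rw [hφ, Matrix.charpoly_toLin']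
  have hE : ∀ c d : ℂ, 1 < ‖c‖ → 1 < ‖d‖ → ∀ z ∈ φ.maxGenEigenspace c,
      ∀ w ∈ φ.maxGenEigenspace d, hf S z w = 0 := by
    intro c d hc hd z hz w hw
    obtain ⟨k, hk⟩ := (Module.End.mem_maxGenEigenspace φ c z).mp hz
    obtain ⟨l, hl⟩ := (Module.End.mem_maxGenEigenspace φ d w).mp hw
    exact gen_iso hB (norm_conj_mul_ne hc hd) (k + l) k l le_rfl z w hk hl
  by_cases hab : a = b
  · subst hab
    have hc : 2 ≤ B.charpoly.rootMultiplicity a := by
      rw [← count_roots]
      have h4 : R.count a ≤ B.charpoly.roots.count a :=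
        Multiset.count_le_of_le _ (Multiset.filter_le _ _)
      have h5 : 2 ≤ R.count a := by
        rw [hR', hR'', Multiset.count_cons_self, Multiset.count_cons_self]
        omega
      omega
    have hfin : 1 < Module.finrank ℂ (φ.maxGenEigenspace a) := by
      rw [LinearMap.finrank_maxGenEigenspace_eq, hchar]
      omega
    obtain ⟨w1, hw1⟩ : ∃ w : φ.maxGenEigenspace a, w ≠ 0 := by
      have : Nontrivial (φ.maxGenEigenspace a) :=
        Module.nontrivial_of_finrank_pos (lt_trans one_pos hfin)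
      exact exists_ne 0
    obtain ⟨w2, hw2⟩ := exists_linearIndependent_pair_of_one_lt_finrank hfin hw1
    refine ⟨w1, w2, ?_, hE a a ha1 ha1 _ w1.2 _ w1.2, hE a a ha1 ha1 _ w1.2 _ w2.2,
      hE a a ha1 ha1 _ w2.2 _ w1.2, hE a a ha1 ha1 _ w2.2 _ w2.2⟩
    have h6 := hw2.map' (φ.maxGenEigenspace a).subtype (Submodule.ker_subtype _)
    have e : (φ.maxGenEigenspace a).subtype ∘ ![w1, w2] = ![(w1 : ι → ℂ), (w2 : ι → ℂ)] := by
      ext i
      fin_cases i <;> rfl
    rwa [e] at h6
  · have hne : ∀ c ∈ R, ∃ w ∈ φ.maxGenEigenspace c, w ≠ 0 := by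
      intro c hc
      have hc' : c ∈ B.charpoly.roots := (Multiset.mem_filter.mp hc).1
      have h4 : 1 ≤ B.charpoly.rootMultiplicity c := by
        rw [← count_roots]
        exact Multiset.one_le_count_iff_mem.mpr hc'
      have hfin : 0 < Module.finrank ℂ (φ.maxGenEigenspace c) := by
        rw [LinearMap.finrank_maxGenEigenspace_eq, hchar]
        omega
      have : Nontrivial (φ.maxGenEigenspace c) := Module.nontrivial_of_finrank_pos hfin
      obtain ⟨w, hw⟩ := exists_ne (0 : φ.maxGenEigenspace c)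
      exact ⟨w, w.2, fun h => hw (Subtype.ext h)⟩
    obtain ⟨w1, hw1, hw10⟩ := hne a haR
    obtain ⟨w2, hw2, hw20⟩ := hne b hbR
    refine ⟨w1, w2, ?_, hE a a ha1 ha1 _ hw1 _ hw1, hE a b ha1 hb1 _ hw1 _ hw2,
      hE b a hb1 ha1 _ hw2 _ hw1, hE b b hb1 hb1 _ hw2 _ hw2⟩
    have hdis : Disjoint (φ.maxGenEigenspace a) (φ.maxGenEigenspace b) :=
      φ.independent_maxGenEigenspace.pairwiseDisjoint hab
    rw [LinearIndependent.pair_iff]
    intro c d hcd
    have h7 : c • w1 ∈ φ.maxGenEigenspace a := Submodule.smul_mem _ _ hw1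
    have h8 : c • w1 ∈ φ.maxGenEigenspace b := by
      have : c • w1 = -(d • w2) := eq_neg_of_add_eq_zero_left hcd
      rw [this]
      exact Submodule.neg_mem _ (Submodule.smul_mem _ _ hw2)
    have h9 : c • w1 = 0 := (Submodule.disjoint_def.mp hdis) _ h7 h8
    have h10 : c = 0 := (smul_eq_zero.mp h9).resolve_right hw10
    rw [h10, zero_smul, zero_add] at hcd
    exact ⟨h10, (smul_eq_zero.mp hcd).resolve_right hw20⟩

end herm

/-! ### Real Lorentzian forms -/

variable {n : ℕ}

/-- real bilinear form -/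
def bf (S : Matrix (Fin n) (Fin n) ℝ) (x y : Fin n → ℝ) : ℝ := x ⬝ᵥ (S *ᵥ y)

theorem bf_add_left (S : Matrix (Fin n) (Fin n) ℝ) (z z' w : Fin n → ℝ) :
    bf S (z + z') w = bf S z w + bf S z' w := by
  simp [bf, add_dotProduct]

theorem bf_add_right (S : Matrix (Fin n) (Fin n) ℝ) (z w w' : Fin n → ℝ) :
    bf S z (w + w') = bf S z w + bf S z w' := by
  simp [bf, mulVec_add, dotProduct_add]

theorem bf_smul_left (S : Matrix (Fin n) (Fin n) ℝ) (c : ℝ) (z w : Fin n → ℝ) :
    bf S (c • z) w = c * bf S z w := by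
  simp [bf, smul_dotProduct]

theorem bf_smul_right (S : Matrix (Fin n) (Fin n) ℝ) (c : ℝ) (z w : Fin n → ℝ) :
    bf S z (c • w) = c * bf S z w := by
  simp [bf, mulVec_smul, dotProduct_smul]

theorem bf_comm {S : Matrix (Fin n) (Fin n) ℝ} (hS : Sᵀ = S) (x y : Fin n → ℝ) :
    bf S x y = bf S y x := by
  unfold bf
  rw [dotProduct_mulVec, dotProduct_comm, ← mulVec_transpose, hS]

theorem bf_iso {S B : Matrix (Fin n) (Fin n) ℝ} (hB : Bᵀ * S * B = S) (z w : Fin n → ℝ) :
    bf S (B *ᵥ z) (B *ᵥ w) = bf S z w := by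
  unfold bf
  rw [← vecMul_transpose, ← dotProduct_mulVec, mulVec_mulVec, mulVec_mulVec, hB]

/-- the form `S` is Lorentzian and the vector `x` is timelike -/
structure Lor (S : Matrix (Fin n) (Fin n) ℝ) (x : Fin n → ℝ) : Prop where
  symm : Sᵀ = S
  neg : bf S x x < 0
  pos : ∀ y, y ≠ 0 → bf S x y = 0 → 0 < bf S y y

/-- the complex matrix -/
def cx (S : Matrix (Fin n) (Fin n) ℝ) : Matrix (Fin n) (Fin n) ℂ := S.map (algebraMap ℝ ℂ)

theorem Lor.nonneg {S : Matrix (Fin n) (Fin n) ℝ} {x : Fin n → ℝ} (h : Lor S x) {y : Fin n → ℝ}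
    (hy : bf S x y = 0) : 0 ≤ bf S y y := by
  rcases eq_or_ne y 0 with h0 | h0
  · rw [h0]
    simp [bf]
  · exact (h.pos y h0 hy).le

/-- other timelike vectors -/
theorem Lor.of_neg {S : Matrix (Fin n) (Fin n) ℝ} {x₀ x : Fin n → ℝ} (h : Lor S x₀)
    (hx : bf S x x < 0) : Lor S x := by
  refine ⟨h.symm, hx, fun y hy hxy => ?_⟩
  by_contra hneg
  rw [not_lt] at hneg
  have hyx : bf S y x = 0 := by rw [bf_comm h.symm]; exact hxy
  have hx0 : bf S x₀ x ≠ 0 := by
    intro h0
    exact absurd (h.nonneg h0) (not_le.mpr hx)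
  set z := bf S x₀ x • y - bf S x₀ y • x with hz
  have hz' : z = bf S x₀ x • y + (-bf S x₀ y) • x := by
    rw [hz, neg_smul, sub_eq_add_neg]
  have h1 : bf S x₀ z = 0 := by
    rw [hz', bf_add_right, bf_smul_right, bf_smul_right]
    ring
  have h2 : bf S z z = bf S x₀ x ^ 2 * bf S y y + bf S x₀ y ^ 2 * bf S x x := by
    rw [hz', bf_add_right, bf_add_left, bf_add_left, bf_smul_left, bf_smul_left,
      bf_smul_right, bf_smul_right, bf_smul_left, bf_smul_right, bf_smul_left, bf_smul_right,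
      hxy, hyx]
    ring
  have hz0 : z ≠ 0 := by
    intro h0
    have h3 : bf S z y = 0 := by rw [h0]; simp [bf]
    rw [hz', bf_add_left, bf_smul_left, bf_smul_left, hxy] at h3
    have h4 : bf S x z = 0 := by rw [h0]; simp [bf]
    rw [hz', bf_add_right, bf_smul_right, bf_smul_right, hxy] at h4
    have h5 : bf S x₀ y = 0 := by
      have : bf S x₀ y * bf S x x = 0 := by linear_combination -h4
      exact (mul_eq_zero.mp this).resolve_right hx.ne
    have h6 : z = bf S x₀ x • y := by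
      rw [hz', h5]
      simp
    rw [h6] at h0
    exact hy ((smul_eq_zero.mp h0).resolve_left hx0)
  have h7 := h.pos z hz0 h1
  rw [h2] at h7
  nlinarith [sq_nonneg (bf S x₀ x), sq_nonneg (bf S x₀ y)]

theorem cx_re (S : Matrix (Fin n) (Fin n) ℝ) (z : Fin n → ℂ) :
    (hf (cx S) z z).re = bf S (fun i => (z i).re) (fun i => (z i).re) +
      bf S (fun i => (z i).im) (fun i => (z i).im) := by
  unfold hf bf cx
  simp only [dotProduct, mulVec, Matrix.map_apply, Pi.star_apply, Complex.re_sum, Finset.mul_sum,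
    ← Finset.sum_add_distrib]
  refine Finset.sum_congr rfl fun i _ => Finset.sum_congr rfl fun j _ => ?_
  simp [Complex.mul_re, Complex.mul_im]

theorem cx_left (S : Matrix (Fin n) (Fin n) ℝ) (x : Fin n → ℝ) (z : Fin n → ℂ) :
    hf (cx S) (fun i => (x i : ℂ)) z =
      ⟨bf S x (fun i => (z i).re), bf S x (fun i => (z i).im)⟩ := by
  unfold hf bf cx
  apply Complex.ext
  · simp only [dotProduct, mulVec, Matrix.map_apply, Pi.star_apply, Complex.re_sum,
      Finset.mul_sum]
    refine Finset.sum_congr rfl fun i _ => Finset.sum_congr rfl fun j _ => ?_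
    simp [Complex.mul_re, Complex.mul_im]
  · simp only [dotProduct, mulVec, Matrix.map_apply, Pi.star_apply, Complex.im_sum,
      Finset.mul_sum]
    refine Finset.sum_congr rfl fun i _ => Finset.sum_congr rfl fun j _ => ?_
    simp [Complex.mul_re, Complex.mul_im]

theorem Lor.cpos {S : Matrix (Fin n) (Fin n) ℝ} {x : Fin n → ℝ} (h : Lor S x) {z : Fin n → ℂ}
    (hz : z ≠ 0) (hxz : hf (cx S) (fun i => (x i : ℂ)) z = 0) : 0 < (hf (cx S) z z).re := by
  rw [cx_left] at hxz
  have h1 : bf S x (fun i => (z i).re) = 0 := congrArg Complex.re hxz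
  have h2 : bf S x (fun i => (z i).im) = 0 := congrArg Complex.im hxz
  rw [cx_re]
  by_cases hr : (fun i => (z i).re) = 0
  · have hi : (fun i => (z i).im) ≠ 0 := by
      intro hi
      apply hz
      funext i
      apply Complex.ext
      · exact congrFun hr i
      · exact congrFun hi i
    have h3 := h.pos _ hi h2
    have h4 := h.nonneg h1
    linarith
  · have h3 := h.pos _ hr h1
    have h4 := h.nonneg h2
    linarith

theorem cx_iso {S B : Matrix (Fin n) (Fin n) ℝ} (hB : Bᵀ * S * B = S) :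
    (cx B)ᴴ * cx S * cx B = cx S := by
  have h1 : (cx B)ᴴ = cx Bᵀ := by
    ext i j
    simp [cx, conjTranspose_apply]
  rw [h1]
  unfold cx
  rw [← Matrix.map_mul, ← Matrix.map_mul, hB]

/-- at most one expanding eigenvalue -/
theorem Lor.card_le {S B : Matrix (Fin n) (Fin n) ℝ} {x : Fin n → ℝ} (h : Lor S x)
    (hB : Bᵀ * S * B = S) :
    ((cx B).charpoly.roots.filter (fun z => 1 < ‖z‖)).card ≤ 1 := by
  by_contra hcon
  obtain ⟨w1, w2, hli, h11, h12, h21, h22⟩ := iso_plane (cx_iso hB) (by omega)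
  set X : Fin n → ℂ := fun i => (x i : ℂ) with hX
  have hz : ∃ z : Fin n → ℂ, z ≠ 0 ∧ hf (cx S) X z = 0 ∧ hf (cx S) z z = 0 := by
    by_cases h1 : hf (cx S) X w1 = 0
    · refine ⟨w1, ?_, h1, h11⟩
      have := hli.ne_zero 0
      simpa using this
    · refine ⟨hf (cx S) X w1 • w2 + (-hf (cx S) X w2) • w1, ?_, ?_, ?_⟩
      · intro h0
        rw [LinearIndependent.pair_iff] at hli
        have h2 := hli (-hf (cx S) X w2) (hf (cx S) X w1) (by rw [add_comm]; exact h0)
        exact h1 h2.2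
      · rw [hf_add_right, hf_smul_right, hf_smul_right]
        ring
      · rw [hf_add_right, hf_add_left, hf_add_left, hf_smul_left, hf_smul_left, hf_smul_right,
          hf_smul_right, hf_smul_left, hf_smul_right, hf_smul_left, hf_smul_right, h11, h12, h21,
          h22]
        ring
  obtain ⟨z, hz0, hz1, hz2⟩ := hz
  have h3 := h.cpos hz0 hz1
  rw [hz2] at h3
  simp at h3

/-- the expanding roots -/
theorem m1_out {F : ℤ[X]} (hF : F.Monic) :
    m1 F = (((toC F).roots.filter (fun z => 1 < ‖z‖)).map (fun z => ‖z‖)).prod := by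
  unfold m1
  rw [mahlerMeasure_eq_leadingCoeff_mul_prod_roots]
  have hl : (toC F).leadingCoeff = 1 := (hF.map _)
  rw [hl, norm_one, one_mul]
  generalize (toC F).roots = R
  induction R using Multiset.induction_on with
  | empty => simp
  | cons a R ih =>
    rw [Multiset.map_cons, Multiset.prod_cons, ih]
    by_cases ha : 1 < ‖a‖
    · rw [Multiset.filter_cons_of_pos (p := fun z : ℂ => 1 < ‖z‖) _ ha, Multiset.map_cons, Multiset.prod_cons,
        max_eq_right ha.le]
    · rw [Multiset.filter_cons_of_neg (p := fun z : ℂ => 1 < ‖z‖) _ ha, max_eq_left (not_lt.mp ha), one_mul]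

theorem root_le_m1 {F : ℤ[X]} (hF : F ≠ 0) {z : ℂ} (hz : (toC F).IsRoot z) : ‖z‖ ≤ m1 F := by
  have hC : toC F ≠ 0 := by
    unfold toC
    rwa [Ne, Polynomial.map_eq_zero_iff (RingHom.injective_int (Int.castRingHom ℂ))]
  unfold m1
  rw [mahlerMeasure_eq_leadingCoeff_mul_prod_roots]
  have hl : 1 ≤ ‖(toC F).leadingCoeff‖ := by
    unfold toC
    rw [leadingCoeff_map_of_injective (RingHom.injective_int (Int.castRingHom ℂ))]
    have h1 : F.leadingCoeff ≠ 0 := leadingCoeff_ne_zero.mpr hF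
    have h2 : (1:ℤ) ≤ |F.leadingCoeff| := Int.one_le_abs h1
    simp only [eq_intCast, Complex.norm_intCast]
    exact_mod_cast h2
  have hmem : z ∈ (toC F).roots := (mem_roots hC).mpr hz
  obtain ⟨R, hR⟩ := Multiset.exists_cons_of_mem hmem
  rw [hR, Multiset.map_cons, Multiset.prod_cons]
  have hp : 1 ≤ (R.map (fun a => max 1 ‖a‖)).prod := by
    refine Multiset.induction_on R (by simp) fun a t ih => ?_
    rw [Multiset.map_cons, Multiset.prod_cons]
    exact one_le_mul_of_one_le_of_one_le (le_max_left _ _) ih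
  have h1 : ‖z‖ ≤ max 1 ‖z‖ := le_max_right _ _
  have h0 : 0 ≤ ‖z‖ := norm_nonneg z
  have h2 : 1 ≤ max 1 ‖z‖ := le_max_left _ _
  calc ‖z‖ ≤ max 1 ‖z‖ := h1
    _ = 1 * (max 1 ‖z‖ * 1) := by ring
    _ ≤ _ := by gcongr

theorem cx_charpoly (B : Matrix (Fin n) (Fin n) ℝ) :
    (cx B).charpoly = B.charpoly.map (algebraMap ℝ ℂ) := by
  unfold cx
  rw [← Matrix.charpoly_map]

/-- a real root has a real eigenvector -/
theorem real_eigen {B : Matrix (Fin n) (Fin n) ℝ} {l : ℝ}
    (h : (cx B).charpoly.IsRoot (l : ℂ)) : ∃ w : Fin n → ℝ, w ≠ 0 ∧ B *ᵥ w = l • w := by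
  have h1 : B.charpoly.eval l = 0 := by
    have h2 : (B.charpoly.map (algebraMap ℝ ℂ)).eval (algebraMap ℝ ℂ l) = 0 := by
      rw [← cx_charpoly]
      exact h
    rw [eval_map_algebraMap, aeval_algebraMap_apply] at h2
    have h3 := (FaithfulSMul.algebraMap_injective ℝ ℂ) (h2.trans (map_zero _).symm)
    simpa using h3
  rw [Matrix.eval_charpoly] at h1
  obtain ⟨w, hw0, hw⟩ := Matrix.exists_mulVec_eq_zero_iff.mpr h1
  refine ⟨w, hw0, ?_⟩
  rw [sub_mulVec, sub_eq_zero] at hw
  rw [← hw]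
  ext i
  simp [Matrix.scalar_apply, mulVec_diagonal]

/-- reverse Cauchy-Schwarz -/
theorem Lor.rev {S : Matrix (Fin n) (Fin n) ℝ} {x y : Fin n → ℝ} (h : Lor S x)
    (hy : bf S y y = bf S x x) : 1 ≤ |bf S x y| / |bf S x x| := by
  have hs := h.neg
  set s := bf S x x with hsd
  set c := bf S x y with hc
  have hs0 : s ≠ 0 := hs.ne
  have h1 : bf S x (y + (-(c / s)) • x) = 0 := by
    rw [bf_add_right, bf_smul_right, ← hsd, ← hc]
    field_simp
    ring
  have h2 := h.nonneg h1
  have hyx : bf S y x = c := by rw [bf_comm h.symm]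
  rw [bf_add_right, bf_add_left, bf_add_left, bf_smul_left, bf_smul_left, bf_smul_right,
    bf_smul_right, hyx, ← hc, hy, ← hsd] at h2
  have h3 : 0 ≤ s - c ^ 2 / s := by
    have e : s + -(c / s) * c + (-(c / s) * c + -(c / s) * (-(c / s) * s)) = s - c ^ 2 / s := by
      field_simp
      ring
    linarith [h2, e]
  have h4 : s ^ 2 ≤ c ^ 2 := by
    have h5 : (s - c ^ 2 / s) * s ≤ 0 := mul_nonpos_of_nonneg_of_nonpos h3 hs.le
    have h6 : (s - c ^ 2 / s) * s = s ^ 2 - c ^ 2 := by
      field_simp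
    linarith
  rw [le_div_iff₀ (abs_pos.mpr hs.ne), one_mul]
  exact sq_le_sq.mp h4

/-- Cauchy-Schwarz on the complement -/
theorem Lor.cs {S : Matrix (Fin n) (Fin n) ℝ} {x y z : Fin n → ℝ} (h : Lor S x)
    (hy : bf S x y = 0) (hz : bf S x z = 0) : bf S y z ^ 2 ≤ bf S y y * bf S z z := by
  rcases (h.nonneg hz).eq_or_lt with h0 | h0
  · have hz0 : z = 0 := by
      by_contra hne
      exact absurd (h.pos z hne hz) (by rw [← h0]; exact lt_irrefl _)
    rw [hz0]
    simp [bf]
  · have h1 : bf S x (bf S z z • y + (-bf S y z) • z) = 0 := by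
      rw [bf_add_right, bf_smul_right, bf_smul_right, hy, hz]
      ring
    have h2 := h.nonneg h1
    have hzy : bf S z y = bf S y z := bf_comm h.symm _ _
    rw [bf_add_right, bf_add_left, bf_add_left, bf_smul_left, bf_smul_left, bf_smul_right,
      bf_smul_right, bf_smul_left, bf_smul_right, bf_smul_left, bf_smul_right, hzy] at h2
    have h3 : 0 ≤ bf S z z * (bf S y y * bf S z z - bf S y z ^ 2) := by
      linarith [h2]
    have h4 := (mul_nonneg_iff_of_pos_left h0).mp h3
    linarith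

/-- **The Mahler measure is bounded by the displacement.** -/
theorem Lor.busemann {S B : Matrix (Fin n) (Fin n) ℝ} {x : Fin n → ℝ} (h : Lor S x)
    (hB : Bᵀ * S * B = S) {G : ℤ[X]} (hG : toC G = (cx B).charpoly) :
    m1 G + 1 / m1 G ≤ 2 * (|bf S x (B *ᵥ x)| / |bf S x x|) := by
  have hmon : G.Monic := by
    have h1 := (cx B).charpoly_monic
    rw [← hG] at h1
    exact monic_of_injective (RingHom.injective_int (Int.castRingHom ℂ)) h1
  have hm := m1_out hmon
  rw [hG] at hm
  have hcard := h.card_le hB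
  have hyy : bf S (B *ᵥ x) (B *ᵥ x) = bf S x x := bf_iso hB x x
  have hrev := h.rev hyy
  rcases Nat.lt_or_ge 0 ((cx B).charpoly.roots.filter (fun z => 1 < ‖z‖)).card with h1 | h1
  · obtain ⟨a, ha⟩ := Multiset.card_eq_one.mp (by omega :
      ((cx B).charpoly.roots.filter (fun z => 1 < ‖z‖)).card = 1)
    rw [ha] at hm
    have hmem : a ∈ (cx B).charpoly.roots.filter (fun z => 1 < ‖z‖) := by rw [ha]; simp
    obtain ⟨har, ha1⟩ := Multiset.mem_filter.mp hmem
    have hroot : (cx B).charpoly.IsRoot a := isRoot_of_mem_roots har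
    have hconj : starRingEnd ℂ a = a := by
      have h2 : (cx B).charpoly.IsRoot (starRingEnd ℂ a) := by
        rw [IsRoot.def, cx_charpoly, eval_map_algebraMap] at hroot ⊢
        have h3 := congrArg (starRingEnd ℂ) hroot
        rw [map_zero] at h3
        rw [← h3]
        rw [aeval_def, aeval_def, hom_eval₂]
        congr 1
        ext r
        simp
      have h3 : starRingEnd ℂ a ∈ (cx B).charpoly.roots.filter (fun z => 1 < ‖z‖) := by
        rw [Multiset.mem_filter]
        refine ⟨(mem_roots (cx B).charpoly_monic.ne_zero).mpr h2, ?_⟩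
        rw [RCLike.norm_conj]
        exact ha1
      rw [ha] at h3
      simpa using h3
    obtain ⟨l, hl⟩ : ∃ l : ℝ, (l : ℂ) = a := Complex.conj_eq_iff_real.mp hconj |>.imp fun _ h => h.symm
    rw [← hl] at hroot ha1
    obtain ⟨w, hw0, hw⟩ := real_eigen hroot
    have hla : 1 < |l| := by simpa using ha1
    have hml : m1 G = |l| := by
      rw [hm, ← hl]
      simp
    have hl0 : l ≠ 0 := by
      rintro rfl
      simp at hla
      linarith
    have hww : bf S w w = 0 := by
      have h4 := bf_iso hB w w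
      rw [hw, bf_smul_left, bf_smul_right] at h4
      have h5 : (l * l - 1) * bf S w w = 0 := by linear_combination h4
      rcases mul_eq_zero.mp h5 with h6 | h6
      · have h7 : |l| * |l| = 1 := by rw [← abs_mul, abs_of_nonneg (mul_self_nonneg l)]; linarith
        nlinarith
      · exact h6
    set s := bf S x x with hs
    have hs1 : s < 0 := h.neg
    have hs0 : s ≠ 0 := hs1.ne
    set p := bf S x w with hp
    have hp0 : p ≠ 0 := by
      intro h0
      exact absurd (h.pos w hw0 h0) (by rw [hww]; exact lt_irrefl _)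
    have hyw : bf S (B *ᵥ x) w = p / l := by
      have h4 := bf_iso hB x w
      rw [hw, bf_smul_right] at h4
      rw [eq_div_iff hl0, hp, ← h4]
      ring
    set y := B *ᵥ x with hy
    set c := bf S x y with hc
    have hyx : bf S y x = c := bf_comm h.symm _ _
    have hwx : bf S w x = p := bf_comm h.symm _ _
    have h1y : bf S x (y + (-(c / s)) • x) = 0 := by
      rw [bf_add_right, bf_smul_right, ← hs, ← hc]
      field_simp
      ring
    have h1w : bf S x (w + (-(p / s)) • x) = 0 := by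
      rw [bf_add_right, bf_smul_right, ← hs, ← hp]
      field_simp
      ring
    have h2 := h.cs h1y h1w
    simp only [bf_add_right, bf_add_left, bf_smul_left, bf_smul_right, hyx, hwx, hyy, hyw, hww,
      ← hc, ← hp, ← hs] at h2
    have h3 : (p / l - c * p / s) ^ 2 ≤ (s - c ^ 2 / s) * (-(p ^ 2 / s)) := by
      refine le_trans (le_of_eq ?_) (h2.trans (le_of_eq ?_))
      · field_simp
        ring
      · field_simp
        ring
    have h4 : (1 / l - c / s) ^ 2 ≤ (c / s) ^ 2 - 1 := by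
      have hp2 : 0 < p ^ 2 := by positivity
      have e1 : (p / l - c * p / s) ^ 2 = p ^ 2 * (1 / l - c / s) ^ 2 := by
        field_simp
      have e2 : (s - c ^ 2 / s) * (-(p ^ 2 / s)) = p ^ 2 * ((c / s) ^ 2 - 1) := by
        field_simp
        ring
      rw [e1, e2] at h3
      exact le_of_mul_le_mul_left h3 hp2
    have h5 : 1 + (1 / l) ^ 2 ≤ 2 * (1 / l * (c / s)) := by nlinarith
    have h6 : 1 + (1 / |l|) ^ 2 ≤ 2 * (1 / |l| * (|c| / |s|)) := by
      have e3 : (1 / |l|) ^ 2 = (1 / l) ^ 2 := by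
        rw [div_pow, div_pow, sq_abs]
      have e4 : 1 / l * (c / s) ≤ 1 / |l| * (|c| / |s|) := by
        refine (le_abs_self _).trans (le_of_eq ?_)
        rw [abs_mul, abs_div, abs_div, abs_one]
      rw [e3]
      linarith
    rw [hml]
    have hlp : 0 < |l| := by linarith
    have h7 := mul_le_mul_of_nonneg_left h6 hlp.le
    have e5 : |l| * (1 + (1 / |l|) ^ 2) = |l| + 1 / |l| := by
      field_simp
    have e6 : |l| * (2 * (1 / |l| * (|c| / |s|))) = 2 * (|c| / |s|) := by
      field_simp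
    linarith
  · have h2 : (cx B).charpoly.roots.filter (fun z => 1 < ‖z‖) = 0 := by
      rw [← Multiset.card_eq_zero]
      omega
    rw [h2, Multiset.map_zero, Multiset.prod_zero] at hm
    rw [hm]
    linarith

end

end Pool.Agent.U72.NP
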