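import Mathlib
import Pool.Agent.U72.NP.Lor

/-!
# Lorentzian isometries whose axis meets a fixed space of small codimension
-/

set_option autoImplicit false

namespace Pool.Agent.U72.NP

open Polynomial Matrix
open Pool.Agent.H261R2.CM

noncomputable section

variable {n : ℕ}

theorem cx_rank (M : Matrix (Fin n) (Fin n) ℝ) : (cx M).rank ≤ M.rank := by
  set V := LinearMap.range M.mulVecLin with hV
  set r := Module.finrank ℝ V with hr
  have hrank : M.rank = r := rfl
  let b : Module.Basis (Fin r) ℝ V := Module.finBasis ℝ V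
  let P : Matrix (Fin n) (Fin r) ℝ := Matrix.of fun i k => (b k : Fin n → ℝ) i
  let Q : Matrix (Fin r) (Fin n) ℝ := Matrix.of fun k j =>
    b.repr ⟨M.mulVecLin (Pi.single j 1), LinearMap.mem_range_self _ _⟩ k
  have hM : M = P * Q := by
    ext i j
    have h1 := b.sum_repr ⟨M.mulVecLin (Pi.single j 1), LinearMap.mem_range_self _ _⟩
    have h2 := congrArg (fun v : V => (v : Fin n → ℝ) i) h1
    simp only [Submodule.coe_sum, Submodule.coe_smul, Finset.sum_apply, Pi.smul_apply,
      smul_eq_mul, mulVecLin_apply, mulVec_single_one, col_apply] at h2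
    rw [← h2, Matrix.mul_apply]
    refine Finset.sum_congr rfl fun k _ => ?_
    simp only [P, Q, Matrix.of_apply]
    rw [mul_comm]
    simp
  have h3 : cx M = P.map (algebraMap ℝ ℂ) * Q.map (algebraMap ℝ ℂ) := by
    unfold cx
    rw [← Matrix.map_mul, ← hM]
  rw [h3, hrank]
  refine (rank_mul_le_left _ _).trans ?_
  refine (rank_le_card_width _).trans ?_
  simp

theorem Lor.det_ne {S : Matrix (Fin n) (Fin n) ℝ} {x : Fin n → ℝ} (h : Lor S x) : S.det ≠ 0 := by
  intro h0
  obtain ⟨z, hz0, hz⟩ := Matrix.exists_mulVec_eq_zero_iff.mpr h0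
  have h1 := h.pos z hz0 (by unfold bf; rw [hz]; simp)
  have h2 : bf S z z = 0 := by unfold bf; rw [hz]; simp
  linarith

theorem Lor.near {S : Matrix (Fin n) (Fin n) ℝ} {x : Fin n → ℝ} (h : Lor S x) :
    NearPos (cx S) 1 := by
  let L : (Fin n → ℂ) →ₗ[ℂ] ℂ :=
    { toFun := fun z => hf (cx S) (fun i => (x i : ℂ)) z
      map_add' := fun z w => hf_add_right _ _ _ _
      map_smul' := fun c z => by rw [hf_smul_right]; rfl }
  refine ⟨LinearMap.ker L, ?_, fun z hz hz0 => h.cpos hz0 hz⟩
  have h1 := LinearMap.finrank_range_add_finrank_ker L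
  have h2 : Module.finrank ℂ (LinearMap.range L) ≤ 1 := by
    refine (Submodule.finrank_le _).trans ?_
    simp
  have h3 : Module.finrank ℂ (Fin n → ℂ) = n := by simp
  rw [Fintype.card_fin]
  omega

theorem cx_herm {S : Matrix (Fin n) (Fin n) ℝ} (hS : Sᵀ = S) : (cx S)ᴴ = cx S := by
  ext i j
  have h1 : S j i = S i j := by
    have := congrFun (congrFun hS i) j
    simpa using this
  simp [cx, conjTranspose_apply, h1]

theorem Lor.unit {S : Matrix (Fin n) (Fin n) ℝ} {x : Fin n → ℝ} (h : Lor S x) :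
    IsUnit (cx S).det := by
  have h1 : (cx S).det = algebraMap ℝ ℂ S.det := by
    unfold cx
    rw [← RingHom.mapMatrix_apply, ← RingHom.map_det]
  rw [h1, isUnit_iff_ne_zero]
  intro h0
  exact h.det_ne ((FaithfulSMul.algebraMap_injective ℝ ℂ) (h0.trans (map_zero _).symm))

/-- the height of a pair of Lorentzian isometries -/
theorem Lor.pair {S A B : Matrix (Fin n) (Fin n) ℝ} {x : Fin n → ℝ} {s : ℕ} (h : Lor S x)
    (hA : Aᵀ * S * A = S) (hB : Bᵀ * S * B = S) (hr : (A - B).rank ≤ s)
    {F G : ℤ[X]} (hF : toC F = (cx A).charpoly) (hG : toC G = (cx B).charpoly) :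
    mx1 F G ≤ 3 * max (Real.log (m1 F)) (Real.log (m1 G)) + 18 * (1 + s) := by
  have h1 : (cx A - cx B).rank ≤ s := by
    have e : cx A - cx B = cx (A - B) := by
      ext i j
      simp [cx]
    rw [e]
    exact (cx_rank _).trans hr
  have h2 := iso_pair (cx_herm h.symm) h.unit (cx_iso hA) (cx_iso hB) h.near h1 hF hG
  simpa using h2

/-- a loxodromic isometry of a Lorentzian form with the ends `u`, `v` of the axis -/
structure Lox (S A : Matrix (Fin n) (Fin n) ℝ) (u v : Fin n → ℝ) (β : ℝ) : Prop where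
  symm : Sᵀ = S
  isometry : Aᵀ * S * A = S
  one_lt : 1 < β
  ne_zero : u ≠ 0
  eigen_u : A *ᵥ u = β • u
  eigen_v : A *ᵥ v = β⁻¹ • v
  positive : ∀ y, y ≠ 0 → bf S u y = 0 → bf S v y = 0 → 0 < bf S y y

theorem iso_self {S B : Matrix (Fin n) (Fin n) ℝ} (hB : Bᵀ * S * B = S) {w : Fin n → ℝ} {l : ℝ}
    (hw : B *ᵥ w = l • w) (hl : l * l ≠ 1) : bf S w w = 0 := by
  have h4 := bf_iso hB w w
  rw [hw, bf_smul_left, bf_smul_right] at h4
  have h5 : (l * l - 1) * bf S w w = 0 := by linear_combination h4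
  exact (mul_eq_zero.mp h5).resolve_left (sub_ne_zero.mpr hl)

section lox
variable {S A : Matrix (Fin n) (Fin n) ℝ} {u v : Fin n → ℝ} {β : ℝ}

theorem Lox.uu (h : Lox S A u v β) : bf S u u = 0 :=
  iso_self h.isometry h.eigen_u (by nlinarith [h.one_lt])

theorem Lox.vv (h : Lox S A u v β) : bf S v v = 0 := by
  refine iso_self h.isometry h.eigen_v ?_
  have h1 := h.one_lt
  have h0 : 0 < β := by linarith
  intro h2
  have h3 : β⁻¹ < 1 := inv_lt_one_of_one_lt₀ h1
  have h4 : 0 < β⁻¹ := inv_pos.mpr h0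
  nlinarith

theorem Lox.uv (h : Lox S A u v β) : bf S u v ≠ 0 := by
  intro h0
  have h1 := h.positive u h.ne_zero h.uu (by rw [bf_comm h.symm]; exact h0)
  rw [h.uu] at h1
  exact lt_irrefl _ h1

/-- the norm of a point of the axis -/
theorem Lox.norm_axis (h : Lox S A u v β) (a c : ℝ) :
    bf S (a • u + c • v) (a • u + c • v) = 2 * a * c * bf S u v := by
  have hvu : bf S v u = bf S u v := bf_comm h.symm _ _
  simp only [bf_add_left, bf_add_right, bf_smul_left, bf_smul_right, h.uu, h.vv, hvu]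
  ring

theorem Lox.lor₀ (h : Lox S A u v β) : Lor S (u + (-bf S u v) • v) := by
  set σ := bf S u v with hσ
  have hσ0 : σ ≠ 0 := h.uv
  have hvu : bf S v u = σ := bf_comm h.symm _ _
  refine ⟨h.symm, ?_, fun y hy hxy => ?_⟩
  · have h1 := h.norm_axis 1 (-σ)
    rw [one_smul] at h1
    rw [h1]
    have : 0 < σ ^ 2 := by positivity
    nlinarith
  · set a := bf S v y / σ with ha
    set b := bf S u y / σ with hb
    set e := y + (-a) • u + (-b) • v with he
    have hue : bf S u e = 0 := by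
      rw [he, bf_add_right, bf_add_right, bf_smul_right, bf_smul_right, h.uu, ← hσ, hb]
      field_simp
      ring
    have hve : bf S v e = 0 := by
      rw [he, bf_add_right, bf_add_right, bf_smul_right, bf_smul_right, h.vv, hvu, ha]
      field_simp
      ring
    have hyu : bf S y u = bf S u y := bf_comm h.symm _ _
    have hyv : bf S y v = bf S v y := bf_comm h.symm _ _
    have hee : bf S e e = bf S y y - 2 * a * b * σ := by
      have h1 : bf S e e = bf S y e := by
        have h2 : bf S e e = bf S (y + (-a) • u + (-b) • v) e := by rw [← he]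
        rw [h2, bf_add_left, bf_add_left, bf_smul_left, bf_smul_left, hue, hve]
        ring
      rw [h1, he, bf_add_right, bf_add_right, bf_smul_right, bf_smul_right, hyu, hyv]
      have e1 : bf S u y = b * σ := by rw [hb]; field_simp
      have e2 : bf S v y = a * σ := by rw [ha]; field_simp
      rw [e1, e2]
      ring
    rw [bf_add_left, bf_smul_left] at hxy
    have e1 : bf S u y = b * σ := by rw [hb]; field_simp
    have e2 : bf S v y = a * σ := by rw [ha]; field_simp
    rw [e1, e2] at hxy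
    have hb2 : b = a * σ := by
      have : (b - a * σ) * σ = 0 := by linear_combination hxy
      exact sub_eq_zero.mp ((mul_eq_zero.mp this).resolve_right hσ0)
    by_cases ha0 : a = 0
    · have hb0 : b = 0 := by rw [hb2, ha0, zero_mul]
      have hey : e = y := by rw [he, ha0, hb0]; simp
      have h3 := h.positive y hy (by rw [e1, hb0, zero_mul]) (by rw [e2, ha0, zero_mul])
      exact h3
    · have h3 : 0 ≤ bf S e e := by
        rcases eq_or_ne e 0 with h4 | h4
        · rw [h4]
          simp [bf]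
        · exact (h.positive e h4 hue hve).le
      rw [hee, hb2] at h3
      have h5 : 0 < a ^ 2 * σ ^ 2 := by positivity
      nlinarith

theorem Lox.lor (h : Lox S A u v β) {x : Fin n → ℝ} (hx : bf S x x < 0) : Lor S x :=
  h.lor₀.of_neg hx

theorem real_root {B : Matrix (Fin n) (Fin n) ℝ} {w : Fin n → ℝ} {l : ℝ} (hw0 : w ≠ 0)
    (hw : B *ᵥ w = l • w) : (cx B).charpoly.IsRoot (l : ℂ) := by
  have h1 : B.charpoly.eval l = 0 := by
    rw [Matrix.eval_charpoly]
    apply Matrix.exists_mulVec_eq_zero_iff.mp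
    refine ⟨w, hw0, ?_⟩
    rw [sub_mulVec, hw, sub_eq_zero]
    ext i
    simp [Matrix.scalar_apply, mulVec_diagonal]
  rw [IsRoot.def, cx_charpoly]
  have h2 : (B.charpoly.map (algebraMap ℝ ℂ)).eval (algebraMap ℝ ℂ l) = 0 := by
    rw [eval_map_algebraMap, aeval_algebraMap_apply]
    simp [h1]
  exact h2

theorem charpoly_monic' {B : Matrix (Fin n) (Fin n) ℝ} {G : ℤ[X]}
    (hG : toC G = (cx B).charpoly) : G.Monic ∧ G.natDegree = n := by
  have hinj := RingHom.injective_int (Int.castRingHom ℂ)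
  constructor
  · have h1 := (cx B).charpoly_monic
    rw [← hG] at h1
    exact monic_of_injective hinj h1
  · have h1 := (cx B).charpoly_natDegree_eq_dim
    rw [← hG, toC, natDegree_map_eq_of_injective hinj, Fintype.card_fin] at h1
    exact h1

theorem Lox.m1 (h : Lox S A u v β) {F : ℤ[X]} (hF : toC F = (cx A).charpoly) : m1 F = β := by
  have hm := m1_out (charpoly_monic' hF).1
  rw [hF] at hm
  have hcard := h.lor₀.card_le h.isometry
  have h1 := h.one_lt
  have hroot := real_root h.ne_zero h.eigen_u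
  have hmem : (β : ℂ) ∈ (cx A).charpoly.roots.filter (fun z => 1 < ‖z‖) := by
    rw [Multiset.mem_filter]
    refine ⟨(mem_roots (cx A).charpoly_monic.ne_zero).mpr hroot, ?_⟩
    rw [Complex.norm_real, Real.norm_of_nonneg (by linarith)]
    exact h1
  obtain ⟨R, hR⟩ := Multiset.exists_cons_of_mem hmem
  rw [hR, Multiset.card_cons] at hcard
  have hR0 : R = 0 := by
    rw [← Multiset.card_eq_zero]
    omega
  rw [hm, hR, hR0]
  simp only [Multiset.cons_zero, Multiset.map_singleton, Multiset.prod_singleton,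
    Complex.norm_real]
  exact Real.norm_of_nonneg (by linarith)

/-- an eigenvalue of `B` from a common divisor -/
theorem Lox.common (h : Lox S A u v β) {B : Matrix (Fin n) (Fin n) ℝ} {F G D : ℤ[X]}
    (hF : toC F = (cx A).charpoly) (hG : toC G = (cx B).charpoly) (hDF : D ∣ F) (hDG : D ∣ G)
    (hD : Pool.Agent.H261R2.CM.m1 D = Pool.Agent.H261R2.CM.m1 F) :
    ∃ w : Fin n → ℝ, w ≠ 0 ∧ B *ᵥ w = β • w := by
  obtain ⟨E, hE⟩ := hDF
  have hF0 : F ≠ 0 := (charpoly_monic' hF).1.ne_zero
  have hE0 : E ≠ 0 := by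
    rintro rfl
    rw [mul_zero] at hE
    exact hF0 hE
  have hmF := h.m1 hF
  have h1 := h.one_lt
  have hmE : Pool.Agent.H261R2.CM.m1 E = 1 := by
    have h2 : Pool.Agent.H261R2.CM.m1 F =
        Pool.Agent.H261R2.CM.m1 D * Pool.Agent.H261R2.CM.m1 E := by rw [hE, I1_m1_mul]
    rw [hD, hmF] at h2
    have h3 : β * (Pool.Agent.H261R2.CM.m1 E - 1) = 0 := by linarith
    rcases mul_eq_zero.mp h3 with h4 | h4
    · linarith
    · linarith
  have hroot := real_root h.ne_zero h.eigen_u
  rw [← hF, hE, toC, Polynomial.map_mul, IsRoot.def, eval_mul] at hroot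
  have hroot' : (toC D).eval (β : ℂ) * (toC E).eval (β : ℂ) = 0 := hroot
  have hDr : (toC D).IsRoot (β : ℂ) := by
    rcases mul_eq_zero.mp hroot' with h2 | h2
    · exact h2
    · exfalso
      have h3 := root_le_m1 hE0 h2
      rw [hmE, Complex.norm_real, Real.norm_of_nonneg (by linarith)] at h3
      linarith
  have hGr : (toC G).IsRoot (β : ℂ) := by
    obtain ⟨Q, hQ⟩ := hDG
    rw [hQ, toC, Polynomial.map_mul, IsRoot.def, eval_mul]
    have h2 : (Polynomial.map (Int.castRingHom ℂ) D).eval (β : ℂ) = 0 := hDr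
    rw [h2, zero_mul]
  rw [hG] at hGr
  exact real_eigen hGr

/-- the rate -/
theorem lox_rate : ∃ c : ℝ, 0 < c ∧ ∀ (n s : ℕ) (H : ℝ) (S A B : Matrix (Fin n) (Fin n) ℝ)
    (u v x : Fin n → ℝ) (β : ℝ) (f G : ℤ[X]), Lox S A u v β → Bᵀ * S * B = S →
    toC f = (cx A).charpoly → toC G = (cx B).charpoly → (A - B).rank ≤ s → bf S x x < 0 →
    |bf S x (B *ᵥ x)| ≤ H * |bf S x x| → Irreducible f → f ≠ G →
    c / (1 + s + Real.log H) ^ 3 ≤ Real.log β := by
  obtain ⟨c, hc, h⟩ := pair_rate
  refine ⟨c / 20 ^ 3, by positivity, ?_⟩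
  intro n s H S A B u v x β f G hL hB hf hG hr hx hH hirr hne
  have hlor := hL.lor hx
  obtain ⟨hm1, hd1⟩ := charpoly_monic' hf
  obtain ⟨hm2, hd2⟩ := charpoly_monic' hG
  have hdvd : ¬ f ∣ G := by
    intro hd
    exact hne (eq_of_monic_of_dvd_of_natDegree_le hm1 hm2 hd (by rw [hd1, hd2])).symm
  have hmf := hL.m1 hf
  have h1 := h f G (18 * (1 + s)) (by positivity) hirr hdvd (by rw [hmf]; exact hL.one_lt)
    (by rw [hd1, hd2]) (hlor.pair hL.isometry hB hr hf hG)
  rw [hmf] at h1
  refine le_trans ?_ h1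
  have hG1 := I1_one_le_m1 hm2.ne_zero
  have hbus := hlor.busemann hB hG
  have hxx : 0 < |bf S x x| := abs_pos.mpr hx.ne
  have hH' : |bf S x (B *ᵥ x)| / |bf S x x| ≤ H := (div_le_iff₀ hxx).mpr hH
  have hH1 : 1 ≤ H := (hlor.rev (bf_iso hB x x)).trans hH'
  have hpos : 0 < 1 / Pool.Agent.H261R2.CM.m1 G := by positivity
  have hGH : Pool.Agent.H261R2.CM.m1 G ≤ 2 * H := by linarith
  have hlog : Real.log (Pool.Agent.H261R2.CM.m1 G) ≤ Real.log 2 + Real.log H := by
    rw [← Real.log_mul (by norm_num) (by linarith)]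
    exact Real.log_le_log (by linarith) hGH
  have hlog2 := Real.log_two_lt_d9
  have hlogG : 0 ≤ Real.log (Pool.Agent.H261R2.CM.m1 G) := Real.log_nonneg hG1
  have hlogH : 0 ≤ Real.log H := Real.log_nonneg hH1
  have hs : (0:ℝ) ≤ s := Nat.cast_nonneg _
  rw [div_div, ← mul_pow]
  apply div_le_div_of_nonneg_left hc.le (by positivity)
  apply pow_le_pow_left₀ (by positivity)
  linarith

/-- the gap -/
theorem lox_gap (s : ℕ) (H : ℝ) : ∃ μ : ℝ, 1 < μ ∧ ∀ (n : ℕ) (S A B : Matrix (Fin n) (Fin n) ℝ)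
    (u v x : Fin n → ℝ) (β : ℝ) (F G : ℤ[X]), Lox S A u v β → Bᵀ * S * B = S →
    toC F = (cx A).charpoly → toC G = (cx B).charpoly → (A - B).rank ≤ s → bf S x x < 0 →
    |bf S x (B *ᵥ x)| ≤ H * |bf S x x| →
    μ ≤ β ∨ ∃ w : Fin n → ℝ, w ≠ 0 ∧ B *ᵥ w = β • w := by
  obtain ⟨μ, hμ, h⟩ := gap_height (18 * (1 + s)) (2 * H)
  refine ⟨μ, hμ, ?_⟩
  intro n S A B u v x β F G hL hB hF hG hr hx hH
  have hlor := hL.lor hx
  obtain ⟨hm1, _⟩ := charpoly_monic' hF
  obtain ⟨hm2, _⟩ := charpoly_monic' hG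
  have hbus := hlor.busemann hB hG
  have hxx : 0 < |bf S x x| := abs_pos.mpr hx.ne
  have hH' : |bf S x (B *ᵥ x)| / |bf S x x| ≤ H := (div_le_iff₀ hxx).mpr hH
  have hG1 := I1_one_le_m1 hm2.ne_zero
  have hpos : 0 < 1 / Pool.Agent.H261R2.CM.m1 G := by positivity
  rcases h F G hm1.ne_zero hm2.ne_zero (hlor.pair hL.isometry hB hr hF hG)
    (by linarith) with h1 | ⟨D, hDF, hDG, hD⟩
  · left
    rwa [hL.m1 hF] at h1
  · right
    exact hL.common hF hG hDF hDG hD

/-- the axis of an isometry of small spectral radius does not meet transversally the fixed spaces of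
small codimension -/
theorem lox_axis (s : ℕ) : ∃ μ : ℝ, 1 < μ ∧ ∀ (n : ℕ) (S A g : Matrix (Fin n) (Fin n) ℝ)
    (u v : Fin n → ℝ) (β a c : ℝ) (F G : ℤ[X]), Lox S A u v β → gᵀ * S * g = S →
    toC F = (cx A).charpoly → toC G = (cx (A * g)).charpoly → (g - 1).rank ≤ s →
    bf S (a • u + c • v) (a • u + c • v) < 0 → g *ᵥ (a • u + c • v) = a • u + c • v →
    μ ≤ β ∨ (g *ᵥ u = u ∧ g *ᵥ v = v) := by
  obtain ⟨μ, hμ, h⟩ := lox_gap s 2
  refine ⟨min μ 2, lt_min hμ (by norm_num), ?_⟩
  intro n S A g u v β a c F G hL hg hF hG hr hx hgx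
  rcases le_or_gt 2 β with hβ2 | hβ2
  · left
    exact (min_le_right _ _).trans hβ2
  have hβ1 := hL.one_lt
  have hβ0 : β ≠ 0 := by linarith
  set x := a • u + c • v with hxdef
  set σ := bf S u v with hσ
  have hσ0 : σ ≠ 0 := hL.uv
  have hvu : bf S v u = σ := bf_comm hL.symm _ _
  have hnorm : bf S x x = 2 * a * c * σ := hL.norm_axis a c
  have ha0 : a ≠ 0 := by
    rintro rfl
    rw [hnorm] at hx
    simp at hx
  have hc0 : c ≠ 0 := by
    rintro rfl
    rw [hnorm] at hx
    simp at hx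
  have hB : (A * g)ᵀ * S * (A * g) = S := by
    rw [transpose_mul]
    calc gᵀ * Aᵀ * S * (A * g) = gᵀ * (Aᵀ * S * A) * g := by simp only [Matrix.mul_assoc]
      _ = S := by rw [hL.isometry, hg]
  have hrank : (A - A * g).rank ≤ s := by
    have e : A - A * g = (-A) * (g - 1) := by
      rw [Matrix.mul_sub, Matrix.mul_one]
      simp only [Matrix.neg_mul]
      abel
    rw [e]
    exact (rank_mul_le_right _ _).trans hr
  have hBx : (A * g) *ᵥ x = (a * β) • u + (c * β⁻¹) • v := by
    rw [← mulVec_mulVec, hgx, hxdef, mulVec_add, mulVec_smul, mulVec_smul, hL.eigen_u, hL.eigen_v,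
      smul_smul, smul_smul]
  have hxBx : bf S x ((A * g) *ᵥ x) = a * c * σ * (β + β⁻¹) := by
    rw [hBx, hxdef]
    simp only [bf_add_left, bf_add_right, bf_smul_left, bf_smul_right, hL.uu, hL.vv, hvu, ← hσ]
    ring
  have hinv : β⁻¹ ≤ 1 := inv_le_one_of_one_le₀ hβ1.le
  have hinv0 : 0 < β⁻¹ := inv_pos.mpr (by linarith)
  have hH : |bf S x ((A * g) *ᵥ x)| ≤ 2 * |bf S x x| := by
    rw [hxBx, hnorm, abs_mul, abs_of_nonneg (by linarith : 0 ≤ β + β⁻¹)]
    have e : |2 * a * c * σ| = 2 * |a * c * σ| := by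
      rw [show 2 * a * c * σ = 2 * (a * c * σ) by ring, abs_mul]
      norm_num
    rw [e]
    nlinarith [abs_nonneg (a * c * σ)]
  rcases h n S A (A * g) u v x β F G hL hB hF hG hrank hx hH with h1 | ⟨w, hw0, hw⟩
  · left
    exact (min_le_left _ _).trans h1
  · right
    have hww : bf S w w = 0 := iso_self hB hw (by nlinarith)
    have h2 := bf_iso hB x w
    rw [hw, hBx] at h2
    simp only [bf_add_left, bf_smul_left, bf_smul_right] at h2
    have h3 : bf S x w = a * bf S u w + c * bf S v w := by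
      rw [hxdef, bf_add_left, bf_smul_left, bf_smul_left]
    rw [h3] at h2
    have huw : bf S u w = 0 := by
      have h4 : a * (β * β - 1) * bf S u w = 0 := by
        have h5 : c * β⁻¹ * (β * bf S v w) = c * bf S v w := by
          field_simp
        linear_combination h2 - h5
      have h5 : a * (β * β - 1) ≠ 0 := mul_ne_zero ha0 (by nlinarith)
      exact (mul_eq_zero.mp h4).resolve_left h5
    have hlor := hL.lor hx
    -- `w` is proportional to `u`
    have hwu : bf S w u = 0 := by rw [bf_comm hL.symm]; exact huw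
    have hz : bf S x w • u + (-bf S x u) • w = 0 := by
      by_contra hne
      have h6 : bf S x (bf S x w • u + (-bf S x u) • w) = 0 := by
        rw [bf_add_right, bf_smul_right, bf_smul_right]
        ring
      have h7 := hlor.pos _ hne h6
      simp only [bf_add_left, bf_add_right, bf_smul_left, bf_smul_right, hL.uu, huw, hwu,
        hww] at h7
      simp at h7
    have hxu : bf S x u = c * σ := by
      rw [hxdef, bf_add_left, bf_smul_left, bf_smul_left, hL.uu, hvu]
      ring
    have hxu0 : bf S x u ≠ 0 := by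
      rw [hxu]
      exact mul_ne_zero hc0 hσ0
    have hw2 : w = (bf S x w / bf S x u) • u := by
      have h8 : bf S x u • w = bf S x w • u := by
        rw [neg_smul, ← sub_eq_add_neg, sub_eq_zero] at hz
        exact hz.symm
      rw [div_eq_inv_mul, mul_smul, ← h8, smul_smul, inv_mul_cancel₀ hxu0, one_smul]
    set r := bf S x w / bf S x u with hrdef
    have hr0 : r ≠ 0 := by
      rintro h0
      rw [h0, zero_smul] at hw2
      exact hw0 hw2
    have hBu : (A * g) *ᵥ u = β • u := by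
      rw [hw2, mulVec_smul, smul_comm] at hw
      exact smul_right_injective _ hr0 hw
    have hinj : Function.Injective fun y : Fin n → ℝ => A *ᵥ y := by
      intro y z hyz
      have h9 : bf S = bf S := rfl
      have h10 : A *ᵥ (y - z) = 0 := by
        rw [mulVec_sub]
        exact sub_eq_zero.mpr hyz
      have h11 : S *ᵥ (y - z) = 0 := by
        rw [← hL.isometry, ← mulVec_mulVec, h10, mulVec_zero]
      by_contra hne
      exact hlor.det_ne (Matrix.exists_mulVec_eq_zero_iff.mp
        ⟨y - z, sub_ne_zero.mpr hne, h11⟩)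
    have hgu : g *ᵥ u = u := by
      apply hinj
      change A *ᵥ (g *ᵥ u) = A *ᵥ u
      rw [mulVec_mulVec, hBu, hL.eigen_u]
    refine ⟨hgu, ?_⟩
    rw [hxdef, mulVec_add, mulVec_smul, mulVec_smul, hgu] at hgx
    have h12 := add_left_cancel hgx
    exact smul_right_injective _ hc0 h12

end lox

end

end Pool.Agent.U72.NP
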