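import Pool.Agent.U72.NP.IsoRate
import Pool.Agent.TH845.KN.B2

/-!
# Classes with bounded companions from the discrepancy of zeros
-/

set_option autoImplicit false

namespace Pool.Agent.U72.NP

open MeasureTheory Filter Topology Polynomial Matrix
open Pool.Agent.H261R2.CM Pool.Agent.W242.IM

noncomputable section

/-- measures of the coprime parts of pairs of bounded height -/
def HM (κ : ℝ → ℝ) : Set ℝ :=
  {x : ℝ | ∃ D F G : ℤ[X], D ≠ 0 ∧ F ≠ 0 ∧ G ≠ 0 ∧ IsRelPrime F G ∧ m1 (D * G) ≤ κ x ∧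
    mx1 (D * F) (D * G) ≤ 3 * max (Real.log (m1 (D * F))) (Real.log (m1 (D * G))) + κ x ∧
    x = m1 F}

theorem HM_BC (κ : ℝ → ℝ) (hκ : Monotone κ) : Pool.Agent.TH845.KN.BC (HM κ) := by
  intro B
  set L := max 1 (κ B) with hL
  set B' := max 1 B with hB'
  refine ⟨3 * Real.log (L * B') + κ B, ?_⟩
  rintro x ⟨⟨D, F, G, hD, hF, hG, hrel, hκG, hh, rfl⟩, hx⟩
  have hx' : m1 F < B := hx
  have hk : κ (m1 F) ≤ κ B := hκ hx'.le
  have h1D := I1_one_le_m1 hD
  have h1F := I1_one_le_m1 hF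
  have h1G := I1_one_le_m1 hG
  have hDG : m1 D ≤ m1 (D * G) := by
    rw [I1_m1_mul]
    nlinarith
  have hDG' : m1 (D * G) ≤ L := (hκG.trans hk).trans (le_max_right _ _)
  have hDL : m1 D ≤ L := hDG.trans hDG'
  have hL1 : 1 ≤ L := le_max_left _ _
  have hB1 : 1 ≤ B' := le_max_left _ _
  have hFB : m1 F ≤ B' := hx'.le.trans (le_max_right _ _)
  have hDF : m1 (D * F) ≤ L * B' := by
    rw [I1_m1_mul]
    exact mul_le_mul hDL hFB (by linarith) (by linarith)
  have hDGB : m1 (D * G) ≤ L * B' := by nlinarith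
  have hmax : max (Real.log (m1 (D * F))) (Real.log (m1 (D * G))) ≤ Real.log (L * B') := by
    apply max_le
    · exact Real.log_le_log (by linarith [I1_one_le_m1 (mul_ne_zero hD hF)]) hDF
    · exact Real.log_le_log (by linarith [I1_one_le_m1 (mul_ne_zero hD hG)]) hDGB
  have h1 := mx1_mul D F G hD hF
  have h2 : 0 ≤ Real.log (m1 D) := Real.log_nonneg h1D
  exact Pool.Agent.W242.IM.m1_mem_LL F G hF hG hrel _ (by linarith)

/-- the pairs of small discrepancy -/
theorem HM_pair {κ : ℝ → ℝ} {D F G : ℤ[X]} {b : ℝ} (hF : (D * F).coeff 0 ≠ 0)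
    (hG : (D * G).coeff 0 ≠ 0) (hrel : IsRelPrime F G)
    (hdeg : |((D * F).natDegree : ℝ) - (D * G).natDegree| ≤ κ (m1 F))
    (hd : ∫ x in (0:ℝ)..1, ((above (D * F) x : ℝ) - above (D * G) x - b) ^ 2 ≤ κ (m1 F) ^ 2)
    (hm : m1 (D * G) ≤ κ (m1 F)) : m1 F ∈ HM (fun x => 3 * κ x) := by
  have hF0 : D * F ≠ 0 := by
    rintro h
    exact hF (by rw [h, coeff_zero])
  have hG0 : D * G ≠ 0 := by
    rintro h
    exact hG (by rw [h, coeff_zero])
  have hr : 0 ≤ κ (m1 F) := (abs_nonneg _).trans hdeg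
  refine ⟨D, F, G, left_ne_zero_of_mul hF0, right_ne_zero_of_mul hF0, right_ne_zero_of_mul hG0,
    hrel, by linarith, ?_, rfl⟩
  exact pair_height _ _ hF hG _ hr hdeg b hd

/-- the discrepancy from the uniform distribution -/
theorem HM_uniform {κ : ℝ → ℝ} {F : ℤ[X]} {b : ℝ} (hF : F.coeff 0 ≠ 0)
    (hd : Real.sqrt (disc2 F b) ≤ κ (m1 F)) : m1 F ∈ HM (fun x => 6 * (1 + κ x)) := by
  have hF0 : F ≠ 0 := by
    rintro rfl
    exact hF (coeff_zero 0)
  have hr : 0 ≤ κ (m1 F) := (Real.sqrt_nonneg _).trans hd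
  have h1F := I1_one_le_m1 hF0
  rcases Nat.eq_zero_or_pos F.natDegree with h0 | h0
  · refine ⟨1, F, 1, one_ne_zero, hF0, one_ne_zero, isRelPrime_one_right, ?_, ?_, rfl⟩
    · rw [one_mul, m1_one]
      linarith
    · rw [one_mul, one_mul]
      have h1 : ∀ x, above F x = 0 := fun x => Nat.le_zero.mp (h0 ▸ above_le F x)
      have h2 := pair_height F 1 hF (by simp) 0 le_rfl (by rw [h0]; simp) 0
        (by simp [h1, above_one])
      linarith
  · obtain ⟨F', G', D, hF', hG', hD0, hrel, hDF, hDG, _⟩ :=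
      reduce F (X ^ F.natDegree - 1) hF0 (X_pow_sub_one_ne h0)
    have hm : m1 D = 1 := by
      have h2 := m1_le_of_dvd (X_pow_sub_one_ne h0) ⟨G', hDG⟩
      rw [m1_unity h0] at h2
      exact le_antisymm h2 (I1_one_le_m1 hD0)
    have hmF : m1 F = m1 F' := by
      rw [hDF, I1_m1_mul, hm, one_mul]
    refine ⟨D, F', G', hD0, hF', hG', hrel, ?_, ?_, hmF⟩
    · rw [← hDG, m1_unity h0]
      linarith
    · rw [← hDF, ← hDG]
      have hx : ∫ x in (0:ℝ)..1, ((above F x : ℝ) - above (X ^ F.natDegree - 1) x - b) ^ 2 ≤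
          (2 * (1 + κ (m1 F))) ^ 2 := by
        refine (disc_unity F h0 b).trans ?_
        have := Real.sqrt_nonneg (disc2 F b)
        refine pow_le_pow_left₀ (by positivity) ?_ 2
        linarith
      have h3 := pair_height F (X ^ F.natDegree - 1) hF (coeff_unity h0) (2 * (1 + κ (m1 F)))
        (by positivity) (by rw [natDegree_unity, sub_self, abs_zero]; positivity) b hx
      linarith

end

end Pool.Agent.U72.NP
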